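import Pool.Agent.Lib.LC465.Spec

/-!
# LC465/Bmp: the bump function and its primitive
-/

set_option autoImplicit false

open Metric Set Filter Topology

namespace LC465

private theorem bmp_hasDerivAt_sq (t : ℝ) :
    HasDerivAt (fun s : ℝ => (max 0 s) ^ 2) (2 * max 0 t) t := by
  rcases lt_trichotomy t 0 with h | h | h
  · have he : (fun s : ℝ => (max 0 s) ^ 2) =ᶠ[𝓝 t] fun _ => (0 : ℝ) := by
      filter_upwards [Iio_mem_nhds h] with s hs
      rw [max_eq_left (le_of_lt hs)]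
      norm_num
    have h0 : HasDerivAt (fun _ : ℝ => (0 : ℝ)) 0 t := hasDerivAt_const t 0
    rw [max_eq_left h.le, mul_zero]
    exact h0.congr_of_eventuallyEq he
  · subst h
    have hb : (fun s : ℝ => (max 0 s) ^ 2) =O[𝓝 (0 : ℝ)] fun s => ‖s - 0‖ ^ 2 := by
      refine Asymptotics.IsBigO.of_bound 1 (Eventually.of_forall fun s => ?_)
      rw [one_mul, Real.norm_eq_abs, Real.norm_eq_abs, sub_zero, Real.norm_eq_abs,
        abs_of_nonneg (sq_nonneg _), abs_of_nonneg (sq_nonneg _), sq_abs]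
      rcases le_total s 0 with h | h
      · rw [max_eq_left h]
        nlinarith [sq_nonneg s]
      · rw [max_eq_right h]
    have h1 : HasFDerivAt (fun s : ℝ => (max 0 s) ^ 2) (0 : ℝ →L[ℝ] ℝ) 0 :=
      hb.hasFDerivAt (by norm_num)
    have h2 := h1.hasDerivAt
    simpa using h2
  · have he : (fun s : ℝ => (max 0 s) ^ 2) =ᶠ[𝓝 t] fun s => s ^ 2 := by
      filter_upwards [Ioi_mem_nhds h] with s hs
      rw [max_eq_right (le_of_lt hs)]
    have h0 : HasDerivAt (fun s : ℝ => s ^ 2) (2 * t) t := by simpa using hasDerivAt_pow 2 t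
    rw [max_eq_right h.le]
    exact h0.congr_of_eventuallyEq he

private theorem bmp_hasDerivAt_bet (t : ℝ) :
    HasDerivAt bet (-120 * t * max 0 (1 / 4 - t ^ 2)) t := by
  have h1 : HasDerivAt (fun s : ℝ => 1 / 4 - s ^ 2) (-(2 * t)) t := by
    have := (hasDerivAt_pow 2 t).const_sub (1 / 4)
    simpa using this
  have h2 := ((bmp_hasDerivAt_sq (1 / 4 - t ^ 2)).comp t h1).const_mul 30
  have he : 30 * (2 * max 0 (1 / 4 - t ^ 2) * -(2 * t)) = -120 * t * max 0 (1 / 4 - t ^ 2) := by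
    ring
  rw [he] at h2
  exact h2

private theorem bmp_cont_bet : Continuous bet := by
  unfold bet
  fun_prop

private theorem bmp_contDiff_bet : ContDiff ℝ 1 bet := by
  rw [contDiff_one_iff_deriv]
  refine ⟨fun t => (bmp_hasDerivAt_bet t).differentiableAt, ?_⟩
  have h : deriv bet = fun t => -120 * t * max 0 (1 / 4 - t ^ 2) :=
    funext fun t => (bmp_hasDerivAt_bet t).deriv
  rw [h]
  fun_prop

private noncomputable def bmpP (t : ℝ) : ℝ := 1 / 2 + 30 * (t / 16 - t ^ 3 / 6 + t ^ 5 / 5)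

private theorem bmp_hasDerivAt_P (t : ℝ) : HasDerivAt bmpP (30 * (1 / 4 - t ^ 2) ^ 2) t := by
  have h1 : HasDerivAt (fun s : ℝ => s / 16) (1 / 16) t := (hasDerivAt_id t).div_const 16
  have h3 : HasDerivAt (fun s : ℝ => s ^ 3 / 6) (3 * t ^ 2 / 6) t := by
    have := (hasDerivAt_pow 3 t).div_const 6
    simpa using this
  have h5 : HasDerivAt (fun s : ℝ => s ^ 5 / 5) (5 * t ^ 4 / 5) t := by
    have := (hasDerivAt_pow 5 t).div_const 5
    simpa using this
  have h := (((h1.sub h3).add h5).const_mul 30).const_add (1 / 2)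
  have he : 30 * (1 / 16 - 3 * t ^ 2 / 6 + 5 * t ^ 4 / 5) = 30 * (1 / 4 - t ^ 2) ^ 2 := by ring
  rw [he] at h
  exact h

private theorem bmp_cont_clp : Continuous clp := by
  unfold clp
  fun_prop

private theorem bmp_clp_lip (s t : ℝ) : |clp s - clp t| ≤ |s - t| := by
  unfold clp
  have h1 := abs_max_sub_max_le_abs (min (1 / 2) s) (min (1 / 2) t) (-(1 / 2))
  have h2 := abs_min_sub_min_le_max (1 / 2) s (1 / 2) t
  rw [sub_self, abs_zero, max_eq_right (abs_nonneg _)] at h2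
  rw [max_comm (-(1 / 2)) _, max_comm (-(1 / 2)) _]
  exact h1.trans h2

private theorem bmp_clp_of_ge {t : ℝ} (h : 1 / 2 ≤ t) : clp t = 1 / 2 := by
  unfold clp
  rw [min_eq_left h]
  norm_num

private theorem bmp_clp_of_le {t : ℝ} (h : t ≤ -(1 / 2)) : clp t = -(1 / 2) := by
  unfold clp
  rw [min_eq_right (by linarith), max_eq_left h]

private theorem bmp_clp_of_mem {t : ℝ} (h : -(1 / 2) ≤ t) (h' : t ≤ 1 / 2) : clp t = t := by
  unfold clp
  rw [min_eq_right h', max_eq_right h]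

private theorem bmp_clp_neg (t : ℝ) : clp (-t) = -clp t := by
  rcases le_total t (-(1 / 2)) with h | h
  · rw [bmp_clp_of_le h, bmp_clp_of_ge (by linarith)]
    norm_num
  · rcases le_total t (1 / 2) with h' | h'
    · rw [bmp_clp_of_mem h h', bmp_clp_of_mem (by linarith) (by linarith)]
    · rw [bmp_clp_of_ge h', bmp_clp_of_le (by linarith)]

private theorem bmp_bet_zero {t : ℝ} (h : 1 / 2 ≤ |t|) : bet t = 0 := by
  unfold bet
  have h1 : 1 / 4 - t ^ 2 ≤ 0 := by
    have : (1 / 2) * (1 / 2) ≤ |t| * |t| := mul_le_mul h h (by norm_num) (abs_nonneg t)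
    rw [abs_mul_abs_self] at this
    nlinarith
  rw [max_eq_left h1]
  norm_num

private theorem bmp_hasDerivAt_Bt (t : ℝ) : HasDerivAt Bt (bet t) t := by
  rcases lt_or_ge |t| (1 / 2) with h | h
  · have h1 := abs_lt.1 h
    have he : Bt =ᶠ[𝓝 t] bmpP := by
      filter_upwards [Ioo_mem_nhds h1.1 h1.2] with s hs
      unfold Bt bmpP
      rw [bmp_clp_of_mem hs.1.le hs.2.le]
    have hb : bet t = 30 * (1 / 4 - t ^ 2) ^ 2 := by
      unfold bet
      have : 0 ≤ 1 / 4 - t ^ 2 := by nlinarith [h1.1, h1.2]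
      rw [max_eq_right this]
    rw [hb]
    exact (bmp_hasDerivAt_P t).congr_of_eventuallyEq he
  · rw [bmp_bet_zero h]
    have hc : clp t = 1 / 2 ∨ clp t = -(1 / 2) := by
      rcases le_abs.1 h with h1 | h1
      · exact Or.inl (bmp_clp_of_ge h1)
      · exact Or.inr (bmp_clp_of_le (by linarith))
    have hP : HasDerivAt bmpP 0 (clp t) := by
      have h2 := bmp_hasDerivAt_P (clp t)
      have h3 : 30 * (1 / 4 - (clp t) ^ 2) ^ 2 = 0 := by
        rcases hc with h4 | h4 <;> rw [h4] <;> norm_num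
      rwa [h3] at h2
    have h5 : (fun y => bmpP y - bmpP (clp t)) =o[𝓝 (clp t)] fun y => y - clp t := by
      have h6 := hasDerivAt_iff_isLittleO.1 hP
      simpa using h6
    have h7 : (fun s => bmpP (clp s) - bmpP (clp t)) =o[𝓝 t] fun s => clp s - clp t :=
      h5.comp_tendsto bmp_cont_clp.continuousAt
    have h8 : (fun s => clp s - clp t) =O[𝓝 t] fun s => s - t := by
      refine Asymptotics.IsBigO.of_bound 1 (Eventually.of_forall fun s => ?_)
      rw [one_mul, Real.norm_eq_abs, Real.norm_eq_abs]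
      exact bmp_clp_lip s t
    rw [hasDerivAt_iff_isLittleO]
    have h9 := h7.trans_isBigO h8
    have h10 : (fun s => Bt s - Bt t - (s - t) • (0 : ℝ)) = fun s => bmpP (clp s) - bmpP (clp t) := by
      funext s
      unfold Bt bmpP
      simp
    rw [h10]
    exact h9

private theorem bmp_Bt_le {t : ℝ} (h : t ≤ -(1 / 2)) : Bt t = 0 := by
  unfold Bt
  rw [bmp_clp_of_le h]
  norm_num

private theorem bmp_Bt_ge {t : ℝ} (h : 1 / 2 ≤ t) : Bt t = 1 := by
  unfold Bt
  rw [bmp_clp_of_ge h]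
  norm_num

private theorem bmp_bet_nonneg (t : ℝ) : 0 ≤ bet t := by
  unfold bet
  positivity

private theorem bmp_Bt_mono : Monotone Bt :=
  monotone_of_deriv_nonneg (fun t => (bmp_hasDerivAt_Bt t).differentiableAt)
    (fun t => by rw [(bmp_hasDerivAt_Bt t).deriv]; exact bmp_bet_nonneg t)

theorem tBmp : S_Bmp := by
  refine ⟨bmp_contDiff_bet, ?_, bmp_hasDerivAt_Bt, fun t => ⟨bmp_bet_nonneg t, ?_, ?_, ?_, ?_, ?_⟩,
    fun t h => bmp_bet_zero h, fun t h => bmp_Bt_le h, fun t h => bmp_Bt_ge h, fun t h => ?_⟩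
  · rw [contDiff_one_iff_deriv]
    refine ⟨fun t => (bmp_hasDerivAt_Bt t).differentiableAt, ?_⟩
    have h : deriv Bt = bet := funext fun t => (bmp_hasDerivAt_Bt t).deriv
    rw [h]
    exact bmp_cont_bet
  · unfold bet
    have h1 : max 0 (1 / 4 - t ^ 2) ≤ 1 / 4 := max_le (by norm_num) (by nlinarith [sq_nonneg t])
    have h2 : 0 ≤ max 0 (1 / 4 - t ^ 2) := le_max_left _ _
    nlinarith
  · have h1 : Bt (min t (-(1 / 2))) ≤ Bt t := bmp_Bt_mono (min_le_left _ _)
    rwa [bmp_Bt_le (min_le_right _ _)] at h1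
  · have h1 : Bt t ≤ Bt (max t (1 / 2)) := bmp_Bt_mono (le_max_left _ _)
    rwa [bmp_Bt_ge (le_max_right _ _)] at h1
  · unfold bet
    rw [neg_sq]
  · unfold Bt
    rw [bmp_clp_neg]
    ring
  · unfold bet
    have h1 := abs_le.1 h
    have h2 : t ^ 2 ≤ 1 / 64 := by nlinarith [h1.1, h1.2]
    have h3 : 15 / 64 ≤ max 0 (1 / 4 - t ^ 2) := le_max_of_le_right (by linarith)
    nlinarith

end LC465
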