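import Pool.Agent.Lib.LC465.Spec2

/-!
# LC465/Clo: the map is not in the closure of `S¹`
-/

set_option autoImplicit false

open Metric Set Filter Topology

namespace LC465

open Pool.Agent.Lib.MP_465591_an

theorem tClo (hC : NC.S_Cmain) (hMx : S_Mx) (hSta : S_Sta) : S_Clo := by
  intro F s r a b γ K0 c NN c0 C1 c1 ε D f hf hT
  have hs := D.hs
  have hs1 := D.hs1
  have hfk : ∀ k, DifferentiableOn ℂ (f k) (ball 0 1) ∧ InjOn (f k) (ball 0 1) := by
    intro k
    obtain ⟨L, hL, he⟩ := hf k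
    exact ⟨(hL.diff 0 le_rfl).congr fun z hz => (he hz).symm, he.injOn_iff.1 (hL.inj 0 le_rfl)⟩
  obtain ⟨s', hss, hs'1⟩ := exists_between hs1
  have hs'0 : 0 ≤ s' := hs.trans hss.le
  have hU : TendstoUniformlyOn f F atTop (closedBall 0 s') :=
    (tendstoLocallyUniformlyOn_iff_forall_isCompact isOpen_ball).1 hT (closedBall 0 s')
      (closedBall_subset_ball hs'1) (isCompact_closedBall 0 s')
  have hinj : InjOn F (ball 0 1) := D.hinj.mono (ball_subset_ball D.hr.le)
  have hev := hSta F s s' D.hF hinj hs hss hs'1 f hfk hU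
  -- for these `k` the annulus is contained in the image of `f k`
  have hB : ∀ k, F '' closedBall 0 s ⊆ f k '' closedBall 0 s' →
      ∀ x : ℂ, a ≤ ‖x‖ → ‖x‖ ≤ b → ∃ w : Cn 2, ‖w‖ ≤ s' ∧ f k w = γ x := by
    intro k hk
    refine hMx a b s' γ (f k) D.ha D.hab hs'1 D.hγ (hfk k).1 (hfk k).2 ?_ ?_
    · intro x hx
      obtain ⟨w, hw, e⟩ := hk (D.hKF (D.hbd x hx))
      exact ⟨w, mem_closedBall_zero_iff.1 hw, e⟩
    · by_contra hcon
      push Not at hcon
      exact hC 2 (f k) s' a b γ K0 c NN c0 C1 c1 ε hs'0 hs'1 D.ha D.hab D.hC1 D.hc1 D.hε D.hγ D.hc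
        (D.hKF.trans hk) D.hbd hcon D.hAa D.hloc D.h0 (hf k)
  obtain ⟨x, hxa, hxb, hx⟩ := D.hout
  have hcl : IsClosed (F '' closedBall 0 s') :=
    ((isCompact_closedBall 0 s').image D.hF.continuous).isClosed
  have hmem : γ x ∈ F '' closedBall 0 s' := by
    rw [← hcl.closure_eq, Metric.mem_closure_iff]
    intro η hη
    obtain ⟨k, hk, hk2⟩ := (hev.and (Metric.tendstoUniformlyOn_iff.1 hU η hη)).exists
    obtain ⟨w, hw, e⟩ := hB k hk x hxa hxb
    have hw' : w ∈ closedBall (0 : Cn 2) s' := mem_closedBall_zero_iff.2 hw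
    refine ⟨F w, mem_image_of_mem _ hw', ?_⟩
    rw [← e, dist_comm]
    exact hk2 w hw'
  exact hx (image_mono (closedBall_subset_ball hs'1) hmem)

end LC465
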