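import Pool.Agent.Lib.LC465.Spec

/-!
# LC465: each cell is mapped onto its half plane
-/

set_option autoImplicit false

namespace LC465

/-- The polynomial. -/
noncomputable def ExAux.pp : Polynomial ℂ :=
  Polynomial.C (-(3 / 8)) * Polynomial.X ^ 5 + Polynomial.C (10 / 8) * Polynomial.X ^ 3 +
    Polynomial.C (-(15 / 8)) * Polynomial.X

lemma ExAux.pp_eval (u : ℂ) : ExAux.pp.eval u = psi u := by
  simp only [ExAux.pp, psi, Polynomial.eval_add, Polynomial.eval_mul, Polynomial.eval_C,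
    Polynomial.eval_pow, Polynomial.eval_X]
  ring

lemma ExAux.closedMap : IsClosedMap psi := by
  have h : psi = ExAux.pp.eval := funext fun u => (ExAux.pp_eval u).symm
  rw [h]
  exact Polynomial.isClosedMap_eval ExAux.pp

lemma ExAux.openMap : IsOpenMap psi := by
  have h : AnalyticOnNhd ℂ psi Set.univ := fun z _ => differentiable_psi.analyticAt z
  rcases h.is_constant_or_isOpenMap with ⟨w, hw⟩ | h
  · exfalso
    have h0 := hw 0
    have h1 := hw 1
    rw [← h0] at h1
    norm_num [psi] at h1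
  · exact h

lemma ExAux.psi_real {u : ℂ} (h : u.im = 0) : (psi u).im = 0 := by
  rw [psi_im, h, mul_zero, zero_mul]

/-- The set of values of a cell is the half plane. -/
private lemma half_image (σ : ℝ) (A : Set ℂ) (hA : IsOpen A)
    (hcl : ∀ u ∈ closure A, 0 < σ * (psi u).im → u ∈ A) (hpos : ∀ u ∈ A, 0 < σ * (psi u).im)
    (hne : A.Nonempty) {c : ℂ} (hc : 0 < σ * c.im) : ∃ u ∈ A, psi u = c := by
  have hs : IsPreconnected {c : ℂ | 0 < σ * c.im} := by
    apply Convex.isPreconnected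
    have : {c : ℂ | 0 < σ * c.im} = (fun c : ℂ => σ * c.im) ⁻¹' (Set.Ioi 0) := rfl
    rw [this]
    exact (convex_Ioi (0 : ℝ)).is_linear_preimage
      ⟨fun x y => by simp only [Complex.add_im]; ring,
        fun a x => by simp only [Complex.real_smul, Complex.mul_im, Complex.ofReal_re,
          Complex.ofReal_im, zero_mul, add_zero, smul_eq_mul]; ring⟩
  have h1 := hs.subset_of_closure_inter_subset (ExAux.openMap A hA) (by
    obtain ⟨u, hu⟩ := hne
    exact ⟨psi u, hpos u hu, u, hu, rfl⟩) (by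
    rintro c ⟨hc, hc2⟩
    have h2 : closure (psi '' A) ⊆ psi '' closure A :=
      closure_minimal (Set.image_mono subset_closure) (ExAux.closedMap _ isClosed_closure)
    obtain ⟨u, hu, rfl⟩ := h2 hc
    exact ⟨u, hcl u hu hc2, rfl⟩)
  exact h1 hc

private lemma cl_le {A : Set ℂ} {f g : ℂ → ℝ} (hf : Continuous f) (hg : Continuous g)
    (h : ∀ u ∈ A, f u < g u) {u : ℂ} (hu : u ∈ closure A) : f u ≤ g u :=
  closure_lt_subset_le hf hg (closure_mono h hu)

private lemma psi_im_cont : Continuous fun u => (psi u).im := Complex.continuous_im.comp continuous_psi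

lemma ExAux.C1_open : IsOpen C1 :=
  (isOpen_lt (by fun_prop) (by fun_prop)).and ((isOpen_lt (by fun_prop) psi_im_cont).and
    ((isOpen_lt (by fun_prop) (by fun_prop)).and (isOpen_lt (by fun_prop) (by fun_prop))))

lemma ExAux.C2_open : IsOpen C2 :=
  (isOpen_lt (by fun_prop) (by fun_prop)).and ((isOpen_lt psi_im_cont (by fun_prop)).and
    (isOpen_lt (by fun_prop) (by fun_prop)))

lemma ExAux.C3_open : IsOpen C3 :=
  (isOpen_lt (by fun_prop) (by fun_prop)).and ((isOpen_lt (by fun_prop) psi_im_cont).and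
    (isOpen_lt (by fun_prop) (by fun_prop)))

lemma ExAux.C4_open : IsOpen C4 :=
  (isOpen_lt (by fun_prop) (by fun_prop)).and ((isOpen_lt psi_im_cont (by fun_prop)).and
    (isOpen_lt (by fun_prop) (by fun_prop)))

lemma ExAux.C5_open : IsOpen C5 :=
  (isOpen_lt (by fun_prop) (by fun_prop)).and ((isOpen_lt (by fun_prop) psi_im_cont).and
    ((isOpen_lt (by fun_prop) (by fun_prop)).and (isOpen_lt (by fun_prop) (by fun_prop))))

private lemma cl_im {A : Set ℂ} (h : ∀ u ∈ A, u.im < 0) {u : ℂ} (hu : u ∈ closure A)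
    (h2 : (psi u).im ≠ 0) : u.im < 0 := by
  refine lt_of_le_of_ne (cl_le (f := fun u => u.im) (g := fun _ => 0) (by fun_prop) (by fun_prop)
    h hu) ?_
  intro h3
  exact h2 (ExAux.psi_real h3)

/-- (Q3), existence. -/
private theorem psi_ex1 {c : ℂ} (hc : 0 < c.im) : ∃ u ∈ C1, psi u = c := by
  refine half_image 1 C1 ExAux.C1_open ?_ (fun u hu => by rw [one_mul]; exact hu.2.1) ?_
    (by rwa [one_mul])
  · intro u hu h
    rw [one_mul] at h
    have h1 := cl_im (fun u hu => hu.1) hu h.ne'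
    have h2 := cl_le (f := fun u => 1 + u.im ^ 2) (g := fun u => u.re ^ 2) (by fun_prop)
      (by fun_prop) (fun u hu => hu.2.2.1) hu
    have h3 := cl_le (f := fun u => u.re) (g := fun u => 0) (by fun_prop)
      (by fun_prop) (fun u hu => hu.2.2.2) hu
    refine ⟨h1, h, lt_of_le_of_ne h2 fun h4 => ?_, lt_of_le_of_ne h3 fun h4 => ?_⟩
    · exact absurd h (im_neg_of_eq h1 h4.symm).not_gt
    · rw [h4] at h2
      nlinarith [sq_nonneg u.im]
  · refine ⟨⟨-10, -1⟩, ?_, ?_, ?_, ?_⟩
    · norm_num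
    · rw [psi_im]
      norm_num
    · norm_num
    · norm_num

private theorem psi_ex2 {c : ℂ} (hc : c.im < 0) : ∃ u ∈ C2, psi u = c := by
  refine half_image (-1) C2 ExAux.C2_open ?_ (fun u hu => by linarith [hu.2.1]) ?_ (by linarith)
  · intro u hu h
    have h0 : (psi u).im < 0 := by linarith
    have h1 := cl_im (fun u hu => hu.1) hu h0.ne
    have h3 := cl_le (f := fun u => u.re) (g := fun u => 0) (by fun_prop)
      (by fun_prop) (fun u hu => hu.2.2) hu
    refine ⟨h1, h0, lt_of_le_of_ne h3 fun h4 => ?_⟩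
    exact absurd h0 (im_pos_of_re h1 h4).not_gt
  · refine ⟨⟨-1, -1⟩, ?_, ?_, ?_⟩
    · norm_num
    · rw [psi_im]
      norm_num
    · norm_num

private theorem psi_ex3 {c : ℂ} (hc : 0 < c.im) : ∃ u ∈ C3, psi u = c := by
  refine half_image 1 C3 ExAux.C3_open ?_ (fun u hu => by rw [one_mul]; exact hu.2.1) ?_
    (by rwa [one_mul])
  · intro u hu h
    rw [one_mul] at h
    have h1 := cl_im (fun u hu => hu.1) hu h.ne'
    have h2 := cl_le (f := fun u => u.re ^ 2) (g := fun u => 1 + u.im ^ 2) (by fun_prop)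
      (by fun_prop) (fun u hu => hu.2.2) hu
    refine ⟨h1, h, lt_of_le_of_ne h2 fun h4 => ?_⟩
    exact absurd h (im_neg_of_eq h1 h4).not_gt
  · refine ⟨⟨0, -1⟩, ?_, ?_, ?_⟩
    · norm_num
    · rw [psi_im]
      norm_num
    · norm_num

private theorem psi_ex4 {c : ℂ} (hc : c.im < 0) : ∃ u ∈ C4, psi u = c := by
  refine half_image (-1) C4 ExAux.C4_open ?_ (fun u hu => by linarith [hu.2.1]) ?_ (by linarith)
  · intro u hu h
    have h0 : (psi u).im < 0 := by linarith
    have h1 := cl_im (fun u hu => hu.1) hu h0.ne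
    have h3 := cl_le (f := fun u => 0) (g := fun u => u.re) (by fun_prop)
      (by fun_prop) (fun u hu => hu.2.2) hu
    refine ⟨h1, h0, lt_of_le_of_ne h3 fun h4 => ?_⟩
    exact absurd h0 (im_pos_of_re h1 h4.symm).not_gt
  · refine ⟨⟨1, -1⟩, ?_, ?_, ?_⟩
    · norm_num
    · rw [psi_im]
      norm_num
    · norm_num

private theorem psi_ex5 {c : ℂ} (hc : 0 < c.im) : ∃ u ∈ C5, psi u = c := by
  refine half_image 1 C5 ExAux.C5_open ?_ (fun u hu => by rw [one_mul]; exact hu.2.1) ?_
    (by rwa [one_mul])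
  · intro u hu h
    rw [one_mul] at h
    have h1 := cl_im (fun u hu => hu.1) hu h.ne'
    have h2 := cl_le (f := fun u => 1 + u.im ^ 2) (g := fun u => u.re ^ 2) (by fun_prop)
      (by fun_prop) (fun u hu => hu.2.2.1) hu
    have h3 := cl_le (f := fun u => 0) (g := fun u => u.re) (by fun_prop)
      (by fun_prop) (fun u hu => hu.2.2.2) hu
    refine ⟨h1, h, lt_of_le_of_ne h2 fun h4 => ?_, lt_of_le_of_ne h3 fun h4 => ?_⟩
    · exact absurd h (im_neg_of_eq h1 h4.symm).not_gt
    · rw [← h4] at h2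
      nlinarith [sq_nonneg u.im]
  · refine ⟨⟨10, -1⟩, ?_, ?_, ?_, ?_⟩
    · norm_num
    · rw [psi_im]
      norm_num
    · norm_num
    · norm_num

theorem tEx : S_Ex :=
  ⟨fun _ hc => ⟨psi_ex1 hc, psi_ex3 hc, psi_ex5 hc⟩, fun _ hc => ⟨psi_ex2 hc, psi_ex4 hc⟩⟩

end LC465
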