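import Pool.Agent.Lib.LC465.Spec
import Pool.Agent.Lib.LC465.Ex

/-!
# LC465: there are no other roots in the lower half plane
-/

set_option autoImplicit false

namespace LC465

/-- (Q3), every root in the lower half plane is in a cell. -/
theorem CntAux.cov_pos {u : ℂ} (hu : u.im < 0) (h : 0 < (psi u).im) :
    u ∈ C1 ∨ u ∈ C3 ∨ u ∈ C5 := by
  rcases lt_trichotomy (u.re ^ 2) (1 + u.im ^ 2) with h1 | h1 | h1
  · exact Or.inr (Or.inl ⟨hu, h, h1⟩)
  · exact absurd h (im_neg_of_eq hu h1).not_gt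
  · rcases lt_trichotomy u.re 0 with h2 | h2 | h2
    · exact Or.inl ⟨hu, h, h1, h2⟩
    · rw [h2] at h1
      nlinarith [sq_nonneg u.im]
    · exact Or.inr (Or.inr ⟨hu, h, h1, h2⟩)

theorem CntAux.cov_neg {u : ℂ} (hu : u.im < 0) (h : (psi u).im < 0) :
    u ∈ C2 ∨ u ∈ C4 := by
  rcases lt_trichotomy u.re 0 with h2 | h2 | h2
  · exact Or.inl ⟨hu, h, h2⟩
  · exact absurd h (im_pos_of_re hu h2).not_gt
  · exact Or.inr ⟨hu, h, h2⟩

/-- The label of a root. -/
private noncomputable def lab (u : ℂ) : ℕ :=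
  if u.im < 0 then (if u.re ^ 2 < 1 + u.im ^ 2 then 3 else if u.re < 0 then 1 else 5)
  else if u.re < 0 then 7 else 9

private lemma lab1 {u : ℂ} (h : u ∈ C1) : lab u = 1 := by
  rw [lab, if_pos h.1, if_neg h.2.2.1.not_gt, if_pos h.2.2.2]

private lemma lab3 {u : ℂ} (h : u ∈ C3) : lab u = 3 := by
  rw [lab, if_pos h.1, if_pos h.2.2]

private lemma lab5 {u : ℂ} (h : u ∈ C5) : lab u = 5 := by
  rw [lab, if_pos h.1, if_neg h.2.2.1.not_gt, if_neg h.2.2.2.not_gt]

private lemma lab2 {u : ℂ} (h : u ∈ C2) : lab ((starRingEnd ℂ) u) = 7 := by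
  have h1 : ¬ ((starRingEnd ℂ) u).im < 0 := by
    rw [Complex.conj_im]
    linarith [h.1]
  rw [lab, if_neg h1, Complex.conj_re, if_pos h.2.2]

private lemma lab4 {u : ℂ} (h : u ∈ C4) : lab ((starRingEnd ℂ) u) = 9 := by
  have h1 : ¬ ((starRingEnd ℂ) u).im < 0 := by
    rw [Complex.conj_im]
    linarith [h.1]
  rw [lab, if_neg h1, Complex.conj_re, if_neg h.2.2.not_gt]

private lemma lab_inj (hEx : S_Ex) {c : ℂ} (hc : 0 < c.im) : Set.InjOn lab {u | psi u = c} := by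
  classical
  obtain ⟨P, hPdef⟩ : ∃ P : Polynomial ℂ, P = ExAux.pp - Polynomial.C c := ⟨_, rfl⟩
  have hev : ∀ u, P.eval u = psi u - c := fun u => by
    rw [hPdef, Polynomial.eval_sub, ExAux.pp_eval, Polynomial.eval_C]
  have hP : P ≠ 0 := by
    intro h
    have h0 := hev 0
    rw [h, Polynomial.eval_zero] at h0
    have h1 : psi 0 = 0 := by norm_num [psi]
    rw [h1, zero_sub] at h0
    have h2 : c = 0 := neg_eq_zero.1 h0.symm
    rw [h2] at hc
    exact lt_irrefl _ hc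
  have hdeg : P.natDegree ≤ 5 := by
    rw [hPdef, ExAux.pp]
    compute_degree
  have hR : ∀ u, u ∈ P.roots.toFinset ↔ psi u = c := fun u => by
    rw [Multiset.mem_toFinset, Polynomial.mem_roots hP, Polynomial.IsRoot.def, hev, sub_eq_zero]
  have hcard : P.roots.toFinset.card ≤ 5 :=
    (Multiset.toFinset_card_le _).trans ((Polynomial.card_roots' P).trans hdeg)
  have hc' : ((starRingEnd ℂ) c).im < 0 := by
    rw [Complex.conj_im]
    linarith
  have himg : ({1, 3, 5, 7, 9} : Finset ℕ) ⊆ P.roots.toFinset.image lab := by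
    intro i hi
    rw [Finset.mem_image]
    simp only [Finset.mem_insert, Finset.mem_singleton] at hi
    rcases hi with rfl | rfl | rfl | rfl | rfl
    · obtain ⟨u, hu, h⟩ := (hEx.1 c hc).1
      exact ⟨u, (hR u).2 h, lab1 hu⟩
    · obtain ⟨u, hu, h⟩ := (hEx.1 c hc).2.1
      exact ⟨u, (hR u).2 h, lab3 hu⟩
    · obtain ⟨u, hu, h⟩ := (hEx.1 c hc).2.2
      exact ⟨u, (hR u).2 h, lab5 hu⟩
    · obtain ⟨u, hu, h⟩ := (hEx.2 _ hc').1
      refine ⟨(starRingEnd ℂ) u, (hR _).2 ?_, lab2 hu⟩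
      rw [psi_conj, h, Complex.conj_conj]
    · obtain ⟨u, hu, h⟩ := (hEx.2 _ hc').2
      refine ⟨(starRingEnd ℂ) u, (hR _).2 ?_, lab4 hu⟩
      rw [psi_conj, h, Complex.conj_conj]
  have h5 : (5 : ℕ) ≤ (P.roots.toFinset.image lab).card := Finset.card_le_card himg
  have h6 : (P.roots.toFinset.image lab).card = P.roots.toFinset.card :=
    le_antisymm Finset.card_image_le (hcard.trans h5)
  have h7 := Finset.card_image_iff.1 h6
  intro u hu v hv h
  exact h7 (Finset.mem_coe.2 ((hR u).2 hu)) (Finset.mem_coe.2 ((hR v).2 hv)) h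

/-- (Q3), uniqueness. -/
theorem CntAux.inj1 (hEx : S_Ex) {u v : ℂ} (hu : u ∈ C1) (hv : v ∈ C1) (h : psi u = psi v) : u = v :=
  lab_inj hEx (c := psi v) hv.2.1 h rfl ((lab1 hu).trans (lab1 hv).symm)

theorem CntAux.inj3 (hEx : S_Ex) {u v : ℂ} (hu : u ∈ C3) (hv : v ∈ C3) (h : psi u = psi v) : u = v :=
  lab_inj hEx (c := psi v) hv.2.1 h rfl ((lab3 hu).trans (lab3 hv).symm)

theorem CntAux.inj5 (hEx : S_Ex) {u v : ℂ} (hu : u ∈ C5) (hv : v ∈ C5) (h : psi u = psi v) : u = v :=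
  lab_inj hEx (c := psi v) hv.2.1 h rfl ((lab5 hu).trans (lab5 hv).symm)

theorem CntAux.inj2 (hEx : S_Ex) {u v : ℂ} (hu : u ∈ C2) (hv : v ∈ C2) (h : psi u = psi v) : u = v := by
  have h1 : (starRingEnd ℂ) u = (starRingEnd ℂ) v :=
    lab_inj hEx (c := psi ((starRingEnd ℂ) v)) (by rw [psi_conj, Complex.conj_im]; linarith [hv.2.1])
      (show psi ((starRingEnd ℂ) u) = psi ((starRingEnd ℂ) v) by rw [psi_conj, psi_conj, h]) rfl
      ((lab2 hu).trans (lab2 hv).symm)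
  exact (starRingEnd ℂ).injective h1

theorem CntAux.inj4 (hEx : S_Ex) {u v : ℂ} (hu : u ∈ C4) (hv : v ∈ C4) (h : psi u = psi v) : u = v := by
  have h1 : (starRingEnd ℂ) u = (starRingEnd ℂ) v :=
    lab_inj hEx (c := psi ((starRingEnd ℂ) v)) (by rw [psi_conj, Complex.conj_im]; linarith [hv.2.1])
      (show psi ((starRingEnd ℂ) u) = psi ((starRingEnd ℂ) v) by rw [psi_conj, psi_conj, h]) rfl
      ((lab4 hu).trans (lab4 hv).symm)
  exact (starRingEnd ℂ).injective h1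

theorem tCnt (hEx : S_Ex) : S_Cnt := by
  refine ⟨fun u1 h1 u3 h3 u5 h5 e3 e5 u hu h => ?_, fun u2 h2 u4 h4 e4 u hu h => ?_⟩
  · have hp : 0 < (psi u).im := by
      rw [h]
      exact h1.2.1
    rcases CntAux.cov_pos hu hp with h6 | h6 | h6
    · exact Or.inl (CntAux.inj1 hEx h6 h1 h)
    · exact Or.inr (Or.inl (CntAux.inj3 hEx h6 h3 (h.trans e3.symm)))
    · exact Or.inr (Or.inr (CntAux.inj5 hEx h6 h5 (h.trans e5.symm)))
  · have hp : (psi u).im < 0 := by
      rw [h]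
      exact h2.2.1
    rcases CntAux.cov_neg hu hp with h6 | h6
    · exact Or.inl (CntAux.inj2 hEx h6 h2 h)
    · exact Or.inr (CntAux.inj4 hEx h6 h4 (h.trans e4.symm))

end LC465
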