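import Pool.Agent.Lib.LC465.Spec
import Pool.Agent.Lib.MP_465591_an.N.C.Spec

/-!
# LC465: the example is not in the closure of `S¹` (own theorem beside S04540)

Every statement `S_X` is proved in `X.lean` as `theorem tX : S_X`, or
`theorem tX (h1 : S_Y) (h2 : S_Z) … : S_X` if the docstring says `uses S_Y, S_Z, …`.  `S_Inv` (injective
holomorphic maps are biholomorphic onto open images) is `Pool.Agent.Lib.MP_465591_an.S_Inv`, `NC.S_Cmain` is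
in `Pool/Agent/Lib/MP_465591_an/N/C/Spec.lean`, `Cn n = EuclideanSpace ℂ (Fin n)`, `Chain` is in
`Pool/Agent/Lib/MP_465591_an/Defs.lean`.
-/

set_option autoImplicit false

open Metric Set Filter Topology

namespace LC465

open Pool.Agent.Lib.MP_465591_an

/-- The data of the example: `F` is the map; `K0` a subset of `F(closedBall 0 s)`, `s < 1`; `γ` parametrizes
an annulus with boundary in `K0`, not contained in `F(ball 0 1)`; `c` is entire, `NN` the field, `hloc` its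
local structure. -/
structure Dat (F : Cn 2 → Cn 2) (s r a b : ℝ) (γ : ℂ → Cn 2) (K0 : Set (Cn 2)) (c NN : Cn 2 → ℂ)
    (c0 : ℂ) (C1 c1 ε : ℝ) : Prop where
  hs : 0 ≤ s
  hs1 : s < 1
  hr : 1 < r
  ha : 0 < a
  hab : a ≤ b
  hC1 : 0 < C1
  hc1 : 0 < c1
  hε : 0 < ε
  hF : Differentiable ℂ F
  hinj : InjOn F (ball 0 r)
  hF0 : F 0 = 0
  hFd : fderiv ℂ F 0 = ContinuousLinearMap.id ℂ (Cn 2)
  hγ : DifferentiableOn ℂ γ {x | x ≠ 0}
  hc : Differentiable ℂ c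
  hKF : K0 ⊆ F '' closedBall 0 s
  hbd : ∀ x : ℂ, ‖x‖ = a ∨ ‖x‖ = b → γ x ∈ K0
  hout : ∃ x : ℂ, a ≤ ‖x‖ ∧ ‖x‖ ≤ b ∧ γ x ∉ F '' ball 0 1
  hAa : ∀ x : ℂ, a ≤ ‖x‖ → ‖x‖ ≤ b → c (γ x) = c0 ∧ (γ x ∉ K0 → NN (γ x) ≠ 0)
  hloc : ∀ z : Cn 2, z ∉ K0 → ∃ v : ℂ → ℂ, ContDiffAt ℝ 1 v (c z) ∧
      (∀ᶠ z' in 𝓝 z, NN z' = v (c z')) ∧ ‖v (c z)‖ ^ 2 ≤ C1 * NC.dvg v (c z) ∧
      (‖c z - c0‖ < ε → NN z = 0 ∨ (c1 ≤ ‖NN z‖ ∧ c1 ≤ NC.dvg v (c z)))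
  h0 : ε ≤ ‖c 0 - c0‖

/-- **Dat** (helper54).  The data exist. -/
def S_Dat : Prop :=
  ∃ (F : Cn 2 → Cn 2) (s r a b : ℝ) (γ : ℂ → Cn 2) (K0 : Set (Cn 2)) (c NN : Cn 2 → ℂ)
    (c0 : ℂ) (C1 c1 ε : ℝ), Dat F s r a b γ K0 c NN c0 C1 c1 ε

/-- **Mx** (60 lines; uses `S_Inv`; compare `DesAux.step` in `Pool/Agent/Lib/MP_465591_an/N/C/Desc.lean`).  Maximum
principle on the annulus.

PROOF.  `g` = inverse of `f` on `ball 0 1` (`S_Inv`), holomorphic on the open set `f '' ball 0 1`; `g ∘ γ` is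
holomorphic on a neighbourhood of the closed annulus, `‖g (γ y)‖ ≤ ρ` on the boundary circles, so everywhere
(`Complex.norm_le_of_forall_mem_frontier_norm_le`); `w = g (γ x)`. -/
def S_Mx : Prop :=
  ∀ (a b ρ : ℝ) (γ : ℂ → Cn 2) (f : Cn 2 → Cn 2), 0 < a → a ≤ b → ρ < 1 →
    DifferentiableOn ℂ γ {x | x ≠ 0} → DifferentiableOn ℂ f (ball 0 1) → InjOn f (ball 0 1) →
    (∀ x : ℂ, ‖x‖ = a ∨ ‖x‖ = b → ∃ w : Cn 2, ‖w‖ ≤ ρ ∧ f w = γ x) →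
    (∀ x : ℂ, a ≤ ‖x‖ → ‖x‖ ≤ b → γ x ∈ f '' ball 0 1) →
    ∀ x : ℂ, a ≤ ‖x‖ → ‖x‖ ≤ b → ∃ w : Cn 2, ‖w‖ ≤ ρ ∧ f w = γ x

/-- **Hur** (60 lines; uses `S_Inv`).  A perturbation of an injective map takes the same value nearby.

PROOF.  `p = F q`.  `V = ball p (m/2)` is convex, so (pre)connected.  `f '' ball q δ` is open (`S_Inv` with
`U = ball 0 1`), `f '' closedBall q δ` is compact, and `V ⊆ f '' ball q δ ∪ (f '' closedBall q δ)ᶜ`: if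
`y = f z ∈ V` with `‖z - q‖ = δ` then `m ≤ ‖F z - F q‖ ≤ ‖F z - f z‖ + ‖f z - p‖ < m/2 + m/2`,
contradiction.  `f q ∈ V ∩ f '' ball q δ` (`‖f q - F q‖ < m/2`).  So `V ⊆ f '' ball q δ`
(`IsPreconnected.subset_left_of_subset_union`), and `p ∈ V`. -/
def S_Hur : Prop :=
  ∀ (F f : Cn 2 → Cn 2) (q : Cn 2) (δ m : ℝ), 0 < δ → 0 < m → closedBall q δ ⊆ ball 0 1 →
    DifferentiableOn ℂ f (ball 0 1) → InjOn f (ball 0 1) →
    (∀ z, ‖z - q‖ ≤ δ → ‖f z - F z‖ < m / 2) → (∀ z, ‖z - q‖ = δ → m ≤ ‖F z - F q‖) →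
    ∃ w, ‖w - q‖ < δ ∧ f w = F q

/-- **Sta** (70 lines; uses `S_Hur`).  Stability of the values.

PROOF.  `δ = s' - s > 0`.  The set of all `(q, z)` with `‖q‖ ≤ s`, `‖z - q‖ = δ` is compact and `‖F z - F q‖ > 0` on it
(`F` is injective on `ball 0 1`, `‖z‖ ≤ s' < 1`), so `‖F z - F q‖ ≥ m > 0` there (if the set is empty take
`m = 1`).  For large `k` `‖f k z - F z‖ < m/2` for `‖z‖ ≤ s'`.  `S_Hur` for `q`, `‖q‖ ≤ s`: `F q = f k w`,
`‖w‖ ≤ ‖q‖ + δ ≤ s'`. -/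
def S_Sta : Prop :=
  ∀ (F : Cn 2 → Cn 2) (s s' : ℝ), Differentiable ℂ F → InjOn F (ball 0 1) → 0 ≤ s → s < s' → s' < 1 →
    ∀ f : ℕ → Cn 2 → Cn 2, (∀ k, DifferentiableOn ℂ (f k) (ball 0 1) ∧ InjOn (f k) (ball 0 1)) →
    TendstoUniformlyOn f F atTop (closedBall 0 s') →
    ∀ᶠ k in atTop, F '' closedBall 0 s ⊆ f k '' closedBall 0 s'

/-- **Clo** (120 lines; uses `NC.S_Cmain`, `S_Mx`, `S_Sta`).  The map is not in the closure of `S¹`.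

PROOF.  `f k = L k 0` on `ball 0 1`, so `f k` is differentiable and injective there (`Chain`, congruence).
`s' = (s + 1)/2`; `f → F` uniformly on `closedBall 0 s'` (locally uniform convergence on the open ball and
compactness).  `S_Sta`: for large `k` `K0 ⊆ F '' closedBall 0 s ⊆ f k '' closedBall 0 s'`.  For these `k`
`NC.S_Cmain` for `n = 2`, the map `f k` and `s'` (instead of `F`, `s`) shows: if the annulus is not contained in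
`f k '' ball 0 1` then `f k` is not the first map of a chain, contradiction; so the annulus is contained in
`f k '' ball 0 1`, and by `S_Mx` (`ρ = s'`) for all `x` in the annulus `γ x = f k w`, `‖w‖ ≤ s'`.  Then for
every `η > 0` there is `w` with `‖w‖ ≤ s'` and `‖γ x - F w‖ < η`; so `γ x` is in the closure of the compact set
`F '' closedBall 0 s'`, so in it, so in `F '' ball 0 1`: contradiction to `hout`. -/
def S_Clo : Prop :=
  ∀ (F : Cn 2 → Cn 2) (s r a b : ℝ) (γ : ℂ → Cn 2) (K0 : Set (Cn 2)) (c NN : Cn 2 → ℂ)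
    (c0 : ℂ) (C1 c1 ε : ℝ), Dat F s r a b γ K0 c NN c0 C1 c1 ε →
    ∀ f : ℕ → Cn 2 → Cn 2, (∀ k, ∃ L : ℝ → Cn 2 → Cn 2, Chain 2 L ∧ EqOn (L 0) (f k) (ball 0 1)) →
      ¬ TendstoLocallyUniformlyOn f F atTop (ball 0 1)

end LC465
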