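import Pool.Agent.Lib.MP_465591_an.Spec

/-!
# LC465 (MP_465591_an, S04540): a univalent map past the closed ball which is not embeddable in a
Loewner chain.  Definitions and elementary facts.  Paper proof: note 4177.
-/

set_option autoImplicit false

open Metric Set Filter Topology

namespace LC465

open Pool.Agent.Lib.MP_465591_an

/-! ## The quintic -/

/-- `ψ(u) = -(3u⁵ - 10u³ + 15u)/8`, `ψ'(u) = -(15/8)(u² - 1)²`, `ψ(-1) = 1`, `ψ(1) = -1` -/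
noncomputable def psi (u : ℂ) : ℂ := -(3 * u ^ 5 - 10 * u ^ 3 + 15 * u) / 8

/-- the divided difference `(ψ(u) - ψ(v))/(u - v)` -/
noncomputable def dd (u v : ℂ) : ℂ :=
  -(3 * (u ^ 4 + u ^ 3 * v + u ^ 2 * v ^ 2 + u * v ^ 3 + v ^ 4) - 10 * (u ^ 2 + u * v + v ^ 2) + 15) / 8

theorem psi_sub (u v : ℂ) : psi u - psi v = (u - v) * dd u v := by
  unfold psi dd; ring

theorem dd_self (u : ℂ) : dd u u = -(15 / 8) * (u ^ 2 - 1) ^ 2 := by
  unfold dd; ring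

theorem dd_comm (u v : ℂ) : dd u v = dd v u := by
  unfold dd; ring

theorem hasDerivAt_psi (u : ℂ) : HasDerivAt psi (-(15 / 8) * (u ^ 2 - 1) ^ 2) u := by
  have h5 : HasDerivAt (fun u : ℂ => u ^ 5) (5 * u ^ 4) u := by simpa using hasDerivAt_pow 5 u
  have h3 : HasDerivAt (fun u : ℂ => u ^ 3) (3 * u ^ 2) u := by simpa using hasDerivAt_pow 3 u
  have h := ((((h5.const_mul 3).sub (h3.const_mul 10)).add
    ((hasDerivAt_id u).const_mul 15)).neg).div_const 8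
  have he : (-(3 * (5 * u ^ 4) - 10 * (3 * u ^ 2) + 15 * 1) / 8 : ℂ)
      = -(15 / 8) * (u ^ 2 - 1) ^ 2 := by ring
  rw [he] at h
  exact h

theorem differentiable_psi : Differentiable ℂ psi := fun u => (hasDerivAt_psi u).differentiableAt

theorem continuous_psi : Continuous psi := differentiable_psi.continuous

theorem psi_conj (u : ℂ) : psi (starRingEnd ℂ u) = starRingEnd ℂ (psi u) := by
  unfold psi
  simp only [map_div₀, map_neg, map_add, map_sub, map_mul, map_pow, map_ofNat]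

theorem psi_neg (u : ℂ) : psi (-u) = -psi u := by
  unfold psi; ring

/-- the mirror symmetry -/
theorem psi_mir (u : ℂ) : psi (-(starRingEnd ℂ u)) = -(starRingEnd ℂ (psi u)) := by
  rw [psi_neg, psi_conj]

theorem psi_re (u : ℂ) : (psi u).re = -(u.re / 8) * (3 * (u.re ^ 2) ^ 2
    - 30 * (u.re ^ 2) * (u.im ^ 2) + 15 * (u.im ^ 2) ^ 2 - 10 * u.re ^ 2 + 30 * u.im ^ 2 + 15) := by
  obtain ⟨x, y⟩ := u
  have h5 : ((⟨x, y⟩ : ℂ) ^ 5).re = x ^ 5 - 10 * x ^ 3 * y ^ 2 + 5 * x * y ^ 4 := by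
    simp [pow_succ, Complex.mul_re, Complex.mul_im]; ring
  have h3 : ((⟨x, y⟩ : ℂ) ^ 3).re = x ^ 3 - 3 * x * y ^ 2 := by
    simp [pow_succ, Complex.mul_re, Complex.mul_im]; ring
  have e : psi ⟨x, y⟩ = ((-(3 / 8) : ℝ) : ℂ) * (⟨x, y⟩ : ℂ) ^ 5 + ((10 / 8 : ℝ) : ℂ) * (⟨x, y⟩ : ℂ) ^ 3
      + ((-(15 / 8) : ℝ) : ℂ) * (⟨x, y⟩ : ℂ) := by
    unfold psi; push_cast; ring
  rw [e, Complex.add_re, Complex.add_re, Complex.re_ofReal_mul, Complex.re_ofReal_mul,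
    Complex.re_ofReal_mul, h5, h3]
  simp only
  ring

theorem psi_im (u : ℂ) : (psi u).im = -(15 / 8) * u.im * ((u.re ^ 2 - 1 - u.im ^ 2) ^ 2
    - (4 / 3) * u.im ^ 2 - (4 / 5) * (u.im ^ 2) ^ 2) := by
  obtain ⟨x, y⟩ := u
  have h5 : ((⟨x, y⟩ : ℂ) ^ 5).im = 5 * x ^ 4 * y - 10 * x ^ 2 * y ^ 3 + y ^ 5 := by
    simp [pow_succ, Complex.mul_re, Complex.mul_im]; ring
  have h3 : ((⟨x, y⟩ : ℂ) ^ 3).im = 3 * x ^ 2 * y - y ^ 3 := by
    simp [pow_succ, Complex.mul_re, Complex.mul_im]; ring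
  have e : psi ⟨x, y⟩ = ((-(3 / 8) : ℝ) : ℂ) * (⟨x, y⟩ : ℂ) ^ 5 + ((10 / 8 : ℝ) : ℂ) * (⟨x, y⟩ : ℂ) ^ 3
      + ((-(15 / 8) : ℝ) : ℂ) * (⟨x, y⟩ : ℂ) := by
    unfold psi; push_cast; ring
  rw [e, Complex.add_im, Complex.add_im, Complex.im_ofReal_mul, Complex.im_ofReal_mul,
    Complex.im_ofReal_mul, h5, h3]
  simp only
  ring

/-- the derivative of `ψ` does not vanish in the lower half plane -/
theorem dpsi_ne {u : ℂ} (hu : u.im < 0) : -(15 / 8) * (u ^ 2 - 1) ^ 2 ≠ 0 := by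
  intro h
  have h1 : (u ^ 2 - 1) ^ 2 = 0 := by
    rcases mul_eq_zero.1 h with h | h
    · norm_num at h
    · exact h
  have h2 : (u - 1) * (u + 1) = 0 := by
    have := pow_eq_zero_iff (two_ne_zero) |>.1 h1
    linear_combination this
  rcases mul_eq_zero.1 h2 with h3 | h3
  · rw [sub_eq_zero.1 h3] at hu
    simp at hu
  · rw [eq_neg_of_add_eq_zero_left h3] at hu
    simp at hu

/-! ## The five cells of the lower half plane -/

/-- cell 1 (over the upper half plane) -/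
def C1 : Set ℂ := {u | u.im < 0 ∧ 0 < (psi u).im ∧ 1 + u.im ^ 2 < u.re ^ 2 ∧ u.re < 0}
/-- cell 2 (over the lower half plane) -/
def C2 : Set ℂ := {u | u.im < 0 ∧ (psi u).im < 0 ∧ u.re < 0}
/-- cell 3 (over the upper half plane) -/
def C3 : Set ℂ := {u | u.im < 0 ∧ 0 < (psi u).im ∧ u.re ^ 2 < 1 + u.im ^ 2}
/-- cell 4 (over the lower half plane) -/
def C4 : Set ℂ := {u | u.im < 0 ∧ (psi u).im < 0 ∧ 0 < u.re}
/-- cell 5 (over the upper half plane) -/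
def C5 : Set ℂ := {u | u.im < 0 ∧ 0 < (psi u).im ∧ 1 + u.im ^ 2 < u.re ^ 2 ∧ 0 < u.re}

theorem im_neg_of_eq {u : ℂ} (hu : u.im < 0) (h : u.re ^ 2 = 1 + u.im ^ 2) : (psi u).im < 0 := by
  rw [psi_im, h]
  have h1 : 0 < u.im ^ 2 := by
    have := mul_pos_of_neg_of_neg hu hu
    nlinarith
  have h2 : (1 + u.im ^ 2 - 1 - u.im ^ 2) ^ 2 = 0 := by ring
  rw [h2]
  nlinarith [mul_pos (neg_pos.2 hu) h1, mul_pos (mul_pos (neg_pos.2 hu) h1) h1]

theorem im_pos_of_re {u : ℂ} (hu : u.im < 0) (h : u.re = 0) : 0 < (psi u).im := by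
  rw [psi_im, h]
  have h1 : 0 < u.im ^ 2 := by
    have := mul_pos_of_neg_of_neg hu hu
    nlinarith
  have h2 : (0 ^ 2 - 1 - u.im ^ 2) ^ 2 - (4 / 3) * u.im ^ 2 - (4 / 5) * (u.im ^ 2) ^ 2
      = 1 + (2 / 3) * u.im ^ 2 + (1 / 5) * (u.im ^ 2) ^ 2 := by ring
  rw [h2]
  have h3 : 0 < 1 + (2 / 3) * u.im ^ 2 + (1 / 5) * (u.im ^ 2) ^ 2 := by positivity
  nlinarith [mul_pos (neg_pos.2 hu) h3]

/-- the cells cover the part of the half plane over non real values -/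
theorem cells_cover {u : ℂ} (hu : u.im < 0) (h : (psi u).im ≠ 0) :
    u ∈ C1 ∨ u ∈ C2 ∨ u ∈ C3 ∨ u ∈ C4 ∨ u ∈ C5 := by
  rcases lt_trichotomy (psi u).im 0 with h1 | h1 | h1
  · rcases lt_trichotomy u.re 0 with h2 | h2 | h2
    · exact Or.inr (Or.inl ⟨hu, h1, h2⟩)
    · exact absurd (im_pos_of_re hu h2) (not_lt.2 h1.le)
    · exact Or.inr (Or.inr (Or.inr (Or.inl ⟨hu, h1, h2⟩)))
  · exact absurd h1 h
  · rcases lt_trichotomy (u.re ^ 2) (1 + u.im ^ 2) with h2 | h2 | h2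
    · exact Or.inr (Or.inr (Or.inl ⟨hu, h1, h2⟩))
    · exact absurd (im_neg_of_eq hu h2) (not_lt.2 h1.le)
    · rcases lt_trichotomy u.re 0 with h3 | h3 | h3
      · exact Or.inl ⟨hu, h1, h2, h3⟩
      · rw [h3] at h2
        nlinarith [sq_nonneg u.im]
      · exact Or.inr (Or.inr (Or.inr (Or.inr ⟨hu, h1, h2, h3⟩)))

/-! ## Bump functions and fields -/

/-- the bump `β(t) = 30 max(0, 1/4 - t²)²` -/
noncomputable def bet (t : ℝ) : ℝ := 30 * (max 0 (1 / 4 - t ^ 2)) ^ 2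

/-- clamping to `[-1/2, 1/2]` -/
noncomputable def clp (t : ℝ) : ℝ := max (-(1 / 2)) (min (1 / 2) t)

/-- the primitive of `β`: `0` for `t ≤ -1/2`, `1` for `t ≥ 1/2` -/
noncomputable def Bt (t : ℝ) : ℝ := 1 / 2 + 30 * (clp t / 16 - clp t ^ 3 / 6 + clp t ^ 5 / 5)

/-- amplitudes -/
noncomputable def Vm (y : ℝ) : ℝ := 1 - y / 60
/-- amplitudes -/
noncomputable def Vr (y : ℝ) : ℝ := 13 / 10 + y / 60
/-- amplitudes -/
noncomputable def Hb (x : ℝ) : ℝ := 11 / 10 + x / 60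
/-- amplitudes -/
noncomputable def Ht (x : ℝ) : ℝ := 16 / 10 - x / 60

/-- the mirror image `(X, Y)(x, y) ↦ (-X(-x, y), Y(-x, y))` of a field -/
noncomputable def mir (n : ℂ → ℂ) (c : ℂ) : ℂ := -(starRingEnd ℂ (n (-(starRingEnd ℂ c))))

/-- the right loop, lower part -/
noncomputable def nR (c : ℂ) : ℂ :=
  ⟨Hb c.re * bet (c.im + 5 / 2) * Bt c.re * (1 - Bt (c.re - 5 / 2)),
    Bt (c.im + 5 / 2) * (Vr c.im * bet (c.re - 5 / 2) - Vm c.im * bet c.re)⟩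

/-- the field over the lower half plane (between the sheets 2 and 4) -/
noncomputable def nL (c : ℂ) : ℂ := nR c + mir nR c

/-- the field over the upper half plane between the sheets 3 and 5 -/
noncomputable def nB (c : ℂ) : ℂ :=
  ⟨-(Ht c.re * bet (c.im - 5 / 2) * Bt c.re * (1 - Bt (c.re - 5 / 2))),
    (1 - Bt (c.im - 5 / 2)) * (Vr c.im * bet (c.re - 5 / 2) - 2 * Vm c.im * bet c.re)⟩

/-- the field over the upper half plane between the sheets 1 and 3 -/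
noncomputable def nA (c : ℂ) : ℂ := mir nB c

/-- divergence of a field `ℂ → ℂ` at `c` -/
noncomputable def dv (n : ℂ → ℂ) (c : ℂ) : ℝ :=
  ((fderiv ℝ n c) 1).re + ((fderiv ℝ n c) Complex.I).im

/-- The jump of the field across the sheet at `u` (a function on the `u`-plane, `0` off the lower half
plane). -/
noncomputable def Nf (u : ℂ) : ℂ :=
  if u.im < 0 then
    (if (psi u).im ≤ 0 then (if u.re < 0 then nL (psi u) else -nL (psi u))
      else if u.re ^ 2 < 1 + u.im ^ 2 then nB (psi u) - nA (psi u)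
      else if u.re < 0 then nA (psi u) else -nB (psi u))
  else 0

theorem Nf_C1 {u : ℂ} (h : u ∈ C1) : Nf u = nA (psi u) := by
  obtain ⟨h1, h2, h3, h4⟩ := h
  simp [Nf, h1, not_le.2 h2, not_lt.2 h3.le, h4]

theorem Nf_C2 {u : ℂ} (h : u ∈ C2) : Nf u = nL (psi u) := by
  obtain ⟨h1, h2, h3⟩ := h
  simp [Nf, h1, h2.le, h3]

theorem Nf_C3 {u : ℂ} (h : u ∈ C3) : Nf u = nB (psi u) - nA (psi u) := by
  obtain ⟨h1, h2, h3⟩ := h
  simp [Nf, h1, not_le.2 h2, h3]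

theorem Nf_C4 {u : ℂ} (h : u ∈ C4) : Nf u = -nL (psi u) := by
  obtain ⟨h1, h2, h3⟩ := h
  simp [Nf, h1, h2.le, not_lt.2 h3.le]

theorem Nf_C5 {u : ℂ} (h : u ∈ C5) : Nf u = -nB (psi u) := by
  obtain ⟨h1, h2, h3, h4⟩ := h
  simp [Nf, h1, not_le.2 h2, not_lt.2 h3.le, not_lt.2 h4.le]

/-- the closure of the set where `Nf ≠ 0` -/
def SN : Set ℂ := closure {u | Nf u ≠ 0}

/-- The sum of the jumps over the roots `u` of `ψ(u) = c` of height `a + A Re u < X` (for each `c` there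
are at most five roots; `Nf u = 0` if `Im u ≥ 0`). -/
noncomputable def NN (a A : ℝ) (c : ℂ) (X : ℝ) : ℂ :=
  ∑ᶠ (u : ℂ) (_ : psi u = c ∧ a + A * u.re < X), Nf u

/-- the base point `c₀ = -i/2` -/
noncomputable def c00 : ℂ := -(Complex.I / 2)

/-! ## The example -/

/-- the centre `u₀ = -iR` -/
noncomputable def uz (R : ℝ) : ℂ := -(Complex.I * R)

/-- `F(x,y) = (x e^(Aκxy), y (dd(u₀+κxy, u₀)/dd(u₀,u₀)) e^(-Aκxy))` -/
noncomputable def EF (A κ R : ℝ) (z : Cn 2) : Cn 2 :=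
  WithLp.toLp 2 ![z 0 * Complex.exp (A * κ * (z 0 * z 1)),
    z 1 * (dd (uz R + κ * (z 0 * z 1)) (uz R) / dd (uz R) (uz R)) *
      Complex.exp (-(A * κ * (z 0 * z 1)))]

/-- `c(z) = ψ(u₀) + κ ψ'(u₀) z₀ z₁` -/
noncomputable def cc (κ R : ℝ) (z : Cn 2) : ℂ :=
  psi (uz R) + κ * dd (uz R) (uz R) * (z 0 * z 1)

/-- the parametrization `x ↦ (x, t/x)` of a conic -/
noncomputable def aa (t x : ℂ) : Cn 2 := WithLp.toLp 2 ![x, t / x]

end LC465
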