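import Pool.Agent.Lib.LC465.Spec

/-!
# LC465/Dv: smoothness and divergences of the fields
-/

set_option autoImplicit false

open Metric Set Filter Topology

namespace LC465

namespace DvAux

theorem mk_eq (a b : ℝ) : (⟨a, b⟩ : ℂ) = (a : ℂ) + (b : ℂ) * Complex.I := by
  apply Complex.ext <;> simp

theorem contDiff_mk {f g : ℂ → ℝ} (hf : ContDiff ℝ 1 f) (hg : ContDiff ℝ 1 g) :
    ContDiff ℝ 1 (fun c => (⟨f c, g c⟩ : ℂ)) := by
  have h1 : ContDiff ℝ 1 (fun c => (f c : ℂ)) := Complex.ofRealCLM.contDiff.comp hf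
  have h2 : ContDiff ℝ 1 (fun c => (g c : ℂ)) := Complex.ofRealCLM.contDiff.comp hg
  have h3 := h1.add (h2.mul (contDiff_const (c := Complex.I)))
  have he : (fun c => (⟨f c, g c⟩ : ℂ)) = fun c => (f c : ℂ) + (g c : ℂ) * Complex.I :=
    funext fun c => mk_eq _ _
  rw [he]
  exact h3

theorem cd_re : ContDiff ℝ 1 (fun c : ℂ => c.re) := Complex.reCLM.contDiff

theorem cd_im : ContDiff ℝ 1 (fun c : ℂ => c.im) := Complex.imCLM.contDiff

theorem dv_eq {n : ℂ → ℂ} {c : ℂ} (hn : DifferentiableAt ℝ n c) {a b : ℝ}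
    (ha : HasDerivAt (fun x : ℝ => (n ⟨x, c.im⟩).re) a c.re)
    (hb : HasDerivAt (fun y : ℝ => (n ⟨c.re, y⟩).im) b c.im) : dv n c = a + b := by
  have h := hn.hasFDerivAt
  have h1 : HasDerivAt (fun x : ℝ => (⟨x, c.im⟩ : ℂ)) 1 c.re := by
    have h2 : HasDerivAt (fun x : ℝ => (x : ℂ) + (c.im : ℂ) * Complex.I) 1 c.re := by
      have := (Complex.ofRealCLM.hasDerivAt (x := c.re)).add_const ((c.im : ℂ) * Complex.I)
      simpa using this
    have he : (fun x : ℝ => (⟨x, c.im⟩ : ℂ)) = fun x : ℝ => (x : ℂ) + (c.im : ℂ) * Complex.I :=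
      funext fun x => mk_eq _ _
    rw [he]
    exact h2
  have h3 : HasDerivAt (fun y : ℝ => (⟨c.re, y⟩ : ℂ)) Complex.I c.im := by
    have h2 : HasDerivAt (fun y : ℝ => (c.re : ℂ) + (y : ℂ) * Complex.I) Complex.I c.im := by
      have := ((Complex.ofRealCLM.hasDerivAt (x := c.im)).mul_const Complex.I).const_add (c.re : ℂ)
      simpa using this
    have he : (fun y : ℝ => (⟨c.re, y⟩ : ℂ)) = fun y : ℝ => (c.re : ℂ) + (y : ℂ) * Complex.I :=
      funext fun x => mk_eq _ _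
    rw [he]
    exact h2
  have h4 : HasDerivAt (fun x : ℝ => n ⟨x, c.im⟩) (fderiv ℝ n c 1) c.re :=
    HasFDerivAt.comp_hasDerivAt (f := fun x : ℝ => (⟨x, c.im⟩ : ℂ)) c.re h h1
  have h5 : HasDerivAt (fun y : ℝ => n ⟨c.re, y⟩) (fderiv ℝ n c Complex.I) c.im :=
    HasFDerivAt.comp_hasDerivAt (f := fun y : ℝ => (⟨c.re, y⟩ : ℂ)) c.im h h3
  have h6 : HasDerivAt (fun x : ℝ => (n ⟨x, c.im⟩).re) (fderiv ℝ n c 1).re c.re :=
    HasFDerivAt.comp_hasDerivAt c.re (Complex.reCLM.hasFDerivAt) h4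
  have h7 : HasDerivAt (fun y : ℝ => (n ⟨c.re, y⟩).im) (fderiv ℝ n c Complex.I).im c.im :=
    HasFDerivAt.comp_hasDerivAt c.im (Complex.imCLM.hasFDerivAt) h5
  unfold dv
  rw [h6.unique ha, h7.unique hb]

theorem hd_Vm (y : ℝ) : HasDerivAt Vm (-(1 / 60)) y := by
  have h : HasDerivAt (fun y : ℝ => 1 - y / 60) (-(1 / 60)) y :=
    ((hasDerivAt_id y).div_const 60).const_sub 1
  exact h

theorem hd_Vr (y : ℝ) : HasDerivAt Vr (1 / 60) y := by
  have h : HasDerivAt (fun y : ℝ => 13 / 10 + y / 60) ((1 / 60)) y :=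
    ((hasDerivAt_id y).div_const 60).const_add (13 / 10)
  exact h

theorem hd_Hb (y : ℝ) : HasDerivAt Hb (1 / 60) y := by
  have h : HasDerivAt (fun y : ℝ => 11 / 10 + y / 60) ((1 / 60)) y :=
    ((hasDerivAt_id y).div_const 60).const_add (11 / 10)
  exact h

theorem hd_Ht (y : ℝ) : HasDerivAt Ht (-(1 / 60)) y := by
  have h : HasDerivAt (fun y : ℝ => 16 / 10 - y / 60) (-(1 / 60)) y :=
    ((hasDerivAt_id y).div_const 60).const_sub (16 / 10)
  exact h

theorem cd_Vm : ContDiff ℝ 1 Vm := by unfold Vm; fun_prop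
theorem cd_Vr : ContDiff ℝ 1 Vr := by unfold Vr; fun_prop
theorem cd_Hb : ContDiff ℝ 1 Hb := by unfold Hb; fun_prop
theorem cd_Ht : ContDiff ℝ 1 Ht := by unfold Ht; fun_prop

end DvAux

open DvAux in
theorem tDv (hB : S_Bmp) : S_Dv := by
  obtain ⟨cb, cB, hB, -⟩ := hB
  have cbi : ∀ t : ℝ, ContDiff ℝ 1 (fun c : ℂ => bet (c.im + t)) := fun t =>
    cb.comp (cd_im.add contDiff_const)
  have cbr : ∀ t : ℝ, ContDiff ℝ 1 (fun c : ℂ => bet (c.re + t)) := fun t =>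
    cb.comp (cd_re.add contDiff_const)
  have cBi : ∀ t : ℝ, ContDiff ℝ 1 (fun c : ℂ => Bt (c.im + t)) := fun t =>
    cB.comp (cd_im.add contDiff_const)
  have cBr : ∀ t : ℝ, ContDiff ℝ 1 (fun c : ℂ => Bt (c.re + t)) := fun t =>
    cB.comp (cd_re.add contDiff_const)
  have cHb : ContDiff ℝ 1 (fun c : ℂ => Hb c.re) := cd_Hb.comp cd_re
  have cHt : ContDiff ℝ 1 (fun c : ℂ => Ht c.re) := cd_Ht.comp cd_re
  have cVm : ContDiff ℝ 1 (fun c : ℂ => Vm c.im) := cd_Vm.comp cd_im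
  have cVr : ContDiff ℝ 1 (fun c : ℂ => Vr c.im) := cd_Vr.comp cd_im
  have cbr0 : ContDiff ℝ 1 (fun c : ℂ => bet c.re) := cb.comp cd_re
  have cBr0 : ContDiff ℝ 1 (fun c : ℂ => Bt c.re) := cB.comp cd_re
  have cnR : ContDiff ℝ 1 nR := by
    refine contDiff_mk ?_ ?_
    · exact ((cHb.mul (cbi _)).mul cBr0).mul (contDiff_const.sub (cBr (-(5 / 2))))
    · exact (cBi _).mul ((cVr.mul (cbr (-(5 / 2)))).sub (cVm.mul cbr0))
  have cnB : ContDiff ℝ 1 nB := by
    refine contDiff_mk ?_ ?_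
    · exact (((cHt.mul (cbi (-(5 / 2)))).mul cBr0).mul (contDiff_const.sub (cBr (-(5 / 2))))).neg
    · exact (contDiff_const.sub (cBi (-(5 / 2)))).mul ((cVr.mul (cbr (-(5 / 2)))).sub
        ((contDiff_const.mul cVm).mul cbr0))
  refine ⟨cnR, cnB, ?_, ?_, ?_⟩
  · intro n hn
    have hcj : ContDiff ℝ 1 (fun c : ℂ => -(starRingEnd ℂ c)) :=
      (Complex.conjCLE.contDiff (n := 1)).neg
    refine ⟨hcj.comp (hn.comp hcj), fun c => ?_⟩
    have hc : HasFDerivAt (fun c : ℂ => -(starRingEnd ℂ c)) (-(Complex.conjCLE : ℂ →L[ℝ] ℂ)) c :=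
      (Complex.conjCLE.hasFDerivAt (x := c)).neg
    have hc2 : HasFDerivAt (fun c : ℂ => -(starRingEnd ℂ c)) (-(Complex.conjCLE : ℂ →L[ℝ] ℂ))
        (n (-(starRingEnd ℂ c))) :=
      (Complex.conjCLE.hasFDerivAt (x := n (-(starRingEnd ℂ c)))).neg
    have hd : DifferentiableAt ℝ n (-(starRingEnd ℂ c)) := (hn.differentiable (by norm_num)) _
    have h1 : HasFDerivAt (fun c => n (-(starRingEnd ℂ c)))
        ((fderiv ℝ n (-(starRingEnd ℂ c))).comp (-(Complex.conjCLE : ℂ →L[ℝ] ℂ))) c :=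
      HasFDerivAt.comp c hd.hasFDerivAt hc
    have h2 : HasFDerivAt (mir n) ((-(Complex.conjCLE : ℂ →L[ℝ] ℂ)).comp
        ((fderiv ℝ n (-(starRingEnd ℂ c))).comp (-(Complex.conjCLE : ℂ →L[ℝ] ℂ)))) c :=
      HasFDerivAt.comp (g := fun c : ℂ => -(starRingEnd ℂ c)) c hc2 h1
    unfold dv
    rw [h2.fderiv]
    simp
  · intro c
    rw [dv_eq (cnR.differentiable (by norm_num) c) (a := bet (c.im + 5 / 2) * Bt c.re * (1 - Bt (c.re - 5 / 2)) / 60
      + Hb c.re * bet (c.im + 5 / 2) * (bet c.re * (1 - Bt (c.re - 5 / 2)) - Bt c.re * bet (c.re - 5 / 2)))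
      (b := bet (c.im + 5 / 2) * (Vr c.im * bet (c.re - 5 / 2) - Vm c.im * bet c.re)
      + Bt (c.im + 5 / 2) * (bet (c.re - 5 / 2) + bet c.re) / 60)]
    · ring
    · have h := ((((hd_Hb c.re).mul_const (bet (c.im + 5 / 2))).mul (hB c.re)).mul
        ((HasDerivAt.comp_sub_const c.re (5 / 2) (hB (c.re - 5 / 2))).const_sub 1))
      refine HasDerivAt.congr_deriv h ?_
      simp only [Pi.mul_apply, Pi.sub_apply]
      ring
    · have h := ((HasDerivAt.comp_add_const c.im (5 / 2) (hB (c.im + 5 / 2))).mul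
        (((hd_Vr c.im).mul_const (bet (c.re - 5 / 2))).sub ((hd_Vm c.im).mul_const (bet c.re))))
      refine HasDerivAt.congr_deriv h ?_
      simp only [Pi.mul_apply, Pi.sub_apply]
      ring
  · intro c
    rw [dv_eq (cnB.differentiable (by norm_num) c) (a := bet (c.im - 5 / 2) * Bt c.re * (1 - Bt (c.re - 5 / 2)) / 60
      - Ht c.re * bet (c.im - 5 / 2) * (bet c.re * (1 - Bt (c.re - 5 / 2)) - Bt c.re * bet (c.re - 5 / 2)))
      (b := - bet (c.im - 5 / 2) * (Vr c.im * bet (c.re - 5 / 2) - 2 * Vm c.im * bet c.re)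
      + (1 - Bt (c.im - 5 / 2)) * (bet (c.re - 5 / 2) + 2 * bet c.re) / 60)]
    · ring
    · have h := ((((hd_Ht c.re).mul_const (bet (c.im - 5 / 2))).mul (hB c.re)).mul
        ((HasDerivAt.comp_sub_const c.re (5 / 2) (hB (c.re - 5 / 2))).const_sub 1)).neg
      refine HasDerivAt.congr_deriv h ?_
      simp only [Pi.mul_apply, Pi.sub_apply]
      ring
    · have h := (((HasDerivAt.comp_sub_const c.im (5 / 2) (hB (c.im - 5 / 2))).const_sub 1).mul
        (((hd_Vr c.im).mul_const (bet (c.re - 5 / 2))).sub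
          (((hd_Vm c.im).const_mul 2).mul_const (bet c.re))))
      refine HasDerivAt.congr_deriv h ?_
      simp only [Pi.mul_apply, Pi.sub_apply]
      ring

end LC465
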