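import Pool.Agent.Lib.LC465.Spec

/-!
# LC465, module Fa: the annulus is not in the image of the ball
-/

set_option autoImplicit false

open Metric Set Filter Topology

namespace LC465

open Pool.Agent.Lib.MP_465591_an

private lemma Fa_uz_im (R : ℝ) : (uz R).im = -R := by simp [uz]

private lemma Fa_uz_re (R : ℝ) : (uz R).re = 0 := by simp [uz]

private lemma Fa_c00_im : c00.im < 0 := by
  have h : c00.im = -(1 / 2) := by
    unfold c00
    simp
  rw [h]
  norm_num

private lemma Fa_norm (w : Cn 2) : ‖w‖ ^ 2 = ‖w 0‖ ^ 2 + ‖w 1‖ ^ 2 := by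
  rw [EuclideanSpace.norm_sq_eq, Fin.sum_univ_two]

private lemma Fa_cc {κ R : ℝ} (hκ : (κ : ℂ) ≠ 0) (hD : dd (uz R) (uz R) ≠ 0) {x : ℂ}
    (hx : x ≠ 0) :
    cc κ R (aa ((c00 - psi (uz R)) / (κ * dd (uz R) (uz R))) x) = c00 := by
  change psi (uz R) + κ * dd (uz R) (uz R) *
    (x * ((c00 - psi (uz R)) / (κ * dd (uz R) (uz R)) / x)) = c00
  field_simp
  ring

theorem tFa : S_Fd → S_Fa := by
  intro hFd κ R s u2 u4 hR hκ hκR hs hs1 hR1 h2 h4 h24 h4i huniq
  have hR' : (uz R).im < 0 := by rw [Fa_uz_im]; linarith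
  have hκ' : (κ : ℂ) ≠ 0 := by exact_mod_cast hκ.ne'
  have hD : dd (uz R) (uz R) ≠ 0 := by
    rw [dd_self]
    exact dpsi_ne hR'
  have hne : u4 ≠ uz R := by
    intro h
    have h1 := im_pos_of_re hR' (Fa_uz_re R)
    rw [← h, h4] at h1
    exact absurd h1 (not_lt.2 Fa_c00_im.le)
  have hn : 0 < ‖u4 - uz R‖ := norm_pos_iff.2 (sub_ne_zero.2 hne)
  obtain ⟨d, hd⟩ : ∃ d : ℝ, d = u4.re - u2.re := ⟨_, rfl⟩
  have hd0 : 0 < d := by rw [hd]; linarith
  have hs2 : 0 < Real.sqrt 2 := Real.sqrt_pos.2 (by norm_num)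
  have hs21 : 1 ≤ Real.sqrt 2 := by
    rw [Real.one_le_sqrt]
    norm_num
  have hss : 0 < s / Real.sqrt 2 := div_pos hs hs2
  have hl : Real.log (s / Real.sqrt 2) ≤ 0 := by
    refine Real.log_nonpos hss.le ?_
    rw [div_le_one hs2]
    linarith
  refine ⟨max 1 (max (-Real.log (s / Real.sqrt 2) / d) (Real.log (κ / ‖u4 - uz R‖) / d)),
    lt_of_lt_of_le one_pos (le_max_left _ _), ?_⟩
  intro A hA
  have hA1 : -Real.log (s / Real.sqrt 2) ≤ A * d := by
    rw [← div_le_iff₀ hd0]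
    exact le_trans (le_trans (le_max_left _ _) (le_max_right _ _)) hA
  have hA2 : Real.log (κ / ‖u4 - uz R‖) ≤ A * d := by
    rw [← div_le_iff₀ hd0]
    exact le_trans (le_trans (le_max_right _ _) (le_max_right _ _)) hA
  have hx0 : (Complex.exp (A * u2.re) : ℂ) ≠ 0 := Complex.exp_ne_zero _
  have hxn : ‖Complex.exp (A * u2.re)‖ = Real.exp (A * u2.re) := by
    rw [Complex.norm_exp]
    simp
  refine ⟨Complex.exp (A * u2.re), ?_, ?_, ?_⟩
  · rw [hxn]
    exact Real.exp_le_exp.2 (by linarith)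
  · rw [hxn]
    refine Real.exp_le_exp.2 ?_
    rw [hd] at hA1
    linarith
  · rintro ⟨w, hw, he⟩
    have hw1 : ‖w‖ < 1 := mem_ball_zero_iff.1 hw
    have hwn := Fa_norm w
    have hw2 : ‖w‖ ^ 2 < 1 := by
      have := norm_nonneg w
      nlinarith
    have hc := (hFd A κ R hR).2.2.2 w
    rw [he, Fa_cc hκ' hD hx0] at hc
    have hre : (uz R + κ * (w 0 * w 1)).re = κ * (w 0 * w 1).re := by
      rw [Complex.add_re, Fa_uz_re, Complex.re_ofReal_mul, zero_add]
    have him : (uz R + κ * (w 0 * w 1)).im < 0 := by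
      rw [Complex.add_im, Fa_uz_im, Complex.im_ofReal_mul]
      have h5 : (w 0 * w 1).im ≤ ‖w 0 * w 1‖ := (le_abs_self _).trans (Complex.abs_im_le_norm _)
      rw [norm_mul] at h5
      have h6 : (w 0 * w 1).im < 1 / 2 := by nlinarith [sq_nonneg (‖w 0‖ - ‖w 1‖)]
      nlinarith
    have h0 : w 0 * Complex.exp (A * κ * (w 0 * w 1)) = Complex.exp (A * u2.re) :=
      congrArg (fun v : Cn 2 => v 0) he
    have h0n := congrArg norm h0
    rw [norm_mul, hxn, Complex.norm_exp] at h0n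
    have h7 : (A * κ * (w 0 * w 1) : ℂ).re = A * (uz R + κ * (w 0 * w 1)).re := by
      rw [hre, mul_assoc, Complex.re_ofReal_mul, Complex.re_ofReal_mul]
    rw [h7] at h0n
    have hw0 : ‖w 0‖ < 1 := by nlinarith [norm_nonneg (w 0), norm_nonneg (w 1)]
    have hw1' : ‖w 1‖ < 1 := by nlinarith [norm_nonneg (w 0), norm_nonneg (w 1)]
    rcases huniq _ him hc.symm with h | h
    · rw [h] at h0n
      have h8 : 0 < Real.exp (A * u2.re) := Real.exp_pos _
      have h9 : ‖w 0‖ = 1 := by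
        have : ‖w 0‖ * Real.exp (A * u2.re) = 1 * Real.exp (A * u2.re) := by rw [h0n, one_mul]
        exact mul_right_cancel₀ h8.ne' this
      linarith
    · rw [h] at h0n
      have h8 : 0 < Real.exp (A * u4.re) := Real.exp_pos _
      have h9 : ‖w 0‖ = Real.exp (-(A * d)) := by
        have : ‖w 0‖ * Real.exp (A * u4.re) = Real.exp (-(A * d)) * Real.exp (A * u4.re) := by
          rw [h0n, ← Real.exp_add, hd]
          congr 1
          ring
        exact mul_right_cancel₀ h8.ne' this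
      have h10 : ‖u4 - uz R‖ = κ * (‖w 0‖ * ‖w 1‖) := by
        rw [← h, add_sub_cancel_left, norm_mul, norm_mul, Complex.norm_real, Real.norm_eq_abs,
          abs_of_pos hκ]
      have h11 : Real.exp (-(A * d)) ≤ ‖u4 - uz R‖ / κ := by
        have h12 : Real.exp (-(A * d)) ≤ Real.exp (-(Real.log (κ / ‖u4 - uz R‖))) :=
          Real.exp_le_exp.2 (by linarith)
        rwa [Real.exp_neg (Real.log _), Real.exp_log (div_pos hκ hn), inv_div] at h12
      rw [← h9, h10, le_div_iff₀ hκ] at h11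
      have h13 : 0 < ‖w 0‖ := by rw [h9]; exact Real.exp_pos _
      nlinarith [mul_pos hκ h13, mul_pos (mul_pos hκ h13) (sub_pos.2 hw1')]

end LC465
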