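import Pool.Agent.Lib.LC465.Spec

/-!
# LC465, module Fd: `EF` is entire and normalized
-/

set_option autoImplicit false

open Metric Set Filter Topology

namespace LC465

open Pool.Agent.Lib.MP_465591_an

namespace FdAux

theorem hasF_coord (i : Fin 2) (x : Cn 2) :
    HasFDerivAt (fun z : Cn 2 => z i) (EuclideanSpace.proj i : Cn 2 →L[ℂ] ℂ) x :=
  (EuclideanSpace.proj i : Cn 2 →L[ℂ] ℂ).hasFDerivAt

theorem diff_coord (i : Fin 2) : Differentiable ℂ (fun z : Cn 2 => z i) :=
  fun x => (hasF_coord i x).differentiableAt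

theorem diff_pr : Differentiable ℂ (fun z : Cn 2 => z 0 * z 1) :=
  (diff_coord 0).mul (diff_coord 1)

theorem hasF_prod (i : Fin 2) {u : Cn 2 → ℂ} (hu : Differentiable ℂ u) (h1 : u 0 = 1) :
    HasFDerivAt (fun z : Cn 2 => z i * u z) (EuclideanSpace.proj i : Cn 2 →L[ℂ] ℂ) 0 := by
  have h := (hasF_coord i (0 : Cn 2)).mul (hu 0).hasFDerivAt
  have h0 : (0 : Cn 2) i = 0 := rfl
  refine h.congr_fderiv ?_
  ext v
  simp [h1]

theorem dd_uz_ne (R : ℝ) : dd (uz R) (uz R) ≠ 0 := by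
  rw [dd_self]
  have h1 : (uz R) ^ 2 - 1 = ((-(R ^ 2 + 1) : ℝ) : ℂ) := by
    unfold uz
    push_cast
    ring_nf
    rw [Complex.I_sq]
    ring
  rw [h1]
  have h2 : (-(R ^ 2 + 1) : ℝ) ≠ 0 := by
    have := sq_nonneg R
    intro h
    linarith
  have h3 : ((-(R ^ 2 + 1) : ℝ) : ℂ) ≠ 0 := Complex.ofReal_ne_zero.2 h2
  have h4 : (-(15 / 8) : ℂ) ≠ 0 := by norm_num
  exact mul_ne_zero h4 (pow_ne_zero 2 h3)

end FdAux

open FdAux in
theorem tFd : S_Fd := by
  intro A κ R _
  have hd := dd_uz_ne R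
  have hz : ∀ i : Fin 2, (0 : Cn 2) i = 0 := fun _ => rfl
  -- the two factors
  have hf0 : Differentiable ℂ (fun z : Cn 2 => Complex.exp (A * κ * (z 0 * z 1))) :=
    (diff_pr.const_mul _).cexp
  have hf1 : Differentiable ℂ (fun z : Cn 2 =>
      (dd (uz R + κ * (z 0 * z 1)) (uz R) / dd (uz R) (uz R)) *
        Complex.exp (-(A * κ * (z 0 * z 1)))) := by
    have h1 : Differentiable ℂ (fun z : Cn 2 => dd (uz R + κ * (z 0 * z 1)) (uz R)) := by
      have h2 : Differentiable ℂ (fun z : Cn 2 => uz R + κ * (z 0 * z 1)) :=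
        (diff_pr.const_mul _).const_add _
      unfold dd
      fun_prop
    simp only [div_eq_mul_inv]
    exact (h1.mul_const _).mul ((diff_pr.const_mul _).neg.cexp)
  have e0 : ∀ z : Cn 2, (EF A κ R z) 0 = z 0 * Complex.exp (A * κ * (z 0 * z 1)) := by
    intro z
    simp [EF]
  have e1 : ∀ z : Cn 2, (EF A κ R z) 1 = z 1 *
      ((dd (uz R + κ * (z 0 * z 1)) (uz R) / dd (uz R) (uz R)) *
        Complex.exp (-(A * κ * (z 0 * z 1)))) := by
    intro z
    simp [EF, mul_assoc]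
  have key : ∀ i : Fin 2, HasFDerivAt (fun z : Cn 2 => (EF A κ R z) i)
      (EuclideanSpace.proj i : Cn 2 →L[ℂ] ℂ) 0 := by
    intro i
    fin_cases i
    · change HasFDerivAt (fun z : Cn 2 => (EF A κ R z) 0) _ 0
      rw [funext e0]
      refine hasF_prod 0 hf0 ?_
      simp
    · change HasFDerivAt (fun z : Cn 2 => (EF A κ R z) 1) _ 0
      rw [funext e1]
      refine hasF_prod 1 hf1 ?_
      simp [hd]
  have keyd : ∀ i : Fin 2, Differentiable ℂ (fun z : Cn 2 => (EF A κ R z) i) := by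
    intro i
    fin_cases i
    · change Differentiable ℂ (fun z : Cn 2 => (EF A κ R z) 0)
      rw [funext e0]
      exact (diff_coord 0).mul hf0
    · change Differentiable ℂ (fun z : Cn 2 => (EF A κ R z) 1)
      rw [funext e1]
      exact (diff_coord 1).mul hf1
  refine ⟨differentiable_euclidean.2 keyd, ?_, ?_, ?_⟩
  · ext i
    fin_cases i
    · change (EF A κ R 0) 0 = 0
      rw [e0, hz, zero_mul]
    · change (EF A κ R 0) 1 = 0
      rw [e1, hz, zero_mul]
  · refine HasFDerivAt.fderiv ?_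
    rw [← hasFDerivWithinAt_univ, hasFDerivWithinAt_euclidean]
    intro i
    exact (key i).hasFDerivWithinAt
  · intro z
    unfold cc
    rw [e0, e1]
    have hexp : Complex.exp (A * κ * (z 0 * z 1)) * Complex.exp (-(A * κ * (z 0 * z 1))) = 1 := by
      rw [← Complex.exp_add, add_neg_cancel, Complex.exp_zero]
    have hs := psi_sub (uz R + κ * (z 0 * z 1)) (uz R)
    have h5 : dd (uz R) (uz R) * (z 0 * Complex.exp (A * κ * (z 0 * z 1)) * (z 1 *
        ((dd (uz R + κ * (z 0 * z 1)) (uz R) / dd (uz R) (uz R)) *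
          Complex.exp (-(A * κ * (z 0 * z 1)))))) =
        z 0 * z 1 * dd (uz R + κ * (z 0 * z 1)) (uz R) *
          (Complex.exp (A * κ * (z 0 * z 1)) * Complex.exp (-(A * κ * (z 0 * z 1)))) := by
      field_simp
    rw [mul_assoc, h5, hexp]
    linear_combination -hs

end LC465
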