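import Pool.Agent.Lib.LC465.Spec

/-!
# LC465, module Fi: injectivity of the example for large `A`
-/

set_option autoImplicit false

open Metric Set Filter Topology

namespace LC465

open Pool.Agent.Lib.MP_465591_an

namespace FiAux

theorem continuous_dd : Continuous fun p : ℂ × ℂ => dd p.1 p.2 := by
  unfold dd
  fun_prop

theorem uz_re (R : ℝ) : (uz R).re = 0 := by simp [uz]

theorem uz_im (R : ℝ) : (uz R).im = -R := by simp [uz]

theorem im_neg {R ρ : ℝ} (h : ρ < R) {u : ℂ} (hu : u ∈ closedBall (uz R) ρ) : u.im < 0 := by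
  have h1 : |(u - uz R).im| ≤ ‖u - uz R‖ := Complex.abs_im_le_norm _
  have h2 : ‖u - uz R‖ ≤ ρ := by
    rw [mem_closedBall, dist_eq_norm] at hu
    exact hu
  have h3 := (abs_le.1 (h1.trans h2)).2
  rw [Complex.sub_im, uz_im] at h3
  linarith

/-- the compact set of the pairs with `dd u v = 0` -/
def Z (R ρ : ℝ) : Set (ℂ × ℂ) :=
  (closedBall (uz R) ρ ×ˢ closedBall (uz R) ρ) ∩ {p | dd p.1 p.2 = 0}

theorem isCompact_Z (R ρ : ℝ) : IsCompact (Z R ρ) :=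
  ((isCompact_closedBall _ _).prod (isCompact_closedBall _ _)).inter_right
    (isClosed_eq continuous_dd continuous_const)

/-- the gap -/
noncomputable def gap (R : ℝ) (p : ℂ × ℂ) : ℝ :=
  min |p.1.re - p.2.re| (min ‖p.1 - uz R‖ ‖p.2 - uz R‖)

theorem continuous_gap (R : ℝ) : Continuous (gap R) := by
  unfold gap
  fun_prop

theorem gap_pos (hQ1 : S_Q1) {R1 R ρ : ℝ}
    (hQ4 : ∀ (R : ℝ) (u : ℂ), R1 ≤ R → psi u = psi (uz R) → ‖u - uz R‖ ≤ R → u = uz R)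
    (hR : R1 ≤ R) (h : ρ < R) {p : ℂ × ℂ} (hp : p ∈ Z R ρ) : 0 < gap R p := by
  obtain ⟨⟨h1, h2⟩, h3⟩ := hp
  have h3' : dd p.1 p.2 = 0 := h3
  have i1 := im_neg h h1
  have i2 := im_neg h h2
  have e : psi p.1 = psi p.2 := by
    have := psi_sub p.1 p.2
    rw [h3', mul_zero] at this
    exact sub_eq_zero.1 this
  have hne : p.1 ≠ p.2 := by
    intro h4
    rw [← h4, dd_self] at h3'
    exact dpsi_ne i1 h3'
  have n1 : ‖p.1 - uz R‖ ≤ R := by
    rw [mem_closedBall, dist_eq_norm] at h1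
    linarith
  have n2 : ‖p.2 - uz R‖ ≤ R := by
    rw [mem_closedBall, dist_eq_norm] at h2
    linarith
  refine lt_min ?_ (lt_min ?_ ?_)
  · refine abs_pos.2 (sub_ne_zero.2 fun h5 => hne (hQ1 _ _ i1 i2 h5 e))
  · refine norm_pos_iff.2 (sub_ne_zero.2 fun h5 => ?_)
    rw [h5] at e
    exact hne (h5.trans (hQ4 R p.2 hR e.symm n2).symm)
  · refine norm_pos_iff.2 (sub_ne_zero.2 fun h5 => ?_)
    rw [h5] at e
    exact hne ((hQ4 R p.1 hR e n1).trans h5.symm)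

theorem exists_gap (hQ1 : S_Q1) {R1 R ρ : ℝ}
    (hQ4 : ∀ (R : ℝ) (u : ℂ), R1 ≤ R → psi u = psi (uz R) → ‖u - uz R‖ ≤ R → u = uz R)
    (hR : R1 ≤ R) (h : ρ < R) : ∃ δ : ℝ, 0 < δ ∧ ∀ p ∈ Z R ρ, δ ≤ gap R p := by
  rcases (Z R ρ).eq_empty_or_nonempty with h0 | h0
  · refine ⟨1, one_pos, fun p hp => ?_⟩
    rw [h0] at hp
    exact absurd hp (notMem_empty p)
  · obtain ⟨q, hq, hmin⟩ := (isCompact_Z R ρ).exists_isMinOn h0 (continuous_gap R).continuousOn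
    exact ⟨gap R q, gap_pos hQ1 hQ4 hR h hq, fun p hp => hmin hp⟩

theorem norm_sq2 (z : Cn 2) : ‖z‖ ^ 2 = ‖z 0‖ ^ 2 + ‖z 1‖ ^ 2 := by
  rw [EuclideanSpace.norm_sq_eq, Fin.sum_univ_two]

/-- bounds for the coordinates -/
theorem bounds {κ r : ℝ} (hκ : 0 < κ) (hr : 0 < r) {z : Cn 2} (hz : z ∈ ball (0 : Cn 2) r) :
    ‖z 0‖ < r ∧ ‖z 1‖ < r ∧ ‖(κ : ℂ) * (z 0 * z 1)‖ ≤ κ * r ^ 2 / 2 := by
  have h0 : ‖z‖ < r := by
    rw [mem_ball, dist_zero_right] at hz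
    exact hz
  have h1 : ‖z 0‖ ^ 2 + ‖z 1‖ ^ 2 < r ^ 2 := by
    rw [← norm_sq2]
    exact pow_lt_pow_left₀ h0 (norm_nonneg _) two_ne_zero
  refine ⟨?_, ?_, ?_⟩
  · refine lt_of_pow_lt_pow_left₀ 2 hr.le ?_
    nlinarith [sq_nonneg ‖z 1‖]
  · refine lt_of_pow_lt_pow_left₀ 2 hr.le ?_
    nlinarith [sq_nonneg ‖z 0‖]
  · rw [norm_mul, norm_mul, Complex.norm_real, Real.norm_eq_abs, abs_of_pos hκ]
    have h2 : ‖z 0‖ * ‖z 1‖ ≤ r ^ 2 / 2 := by nlinarith [sq_nonneg (‖z 0‖ - ‖z 1‖)]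
    have h3 := mul_le_mul_of_nonneg_left h2 hκ.le
    linarith

/-- lower bound for the first coordinate -/
theorem lower {κ r δ : ℝ} (hκ : 0 < κ) (hr : 0 < r) {x y : ℂ} (hy : ‖y‖ < r)
    (h : δ ≤ ‖(κ : ℂ) * (x * y)‖) : δ / (κ * r) ≤ ‖x‖ := by
  rw [norm_mul, norm_mul, Complex.norm_real, Real.norm_eq_abs, abs_of_pos hκ] at h
  rw [div_le_iff₀ (mul_pos hκ hr)]
  have h2 : ‖x‖ * ‖y‖ ≤ ‖x‖ * r := mul_le_mul_of_nonneg_left hy.le (norm_nonneg _)
  have h3 := mul_le_mul_of_nonneg_left h2 hκ.le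
  nlinarith

theorem norm_exp_eq (A κ : ℝ) (x t : ℂ) :
    ‖x * Complex.exp (A * κ * t)‖ = ‖x‖ * Real.exp (A * (κ * t.re)) := by
  rw [norm_mul, Complex.norm_exp]
  congr 2
  have : ((A : ℂ) * κ * t) = ((A * κ : ℝ) : ℂ) * t := by push_cast; ring
  rw [this, Complex.re_ofReal_mul]
  ring

end FiAux

open FiAux

theorem tFi (hQ1 : S_Q1) (hQ4 : S_Q4) (hFd : S_Fd) : S_Fi := by
  obtain ⟨R1, hR1, hQ4⟩ := hQ4
  refine ⟨R1, hR1, ?_⟩
  intro κ R r hR hκ hr hlt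
  have hR0 : 0 < R := hR1.trans_le hR
  obtain ⟨δ, hδ, hgap⟩ := exists_gap hQ1 hQ4 hR hlt
  set L : ℝ := Real.log r - Real.log (δ / (κ * r)) with hL
  refine ⟨(|L| + 1) / δ, by positivity, ?_⟩
  intro A hA z hz z' hz' hE
  have hAδ : L < A * δ := by
    have h1 : |L| + 1 ≤ A * δ := by rwa [div_le_iff₀ hδ] at hA
    have h2 := le_abs_self L
    linarith
  have hA0 : 0 < A := lt_of_lt_of_le (by positivity) hA
  obtain ⟨hx, hy, hxy⟩ := bounds hκ hr hz
  obtain ⟨hx', hy', hxy'⟩ := bounds hκ hr hz'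
  obtain ⟨-, -, -, hcc⟩ := hFd A κ R hR0
  have hpsi : psi (uz R + κ * (z 0 * z 1)) = psi (uz R + κ * (z' 0 * z' 1)) := by
    rw [← hcc z, ← hcc z', hE]
  have hD : ∀ t : ℂ, ‖t‖ ≤ κ * r ^ 2 / 2 → uz R + t ∈ closedBall (uz R) (κ * r ^ 2 / 2) := by
    intro t ht
    rw [mem_closedBall, dist_eq_norm, add_sub_cancel_left]
    exact ht
  have hu := hD _ hxy
  have hu' := hD _ hxy'
  have hc : uz R ∈ closedBall (uz R) (κ * r ^ 2 / 2) := mem_closedBall_self (by positivity)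
  have e0 : z 0 * Complex.exp (A * κ * (z 0 * z 1)) =
      z' 0 * Complex.exp (A * κ * (z' 0 * z' 1)) := by
    have := congrArg (fun w : Cn 2 => w 0) hE
    simpa [EF] using this
  have e1 : z 1 * (dd (uz R + κ * (z 0 * z 1)) (uz R) / dd (uz R) (uz R)) *
        Complex.exp (-(A * κ * (z 0 * z 1))) =
      z' 1 * (dd (uz R + κ * (z' 0 * z' 1)) (uz R) / dd (uz R) (uz R)) *
        Complex.exp (-(A * κ * (z' 0 * z' 1))) := by
    have := congrArg (fun w : Cn 2 => w 1) hE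
    simpa [EF] using this
  have hdd : ∀ u ∈ closedBall (uz R) (κ * r ^ 2 / 2), dd u (uz R) ≠ 0 := by
    intro u hu h0
    have h1 := hgap (u, uz R) ⟨⟨hu, hc⟩, h0⟩
    have h2 : gap R (u, uz R) ≤ ‖uz R - uz R‖ := (min_le_right _ _).trans (min_le_right _ _)
    rw [sub_self, norm_zero] at h2
    linarith
  by_cases huu : uz R + κ * (z 0 * z 1) = uz R + κ * (z' 0 * z' 1)
  · have ht : z 0 * z 1 = z' 0 * z' 1 := by
      have h1 : (κ : ℂ) * (z 0 * z 1) = κ * (z' 0 * z' 1) := add_left_cancel huu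
      exact mul_left_cancel₀ (Complex.ofReal_ne_zero.2 hκ.ne') h1
    rw [ht] at e0 e1
    have h0 : z 0 = z' 0 := mul_right_cancel₀ (Complex.exp_ne_zero _) e0
    have h1 : z 1 = z' 1 := by
      have h2 := mul_right_cancel₀ (Complex.exp_ne_zero _) e1
      exact mul_right_cancel₀ (div_ne_zero (hdd _ hu') (hdd _ hc)) h2
    refine PiLp.ext fun i => ?_
    fin_cases i
    · exact h0
    · exact h1
  · exfalso
    have hz0 : dd (uz R + κ * (z 0 * z 1)) (uz R + κ * (z' 0 * z' 1)) = 0 := by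
      have h1 := psi_sub (uz R + κ * (z 0 * z 1)) (uz R + κ * (z' 0 * z' 1))
      rw [hpsi, sub_self] at h1
      rcases mul_eq_zero.1 h1.symm with h2 | h2
      · exact absurd (sub_eq_zero.1 h2) huu
      · exact h2
    have hg := hgap (uz R + κ * (z 0 * z 1), uz R + κ * (z' 0 * z' 1)) ⟨⟨hu, hu'⟩, hz0⟩
    have g1 : δ ≤ |(uz R + κ * (z 0 * z 1)).re - (uz R + κ * (z' 0 * z' 1)).re| :=
      hg.trans (min_le_left _ _)
    have g2 : δ ≤ ‖(κ : ℂ) * (z 0 * z 1)‖ := by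
      have := hg.trans ((min_le_right _ _).trans (min_le_left _ _))
      simpa using this
    have g3 : δ ≤ ‖(κ : ℂ) * (z' 0 * z' 1)‖ := by
      have := hg.trans ((min_le_right _ _).trans (min_le_right _ _))
      simpa using this
    have l1 := lower hκ hr hy g2
    have l2 := lower hκ hr hy' g3
    have hpos : 0 < δ / (κ * r) := by positivity
    have p1 : 0 < ‖z 0‖ := hpos.trans_le l1
    have p2 : 0 < ‖z' 0‖ := hpos.trans_le l2
    have b1 : Real.log (δ / (κ * r)) ≤ Real.log ‖z 0‖ := Real.log_le_log hpos l1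
    have b2 : Real.log (δ / (κ * r)) ≤ Real.log ‖z' 0‖ := Real.log_le_log hpos l2
    have b3 : Real.log ‖z 0‖ ≤ Real.log r := Real.log_le_log p1 hx.le
    have b4 : Real.log ‖z' 0‖ ≤ Real.log r := Real.log_le_log p2 hx'.le
    have hn : ‖z 0‖ * Real.exp (A * (κ * (z 0 * z 1).re)) =
        ‖z' 0‖ * Real.exp (A * (κ * (z' 0 * z' 1).re)) := by
      rw [← norm_exp_eq, ← norm_exp_eq, e0]
    have hlog := congrArg Real.log hn
    rw [Real.log_mul p1.ne' (Real.exp_ne_zero _), Real.log_mul p2.ne' (Real.exp_ne_zero _),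
      Real.log_exp, Real.log_exp] at hlog
    rw [Complex.add_re, Complex.add_re, Complex.re_ofReal_mul, Complex.re_ofReal_mul,
      add_sub_add_left_eq_sub] at g1
    have hmul : A * δ ≤ |A * (κ * (z 0 * z 1).re - κ * (z' 0 * z' 1).re)| := by
      rw [abs_mul, abs_of_pos hA0]
      exact mul_le_mul_of_nonneg_left g1 hA0.le
    have hval : A * (κ * (z 0 * z 1).re - κ * (z' 0 * z' 1).re) =
        Real.log ‖z' 0‖ - Real.log ‖z 0‖ := by
      linear_combination hlog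
    rw [hval] at hmul
    have habs : |Real.log ‖z' 0‖ - Real.log ‖z 0‖| ≤ L := by
      rw [abs_le]
      constructor
      · rw [hL]
        linarith
      · rw [hL]
        linarith
    linarith

end LC465
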