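import Pool.Agent.Lib.LC465.Spec
import Pool.Agent.Lib.MP_465591_an.N.C.Spec

/-!
# LC465: the assembly
-/

set_option autoImplicit false

open Metric Set Filter Topology

namespace LC465

open Pool.Agent.Lib.MP_465591_an

namespace FinAux

theorem psi_uz (R : ℝ) : psi (uz R) = Complex.I * ((3 * R ^ 5 + 10 * R ^ 3 + 15 * R) / 8 : ℝ) := by
  have h2 : Complex.I ^ 2 = -1 := Complex.I_sq
  have h3 : Complex.I ^ 3 = -Complex.I := by rw [pow_succ, h2]; ring
  have h5 : Complex.I ^ 5 = Complex.I := by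
    have : Complex.I ^ 5 = Complex.I ^ 2 * Complex.I ^ 2 * Complex.I := by ring
    rw [this, h2]; ring
  unfold psi uz
  push_cast
  have e1 : (-(Complex.I * (R : ℂ))) ^ 5 = -(Complex.I * (R : ℂ) ^ 5) := by
    have : (-(Complex.I * (R : ℂ))) ^ 5 = -(Complex.I ^ 5 * (R : ℂ) ^ 5) := by ring
    rw [this, h5]
  have e2 : (-(Complex.I * (R : ℂ))) ^ 3 = Complex.I * (R : ℂ) ^ 3 := by
    have : (-(Complex.I * (R : ℂ))) ^ 3 = -(Complex.I ^ 3 * (R : ℂ) ^ 3) := by ring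
    rw [this, h3]; ring
  rw [e1, e2]
  ring

theorem norm_psi_uz {R : ℝ} (hR : 2 ≤ R) : 20 ≤ ‖psi (uz R)‖ := by
  rw [psi_uz, norm_mul, Complex.norm_I, one_mul, Complex.norm_real]
  have h1 : 0 < R := by linarith
  have h2 : 0 ≤ (3 * R ^ 5 + 10 * R ^ 3 + 15 * R) / 8 := by positivity
  rw [Real.norm_of_nonneg h2]
  have h3 : 8 ≤ R ^ 3 := by nlinarith [sq_nonneg (R - 2), mul_self_nonneg (R + 2)]
  have h5 : 32 ≤ R ^ 5 := by nlinarith [pow_le_pow_left₀ (by norm_num : (0 : ℝ) ≤ 2) hR 5]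
  linarith

theorem dd_uz_ne {R : ℝ} (hR : 0 < R) : dd (uz R) (uz R) ≠ 0 := by
  rw [dd_self]
  exact dpsi_ne (by simp [uz, hR])

theorem norm_c00 : ‖c00‖ = 1 / 2 := by
  rw [c00, norm_neg, norm_div, Complex.norm_I, Complex.norm_ofNat]

theorem c00_im : c00.im < 0 := by simp [c00]

theorem im_neg_near {c : ℂ} (h : ‖c - c00‖ < 1 / 8) : c.im < 0 := by
  have h1 : |(c - c00).im| ≤ ‖c - c00‖ := Complex.abs_im_le_norm _
  have h2 : (c - c00).im = c.im + 1 / 2 := by simp [c00]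
  rw [h2] at h1
  have := abs_le.1 (h1.trans h.le)
  linarith [this.2]

theorem dvg_eq (n : ℂ → ℂ) (c : ℂ) : NC.dvg n c = dv n c := rfl

/-- `NN` vanishes over points of norm `> 5` -/
theorem NN_zero (hNk : S_Nk) (a A : ℝ) {c : ℂ} (hc : 5 < ‖c‖) (X : ℝ) : NN a A c X = 0 := by
  have h : ∀ u : ℂ, (∑ᶠ (_ : psi u = c ∧ a + A * u.re < X), Nf u) = 0 := by
    intro u
    by_cases h : psi u = c ∧ a + A * u.re < X
    · have h0 : Nf u = 0 := hNk.2.2 u (by rw [h.1]; exact hc)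
      simp [h0]
    · simp [h]
  exact (finsum_congr h).trans finsum_zero

theorem cc_aa {κ R : ℝ} (hκ : 0 < κ) (hR : 0 < R) {x : ℂ} (hx : x ≠ 0) :
    cc κ R (aa ((c00 - psi (uz R)) / (κ * dd (uz R) (uz R))) x) = c00 := by
  have h1 : dd (uz R) (uz R) ≠ 0 := dd_uz_ne hR
  have h2 : (κ : ℂ) ≠ 0 := by exact_mod_cast hκ.ne'
  unfold cc aa
  simp only [Matrix.cons_val_zero, Matrix.cons_val_one]
  field_simp
  ring

theorem aa_zero (t x : ℂ) : aa t x 0 = x := by simp [aa]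

theorem diff_aa (t : ℂ) : DifferentiableOn ℂ (aa t) {x : ℂ | x ≠ 0} := by
  intro x hx
  apply DifferentiableAt.differentiableWithinAt
  rw [differentiableAt_euclidean]
  intro i
  fin_cases i
  · simp [aa]
  · have h : DifferentiableAt ℂ (fun x : ℂ => t / x) x :=
      (differentiableAt_const t).fun_div differentiableAt_fun_id hx
    simpa [aa] using h

theorem diff_cc (κ R : ℝ) : Differentiable ℂ (cc κ R) := by
  have h0 : Differentiable ℂ fun z : Cn 2 => z 0 := (EuclideanSpace.proj (𝕜 := ℂ) (0 : Fin 2)).differentiable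
  have h1 : Differentiable ℂ fun z : Cn 2 => z 1 := (EuclideanSpace.proj (𝕜 := ℂ) (1 : Fin 2)).differentiable
  exact ((h0.mul h1).const_mul _).const_add _

end FinAux

open FinAux in
theorem tFin (hEx : S_Ex) (hCnt : S_Cnt) (hN1 : S_N1) (hNk : S_Nk) (hNv : S_Nv) (hLocC : S_LocC)
    (hInq : S_Inq) (hFd : S_Fd) (hFi : S_Fi) (hFk : S_Fk) (hFa : S_Fa) (hPar : S_Par)
    (hC : NC.S_Cmain) : S_Fin := by
  obtain ⟨R1, hR1, hFi⟩ := hFi
  obtain ⟨κ, R, s, r, hRR, hR1', hκ, hκR, hs0, hs1, hr1, hκr, hS⟩ :=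
    hPar SN (max R1 2) hNk.1 (fun u hu => (hNk.2.1 u hu).1)
  have hR2 : 2 ≤ R := (le_max_right _ _).trans hRR
  have hR0 : 0 < R := by linarith
  obtain ⟨A1, hA1, hInj⟩ := hFi κ R r ((le_max_left _ _).trans hRR) hκ (by linarith) hκr
  -- the roots over `c00`
  obtain ⟨⟨u2, hu2, hp2⟩, ⟨u4, hu4, hp4⟩⟩ := hEx.2 c00 c00_im
  have hcnt : ∀ u : ℂ, u.im < 0 → psi u = c00 → u = u2 ∨ u = u4 := by
    intro u hu hpu
    exact hCnt.2 u2 hu2 u4 hu4 (hp4.trans hp2.symm) u hu (hpu.trans hp2.symm)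
  have hre : u2.re < u4.re := hu2.2.2.trans hu4.2.2
  have hnL : nL c00 ≠ 0 := by
    have := (hN1.2.2.2.2.2 c00 (by simp)).2
    intro h
    rw [h, norm_zero] at this
    linarith
  have hu2S : u2 ∈ SN := subset_closure (by
    show Nf u2 ≠ 0
    rw [Nf_C2 hu2, hp2]; exact hnL)
  have hu4S : u4 ∈ SN := subset_closure (by
    show Nf u4 ≠ 0
    rw [Nf_C4 hu4, hp4]; exact neg_ne_zero.2 hnL)
  obtain ⟨A2, hA2, hFa⟩ := hFa κ R s u2 u4 hR0 hκ hκR hs0 hs1 hR1' hp2 hp4 hre hu4.1 hcnt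
  set A : ℝ := max A1 A2 with hA
  have hA0 : 0 < A := lt_max_of_lt_left hA1
  obtain ⟨x0, hx01, hx02, hx0⟩ := hFa A (le_max_right _ _)
  obtain ⟨hF1, hF2, hF3, hF4⟩ := hFd A κ R hR0
  refine ⟨r, hr1, EF A κ R, hF1, hInj A (le_max_left _ _), hF2, hF3, ?_⟩
  set a : ℝ := Real.log (s / Real.sqrt 2) with ha
  set t : ℂ := (c00 - psi (uz R)) / (κ * dd (uz R) (uz R)) with ht
  refine hC 2 (EF A κ R) s (Real.exp (a + A * u2.re)) (Real.exp (a + A * u4.re)) (aa t)
    {z : Cn 2 | z 0 ≠ 0 ∧ ∃ u ∈ SN, cc κ R z = psi u ∧ Real.log ‖z 0‖ = a + A * u.re}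
    (cc κ R) (fun z => NN a A (cc κ R z) (Real.log ‖z 0‖)) c00 2000 (1 / 20) (1 / 8)
    hs0.le hs1 (Real.exp_pos _) ?_ (by norm_num) (by norm_num) (by norm_num) (diff_aa t)
    (diff_cc κ R) ?_ ?_ ⟨x0, hx01, hx02, hx0⟩ ?_ ?_ ?_
  · apply Real.exp_le_exp.2
    have := mul_le_mul_of_nonneg_left hre.le hA0.le
    linarith
  · rintro z ⟨hz0, u, hu, hzu, hzl⟩
    obtain ⟨w, hw, hwz⟩ := hFk A κ R s u z hR0 hκ hs0 (hS u hu) hz0 hzu hzl
    exact ⟨w, by simpa using hw, hwz⟩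
  · intro x hx
    have hx0 : x ≠ 0 := by
      rintro rfl
      rcases hx with h | h <;> rw [norm_zero] at h <;> exact (Real.exp_pos _).ne h
    refine ⟨by rw [aa_zero]; exact hx0, ?_⟩
    rcases hx with h | h
    · refine ⟨u2, hu2S, by rw [cc_aa hκ hR0 hx0, hp2], ?_⟩
      rw [aa_zero, h, Real.log_exp]
    · refine ⟨u4, hu4S, by rw [cc_aa hκ hR0 hx0, hp4], ?_⟩
      rw [aa_zero, h, Real.log_exp]
  · intro x hx1 hx2
    have hxp : 0 < ‖x‖ := (Real.exp_pos _).trans_le hx1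
    have hx0 : x ≠ 0 := norm_pos_iff.1 hxp
    refine ⟨cc_aa hκ hR0 hx0, fun hnot => ?_⟩
    show NN a A (cc κ R (aa t x)) (Real.log ‖aa t x 0‖) ≠ 0
    rw [cc_aa hκ hR0 hx0, aa_zero]
    have e1 : a + A * u2.re ≤ Real.log ‖x‖ := by
      rw [← Real.log_exp (a + A * u2.re)]
      exact Real.log_le_log (Real.exp_pos _) hx1
    have e2 : Real.log ‖x‖ ≤ a + A * u4.re := by
      rw [← Real.log_exp (a + A * u4.re)]
      exact Real.log_le_log hxp hx2
    have e3 : Real.log ‖x‖ ≠ a + A * u2.re := by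
      intro h
      exact hnot ⟨by rw [aa_zero]; exact hx0, u2, hu2S, by rw [cc_aa hκ hR0 hx0, hp2],
        by rw [aa_zero, h]⟩
    have e4 := (hNv a A hA0).2 u2 hu2 u4 hu4 (hp4.trans hp2.symm) (Real.log ‖x‖)
    rw [hp2] at e4
    rw [e4, if_neg (not_le.2 (lt_of_le_of_ne e1 e3.symm)), if_pos e2]
    exact hnL
  · intro z hz
    by_cases hz0 : z 0 = 0
    · -- `cc z = ψ(u₀)`
      have hcz : cc κ R z = psi (uz R) := by simp [cc, hz0]
      have h20 := norm_psi_uz hR2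
      have hopen : ∀ᶠ z' in 𝓝 z, 5 < ‖cc κ R z'‖ := by
        have hc : ContinuousAt (fun z' => ‖cc κ R z'‖) z := (diff_cc κ R).continuous.norm.continuousAt
        refine hc.eventually_const_lt ?_
        show 5 < ‖cc κ R z‖
        rw [hcz]; linarith
      have hNz : NN a A (cc κ R z) (Real.log ‖z 0‖) = 0 := NN_zero hNk a A (by rw [hcz]; linarith) _
      refine ⟨fun _ => 0, contDiffAt_const, ?_, ?_, fun _ => Or.inl hNz⟩
      · filter_upwards [hopen] with z' hz'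
        exact NN_zero hNk a A hz' _
      · simp [NC.dvg]
    · have hcond : ∀ u ∈ SN, psi u = cc κ R z → a + A * u.re ≠ Real.log ‖z 0‖ := by
        intro u hu hpu h
        exact hz ⟨hz0, u, hu, hpu.symm, h.symm⟩
      obtain ⟨n, hn, hev, hineq⟩ := hInq a A hA0 (cc κ R z) (Real.log ‖z 0‖) hcond
      have hcont : ContinuousAt (fun z' : Cn 2 => (cc κ R z', Real.log ‖z' 0‖)) z := by
        refine (diff_cc κ R).continuous.continuousAt.prodMk ?_
        refine ContinuousAt.log ?_ (by simpa using hz0)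
        exact ((EuclideanSpace.proj (𝕜 := ℂ) (0 : Fin 2)).continuous.norm).continuousAt
      refine ⟨n, hn.contDiffAt, hcont.eventually hev, hineq, fun hnear => ?_⟩
      by_cases hzero : NN a A (cc κ R z) (Real.log ‖z 0‖) = 0
      · exact Or.inl hzero
      right
      have him : (cc κ R z).im < 0 := im_neg_near hnear
      obtain ⟨n', hn', hev'⟩ := hLocC a A hA0 (cc κ R z) (Real.log ‖z 0‖) him.ne hcond
      have hval' : NN a A (cc κ R z) (Real.log ‖z 0‖) = n' (cc κ R z) := hev'.self_of_nhds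
      have hn'L : n' = nL := by
        rcases hn' with ⟨-, h | h⟩ | ⟨h, -⟩
        · rw [h] at hval'
          exact absurd hval' hzero
        · exact h
        · linarith
      have heq : n =ᶠ[𝓝 (cc κ R z)] nL := by
        have hc : ContinuousAt (fun c : ℂ => (c, Real.log ‖z 0‖)) (cc κ R z) :=
          continuousAt_id.prodMk continuousAt_const
        filter_upwards [hc.eventually hev, hc.eventually hev'] with c h1 h2
        rw [← h1, h2, hn'L]
      have hfd : NC.dvg n (cc κ R z) = dv nL (cc κ R z) := by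
        unfold NC.dvg dv
        rw [heq.fderiv_eq]
      have hl := hN1.2.2.2.2.2 (cc κ R z) hnear
      refine ⟨?_, ?_⟩
      · show 1 / 20 ≤ ‖NN a A (cc κ R z) (Real.log ‖z 0‖)‖
        rw [hval', hn'L]
        linarith [hl.2]
      · rw [hfd]; exact hl.1
  · have h1 : cc κ R 0 = psi (uz R) := by simp [cc]
    rw [h1]
    have h2 := norm_sub_norm_le (psi (uz R)) c00
    rw [norm_c00] at h2
    linarith [norm_psi_uz hR2]

end LC465
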