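import Pool.Agent.Lib.LC465.Spec

/-!
# LC465, module `Fk`: the compact set is in the image
-/

set_option autoImplicit false

open Metric Set Filter Topology

namespace LC465

open Pool.Agent.Lib.MP_465591_an

namespace FkAux

theorem uz_re (R : ℝ) : (uz R).re = 0 := by
  simp [uz]

theorem uz_im (R : ℝ) : (uz R).im = -R := by
  simp [uz]

theorem dd_ne {R : ℝ} (hR : 0 < R) : dd (uz R) (uz R) ≠ 0 := by
  rw [dd_self]
  refine dpsi_ne ?_
  rw [uz_im]
  linarith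

theorem norm_exp_mul (A R : ℝ) (u : ℂ) :
    ‖Complex.exp (-((A : ℂ) * (u - uz R)))‖ = Real.exp (-(A * u.re)) := by
  rw [Complex.norm_exp]
  congr 1
  rw [Complex.neg_re, Complex.re_ofReal_mul, Complex.sub_re, uz_re, sub_zero]

end FkAux

open FkAux

theorem tFk : S_Fk := by
  intro A κ R s u z hR hκ hs hu hz hc hlog
  have h2 : (0 : ℝ) < Real.sqrt 2 := Real.sqrt_pos.2 (by norm_num)
  have h22 : Real.sqrt 2 ^ 2 = 2 := Real.sq_sqrt (by norm_num)
  have hκC : (κ : ℂ) ≠ 0 := Complex.ofReal_ne_zero.2 hκ.ne'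
  have hd := dd_ne hR
  set E : ℂ := Complex.exp (-((A : ℂ) * (u - uz R))) with hE
  have hE0 : E ≠ 0 := Complex.exp_ne_zero _
  set t : ℂ := (u - uz R) / κ with ht
  have hκt : (κ : ℂ) * t = u - uz R := by
    rw [ht]; field_simp
  have hw0 : z 0 * E ≠ 0 := mul_ne_zero hz hE0
  have hprod : (z 0 * E) * (t / (z 0 * E)) = t := by field_simp
  -- norms
  have hsq : 0 < s / Real.sqrt 2 := div_pos hs h2
  have hz0 : ‖z 0‖ = s / Real.sqrt 2 * Real.exp (A * u.re) := by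
    rw [← Real.exp_log (norm_pos_iff.2 hz), hlog, Real.exp_add, Real.exp_log hsq]
  have hn0 : ‖z 0 * E‖ = s / Real.sqrt 2 := by
    rw [norm_mul, hz0, norm_exp_mul, mul_assoc, ← Real.exp_add, add_neg_cancel, Real.exp_zero, mul_one]
  have hnt : ‖t‖ ≤ s ^ 2 / 2 := by
    have h3 : κ * ‖t‖ ≤ κ * (s ^ 2 / 2) := by
      calc κ * ‖t‖ = ‖(κ : ℂ) * t‖ := by
            rw [norm_mul, Complex.norm_real, Real.norm_of_nonneg hκ.le]
        _ = ‖u - uz R‖ := by rw [hκt]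
        _ ≤ κ * s ^ 2 / 2 := hu
        _ = κ * (s ^ 2 / 2) := by ring
    exact le_of_mul_le_mul_left h3 hκ
  have hn1 : ‖t / (z 0 * E)‖ ≤ s / Real.sqrt 2 := by
    rw [norm_div, hn0, div_le_iff₀ hsq]
    have h4 : s / Real.sqrt 2 * (s / Real.sqrt 2) = s ^ 2 / 2 := by
      rw [div_mul_div_comm, ← sq, ← sq, h22]
    rw [h4]
    exact hnt
  refine ⟨WithLp.toLp 2 ![z 0 * E, t / (z 0 * E)], ?_, ?_⟩
  · rw [EuclideanSpace.norm_eq, Fin.sum_univ_two]
    refine Real.sqrt_le_iff.2 ⟨hs.le, ?_⟩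
    change ‖z 0 * E‖ ^ 2 + ‖t / (z 0 * E)‖ ^ 2 ≤ s ^ 2
    have h4 : (s / Real.sqrt 2) ^ 2 = s ^ 2 / 2 := by rw [div_pow, h22]
    have h5 : ‖t / (z 0 * E)‖ ^ 2 ≤ (s / Real.sqrt 2) ^ 2 :=
      pow_le_pow_left₀ (norm_nonneg _) hn1 2
    rw [hn0]
    linarith
  · have hcE : psi (uz R) + κ * dd (uz R) (uz R) * (z 0 * z 1) = psi u := hc
    have hps := psi_sub u (uz R)
    have hkey : z 0 * z 1 * dd (uz R) (uz R) = t * dd u (uz R) := by
      have h6 : (κ : ℂ) * (z 0 * z 1 * dd (uz R) (uz R)) = κ * (t * dd u (uz R)) := by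
        rw [← mul_assoc (κ : ℂ) t, hκt, ← hps, ← hcE]
        ring
      exact mul_left_cancel₀ hκC h6
    have hexp : Complex.exp ((A : ℂ) * κ * t) = E⁻¹ := by
      rw [hE, ← Complex.exp_neg, neg_neg, mul_assoc, hκt]
    have hexp' : Complex.exp (-((A : ℂ) * κ * t)) = E := by
      rw [hE, mul_assoc, hκt]
    have hu1 : uz R + κ * t = u := by rw [hκt]; ring
    ext i
    fin_cases i
    · change (z 0 * E) * Complex.exp ((A : ℂ) * κ * ((z 0 * E) * (t / (z 0 * E)))) = z 0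
      rw [hprod, hexp, mul_assoc, mul_inv_cancel₀ hE0, mul_one]
    · change (t / (z 0 * E)) * (dd (uz R + κ * ((z 0 * E) * (t / (z 0 * E)))) (uz R) / dd (uz R) (uz R)) *
        Complex.exp (-((A : ℂ) * κ * ((z 0 * E) * (t / (z 0 * E))))) = z 1
      rw [hprod, hexp', hu1]
      have h7 : z 1 = t * dd u (uz R) / (z 0 * dd (uz R) (uz R)) := by
        rw [eq_div_iff (mul_ne_zero hz hd), ← hkey]
        ring
      rw [h7]
      field_simp

end LC465
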