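import Pool.Agent.Lib.LC465.Spec2

/-!
# LC465, module Hur: a perturbation of an injective map takes the same value nearby
-/

set_option autoImplicit false

open Metric Set Filter Topology

namespace LC465

open Pool.Agent.Lib.MP_465591_an

theorem tHur : S_Inv → S_Hur := by
  intro hInv F f q δ m hδ hm hsub hf hinj hclose hfar
  have hqb : ball q δ ⊆ ball (0 : Cn 2) 1 := ball_subset_closedBall.trans hsub
  have hop : IsOpen (f '' ball q δ) := (hInv 2 f (ball 0 1) isOpen_ball hf hinj).1 _ hqb isOpen_ball
  have hcp : IsClosed (f '' closedBall q δ) :=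
    ((isCompact_closedBall q δ).image_of_continuousOn (hf.continuousOn.mono hsub)).isClosed
  have hV : ball (F q) (m / 2) ⊆ f '' ball q δ := by
    refine IsPreconnected.subset_left_of_subset_union hop hcp.isOpen_compl ?_ ?_ ?_
      (convex_ball _ _).isPreconnected
    · rw [disjoint_compl_right_iff_subset]
      exact image_mono ball_subset_closedBall
    · intro y hy
      by_cases h : y ∈ f '' closedBall q δ
      · left
        obtain ⟨z, hz, rfl⟩ := h
        rw [mem_closedBall, dist_eq_norm] at hz
        rcases hz.lt_or_eq with h1 | h1
        · exact ⟨z, by rwa [mem_ball, dist_eq_norm], rfl⟩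
        · exfalso
          have h2 := hfar z h1
          have h3 := hclose z h1.le
          rw [mem_ball, dist_eq_norm] at hy
          have h4 : ‖F z - F q‖ ≤ ‖f z - F z‖ + ‖f z - F q‖ := by
            have h5 : F z - F q = -(f z - F z) + (f z - F q) := by abel
            rw [h5]
            exact (norm_add_le _ _).trans (by rw [norm_neg])
          linarith
      · exact Or.inr h
    · refine ⟨f q, ?_, q, mem_ball_self hδ, rfl⟩
      rw [mem_ball, dist_eq_norm]
      exact hclose q (by simp [hδ.le])
  obtain ⟨w, hw, he⟩ := hV (mem_ball_self (by linarith))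
  exact ⟨w, by rwa [mem_ball, dist_eq_norm] at hw, he⟩

end LC465
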