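import Pool.Agent.Lib.LC465.Spec

/-!
# LC465: Inq, the inequality for `NN`
-/

set_option autoImplicit false

open Metric Set Filter Topology

namespace LC465

open Pool.Agent.Lib.MP_465591_an

namespace InqAux

theorem dv_congr {n n' : ℂ → ℂ} {c : ℂ} (h : n =ᶠ[𝓝 c] n') : dv n c = dv n' c := by
  unfold dv
  rw [h.fderiv_eq]

theorem dv_zero (c : ℂ) : dv (0 : ℂ → ℂ) c = 0 := by
  have h : fderiv ℝ (0 : ℂ → ℂ) c = 0 := by
    have := fderiv_const (𝕜 := ℝ) (E := ℂ) (0 : ℂ)
    exact congrFun this c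
  unfold dv
  rw [h]
  simp

theorem continuous_dv {n : ℂ → ℂ} (hn : ContDiff ℝ 1 n) : Continuous (dv n) := by
  have h : Continuous (fderiv ℝ n) := hn.continuous_fderiv (by norm_num)
  unfold dv
  exact (Complex.continuous_re.comp (h.clm_apply continuous_const)).add
    (Complex.continuous_im.comp (h.clm_apply continuous_const))

theorem mem_closure_im (c : ℂ) : c ∈ closure {z : ℂ | z.im ≠ 0} := by
  by_cases hc : c.im = 0
  · rw [Metric.mem_closure_iff]
    intro ε hε
    refine ⟨c + ((ε / 2 : ℝ) : ℂ) * Complex.I, ?_, ?_⟩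
    · change (c + ((ε / 2 : ℝ) : ℂ) * Complex.I).im ≠ 0
      have h : (c + ((ε / 2 : ℝ) : ℂ) * Complex.I).im = ε / 2 := by
        rw [Complex.add_im, hc, Complex.mul_im, Complex.ofReal_re, Complex.ofReal_im,
          Complex.I_im, Complex.I_re]
        ring
      rw [h]
      positivity
    · rw [dist_eq_norm]
      have h : c - (c + ((ε / 2 : ℝ) : ℂ) * Complex.I) = -(((ε / 2 : ℝ) : ℂ) * Complex.I) := by ring
      rw [h, norm_neg, norm_mul, Complex.norm_I, mul_one, Complex.norm_real, Real.norm_eq_abs,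
        abs_of_pos (by positivity)]
      linarith
  · exact subset_closure hc

end InqAux

open InqAux

theorem tInq : S_N1 → S_Nk → S_LocC → S_LocG → S_Inq := by
  intro hN1 hNk hLocC hLocG a A hA c0 X0 hc0
  obtain ⟨-, -, -, hL, hAB, -⟩ := hN1
  obtain ⟨hcpt, -, -⟩ := hNk
  obtain ⟨n, hn, hnn⟩ := hLocG a A c0 X0 hc0
  refine ⟨n, hn, hnn, ?_⟩
  -- the exceptional set is closed
  have hcont : Continuous fun u : ℂ => (psi u, a + A * u.re) :=
    continuous_psi.prodMk (continuous_const.add (continuous_const.mul Complex.continuous_re))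
  have hK : IsClosed ((fun u : ℂ => (psi u, a + A * u.re)) '' SN) :=
    (hcpt.image hcont).isClosed
  have hnot : (c0, X0) ∈ ((fun u : ℂ => (psi u, a + A * u.re)) '' SN)ᶜ := by
    rintro ⟨u, hu, he⟩
    rw [Prod.mk.injEq] at he
    exact hc0 u hu he.1 he.2
  have hev1 : ∀ᶠ p in 𝓝 (c0, X0), p ∈ ((fun u : ℂ => (psi u, a + A * u.re)) '' SN)ᶜ :=
    hK.isOpen_compl.mem_nhds hnot
  have hslice : Tendsto (fun c : ℂ => (c, X0)) (𝓝 c0) (𝓝 (c0, X0)) :=
    (Continuous.prodMk continuous_id continuous_const).tendsto c0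
  have hev2 := hslice.eventually hev1
  have hev3 := hslice.eventually (eventually_eventually_nhds.2 hnn)
  -- the inequality at non real points near `c0`
  have hkey : ∀ᶠ c in 𝓝 c0, c.im ≠ 0 → ‖n c‖ ^ 2 ≤ 2000 * dv n c := by
    filter_upwards [hev2, hev3] with c h2 h3 him
    have hc : ∀ u ∈ SN, psi u = c → a + A * u.re ≠ X0 := fun u hu h4 h5 =>
      h2 ⟨u, hu, Prod.ext h4 h5⟩
    obtain ⟨n', hn', hnn'⟩ := hLocC a A hA c X0 him hc
    have hslc : Tendsto (fun z : ℂ => (z, X0)) (𝓝 c) (𝓝 (c, X0)) :=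
      (Continuous.prodMk continuous_id continuous_const).tendsto c
    have heq : n =ᶠ[𝓝 c] n' := by
      filter_upwards [hslc.eventually h3, hslc.eventually hnn'] with z h4 h5
      rw [← h4, h5]
    rw [heq.eq_of_nhds, dv_congr heq]
    rcases hn' with ⟨h4, h5 | h5⟩ | ⟨h4, h5 | h5 | h5⟩
    · rw [h5, dv_zero]
      simp
    · rw [h5]
      exact hL c (by linarith)
    · rw [h5, dv_zero]
      simp
    · rw [h5]
      exact (hAB c (by linarith)).1
    · rw [h5]
      exact (hAB c (by linarith)).2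
  have hne : (𝓝[{z : ℂ | z.im ≠ 0}] c0).NeBot := mem_closure_iff_nhdsWithin_neBot.1
    (mem_closure_im c0)
  have hf : Tendsto (fun c => ‖n c‖ ^ 2) (𝓝[{z : ℂ | z.im ≠ 0}] c0) (𝓝 (‖n c0‖ ^ 2)) :=
    ((hn.continuous.norm.pow 2).tendsto c0).mono_left nhdsWithin_le_nhds
  have hg : Tendsto (fun c => 2000 * dv n c) (𝓝[{z : ℂ | z.im ≠ 0}] c0) (𝓝 (2000 * dv n c0)) :=
    ((continuous_const.mul (continuous_dv hn)).tendsto c0).mono_left nhdsWithin_le_nhds
  refine le_of_tendsto_of_tendsto hf hg ?_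
  rw [EventuallyLE, eventually_nhdsWithin_iff]
  exact hkey

end LC465
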