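import Pool.Agent.Lib.LC465.Spec

/-!
# LC465, module LocC: local form of `NN` over non real points

The value of `NN` over a non real point is a sum over the roots; the term of a root `u` is
locally constant (in `X`) if `u` is in the support `SN`, and locally `0` otherwise.
-/

set_option autoImplicit false

open Metric Set Filter Topology

namespace LC465

open Pool.Agent.Lib.MP_465591_an

namespace LocCAux

theorem cX : Continuous fun u : ℂ => u.re ^ 2 := Complex.continuous_re.pow 2

theorem cY : Continuous fun u : ℂ => 1 + u.im ^ 2 :=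
  continuous_const.add (Complex.continuous_im.pow 2)

theorem open1 : IsOpen C1 :=
  (isOpen_lt Complex.continuous_im continuous_const).inter
    ((isOpen_lt continuous_const (Complex.continuous_im.comp continuous_psi)).inter
      ((isOpen_lt cY cX).inter
        (isOpen_lt Complex.continuous_re continuous_const)))

theorem open2 : IsOpen C2 :=
  (isOpen_lt Complex.continuous_im continuous_const).inter
    ((isOpen_lt (Complex.continuous_im.comp continuous_psi) continuous_const).inter
      (isOpen_lt Complex.continuous_re continuous_const))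

theorem open3 : IsOpen C3 :=
  (isOpen_lt Complex.continuous_im continuous_const).inter
    ((isOpen_lt continuous_const (Complex.continuous_im.comp continuous_psi)).inter
      (isOpen_lt cX cY))

theorem open4 : IsOpen C4 :=
  (isOpen_lt Complex.continuous_im continuous_const).inter
    ((isOpen_lt (Complex.continuous_im.comp continuous_psi) continuous_const).inter
      (isOpen_lt continuous_const Complex.continuous_re))

theorem open5 : IsOpen C5 :=
  (isOpen_lt Complex.continuous_im continuous_const).inter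
    ((isOpen_lt continuous_const (Complex.continuous_im.comp continuous_psi)).inter
      ((isOpen_lt cY cX).inter
        (isOpen_lt continuous_const Complex.continuous_re)))

/-- Local inverses of `psi`, with values in a given open set. -/
theorem inv {C : Set ℂ} (hC : IsOpen C) {c0 u0 : ℂ} (hu : u0 ∈ C) (him : u0.im < 0)
    (hp : psi u0 = c0) : ∃ s : ℂ → ℂ, ContinuousAt s c0 ∧ s c0 = u0 ∧
      ∀ᶠ c in 𝓝 c0, s c ∈ C ∧ psi (s c) = c := by
  subst hp
  have hd : ContDiff ℂ 1 psi := by
    unfold psi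
    fun_prop
  have h1 : HasStrictDerivAt psi (-(15 / 8) * (u0 ^ 2 - 1) ^ 2) u0 :=
    hd.contDiffAt.hasStrictDerivAt' (hasDerivAt_psi u0) one_ne_zero
  have h2 := h1.hasStrictFDerivAt_equiv (dpsi_ne him)
  have h3 : ContinuousAt (h2.localInverse psi _ u0) (psi u0) := h2.localInverse_continuousAt
  have h4 : h2.localInverse psi _ u0 (psi u0) = u0 := h2.localInverse_apply_image
  refine ⟨h2.localInverse psi _ u0, h3, h4, ?_⟩
  have h5 : ∀ᶠ c in 𝓝 (psi u0), h2.localInverse psi _ u0 c ∈ C := by
    refine h3.eventually ?_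
    rw [h4]
    exact hC.mem_nhds hu
  exact h5.and h2.eventually_right_inverse

/-- The term of a root does not change near `(c0, X0)`. -/
theorem term {a A X0 : ℝ} {c0 u0 : ℂ} {s : ℂ → ℂ} (hs : ContinuousAt s c0) (h0 : s c0 = u0)
    (hX : u0 ∈ SN → a + A * u0.re ≠ X0) :
    ∀ᶠ p in 𝓝 (c0, X0), (if p.2 ≤ a + A * (s p.1).re then 0 else Nf (s p.1)) =
      if X0 ≤ a + A * u0.re then 0 else Nf (s p.1) := by
  have hf : ContinuousAt (fun p : ℂ × ℝ => s p.1) (c0, X0) :=
    ContinuousAt.comp (f := Prod.fst) hs continuousAt_fst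
  have hg : ContinuousAt (fun p : ℂ × ℝ => a + A * (s p.1).re) (c0, X0) :=
    continuousAt_const.add (continuousAt_const.mul (Complex.continuous_re.continuousAt.comp hf))
  have hgv : a + A * (s (c0, X0).1).re = a + A * u0.re := by rw [h0]
  by_cases hu : u0 ∈ SN
  · rcases lt_or_gt_of_ne (hX hu) with h | h
    · have h1 : ∀ᶠ p in 𝓝 (c0, X0), a + A * (s p.1).re < p.2 :=
        hg.eventually_lt continuousAt_snd (by rw [hgv]; exact h)
      filter_upwards [h1] with p hp
      rw [if_neg (not_le.2 hp), if_neg (not_le.2 h)]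
    · have h1 : ∀ᶠ p in 𝓝 (c0, X0), p.2 < a + A * (s p.1).re :=
        continuousAt_snd.eventually_lt hg (by rw [hgv]; exact h)
      filter_upwards [h1] with p hp
      rw [if_pos hp.le, if_pos h.le]
  · have h1 : ∀ᶠ w in 𝓝 u0, Nf w = 0 := by
      have h2 : SNᶜ ∈ 𝓝 u0 := isClosed_closure.isOpen_compl.mem_nhds hu
      filter_upwards [h2] with w hw
      by_contra h3
      exact hw (subset_closure h3)
    have h2 : ∀ᶠ p in 𝓝 (c0, X0), Nf (s p.1) = 0 := by
      have h3 : ∀ᶠ w in 𝓝 (s (c0, X0).1), Nf w = 0 := by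
        change ∀ᶠ w in 𝓝 (s c0), Nf w = 0
        rw [h0]
        exact h1
      exact hf.eventually h3
    filter_upwards [h2] with p hp
    rw [hp, ite_self, ite_self]

theorem two {P Q : Prop} [Decidable P] [Decidable Q] (h : P → Q) (x : ℂ) :
    (if P then (0 : ℂ) else if Q then x else 0) = (if P then 0 else x) + if Q then 0 else -x := by
  by_cases hP : P
  · rw [if_pos hP, if_pos hP, if_pos (h hP), add_zero]
  · by_cases hQ : Q
    · rw [if_neg hP, if_neg hP, if_pos hQ, if_pos hQ, add_zero]
    · rw [if_neg hP, if_neg hP, if_neg hQ, if_neg hQ, add_neg_cancel]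

theorem three {P Q R : Prop} [Decidable P] [Decidable Q] [Decidable R] (h : P → Q) (h' : Q → R)
    (x y : ℂ) : (if P then (0 : ℂ) else if Q then x else if R then y else 0) =
      (if P then 0 else x) + (if Q then 0 else y - x) + if R then 0 else -y := by
  by_cases hP : P
  · rw [if_pos hP, if_pos hP, if_pos (h hP), if_pos (h' (h hP)), add_zero, add_zero]
  · by_cases hQ : Q
    · rw [if_neg hP, if_neg hP, if_pos hQ, if_pos hQ, if_pos (h' hQ), add_zero, add_zero]
    · by_cases hR : R
      · rw [if_neg hP, if_neg hP, if_neg hQ, if_neg hQ, if_pos hR, if_pos hR]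
        ring
      · rw [if_neg hP, if_neg hP, if_neg hQ, if_neg hQ, if_neg hR, if_neg hR]
        ring

end LocCAux

open LocCAux

theorem tLocC : S_Ex → S_Ord → S_Nv → S_LocC := by
  intro hEx hOrd hNv a A hA c0 X0 him hX
  rcases lt_or_gt_of_ne him with hc | hc
  · obtain ⟨⟨u2, hu2, hp2⟩, ⟨u4, hu4, hp4⟩⟩ := hEx.2 c0 hc
    obtain ⟨s2, hs2, h02, he2⟩ := inv open2 hu2 hu2.1 hp2
    obtain ⟨s4, hs4, h04, he4⟩ := inv open4 hu4 hu4.1 hp4
    have ht2 := term hs2 h02 (fun h => hX u2 h hp2)
    have ht4 := term hs4 h04 (fun h => hX u4 h hp4)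
    refine ⟨if X0 ≤ a + A * u2.re then 0 else if X0 ≤ a + A * u4.re then nL else 0,
      Or.inl ⟨hc, ?_⟩, ?_⟩
    · split_ifs
      · exact Or.inl rfl
      · exact Or.inr rfl
      · exact Or.inl rfl
    · have he2' := (continuousAt_fst (p := (c0, X0))).eventually he2
      have he4' := (continuousAt_fst (p := (c0, X0))).eventually he4
      filter_upwards [ht2, ht4, he2', he4'] with p k2 k4 ⟨m2, q2⟩ ⟨m4, q4⟩
      have h1 := (hNv a A hA).2 (s2 p.1) m2 (s4 p.1) m4 (q4.trans q2.symm) p.2
      rw [q2] at h1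
      have hQ : X0 ≤ a + A * u2.re → X0 ≤ a + A * u4.re := fun h => by
        have h2 : A * u2.re < A * u4.re :=
          mul_lt_mul_of_pos_left (hu2.2.2.trans hu4.2.2) hA
        linarith
      have hP : p.2 ≤ a + A * (s2 p.1).re → p.2 ≤ a + A * (s4 p.1).re := fun h => by
        have h2 : A * (s2 p.1).re < A * (s4 p.1).re :=
          mul_lt_mul_of_pos_left (m2.2.2.trans m4.2.2) hA
        linarith
      have h3 : (if X0 ≤ a + A * u2.re then (0 : ℂ → ℂ) else
          if X0 ≤ a + A * u4.re then nL else 0) p.1 =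
          if X0 ≤ a + A * u2.re then (0 : ℂ) else if X0 ≤ a + A * u4.re then nL p.1 else 0 := by
        split_ifs <;> rfl
      rw [Nf_C2 m2, q2] at k2
      rw [Nf_C4 m4, q4] at k4
      rw [h1, h3, two hP, two hQ, k2, k4]
  · obtain ⟨⟨u1, hu1, hp1⟩, ⟨u3, hu3, hp3⟩, ⟨u5, hu5, hp5⟩⟩ := hEx.1 c0 hc
    obtain ⟨s1, hs1, h01, he1⟩ := inv open1 hu1 hu1.1 hp1
    obtain ⟨s3, hs3, h03, he3⟩ := inv open3 hu3 hu3.1 hp3
    obtain ⟨s5, hs5, h05, he5⟩ := inv open5 hu5 hu5.1 hp5
    have ht1 := term hs1 h01 (fun h => hX u1 h hp1)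
    have ht3 := term hs3 h03 (fun h => hX u3 h hp3)
    have ht5 := term hs5 h05 (fun h => hX u5 h hp5)
    refine ⟨if X0 ≤ a + A * u1.re then 0 else if X0 ≤ a + A * u3.re then nA else
      if X0 ≤ a + A * u5.re then nB else 0, Or.inr ⟨hc, ?_⟩, ?_⟩
    · split_ifs
      · exact Or.inl rfl
      · exact Or.inr (Or.inl rfl)
      · exact Or.inr (Or.inr rfl)
      · exact Or.inl rfl
    · have he1' := (continuousAt_fst (p := (c0, X0))).eventually he1
      have he3' := (continuousAt_fst (p := (c0, X0))).eventually he3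
      have he5' := (continuousAt_fst (p := (c0, X0))).eventually he5
      filter_upwards [ht1, ht3, ht5, he1', he3', he5'] with p k1 k3 k5 ⟨m1, q1⟩ ⟨m3, q3⟩ ⟨m5, q5⟩
      have h1 := (hNv a A hA).1 (s1 p.1) m1 (s3 p.1) m3 (s5 p.1) m5 (q3.trans q1.symm)
        (q5.trans q1.symm) p.2
      rw [q1] at h1
      have hQ1 : X0 ≤ a + A * u1.re → X0 ≤ a + A * u3.re := fun h => by
        have h2 := mul_lt_mul_of_pos_left ((hOrd u3 hu3).2 u1 hu1 (hp1.trans hp3.symm)) hA
        linarith
      have hQ3 : X0 ≤ a + A * u3.re → X0 ≤ a + A * u5.re := fun h => by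
        have h2 := mul_lt_mul_of_pos_left ((hOrd u3 hu3).1 u5 hu5 (hp5.trans hp3.symm)) hA
        linarith
      have hP1 : p.2 ≤ a + A * (s1 p.1).re → p.2 ≤ a + A * (s3 p.1).re := fun h => by
        have h2 := mul_lt_mul_of_pos_left ((hOrd _ m3).2 _ m1 (q1.trans q3.symm)) hA
        linarith
      have hP3 : p.2 ≤ a + A * (s3 p.1).re → p.2 ≤ a + A * (s5 p.1).re := fun h => by
        have h2 := mul_lt_mul_of_pos_left ((hOrd _ m3).1 _ m5 (q5.trans q3.symm)) hA
        linarith
      have h3 : (if X0 ≤ a + A * u1.re then (0 : ℂ → ℂ) else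
          if X0 ≤ a + A * u3.re then nA else if X0 ≤ a + A * u5.re then nB else 0) p.1 =
          if X0 ≤ a + A * u1.re then (0 : ℂ) else if X0 ≤ a + A * u3.re then nA p.1 else
            if X0 ≤ a + A * u5.re then nB p.1 else 0 := by
        split_ifs <;> rfl
      rw [Nf_C1 m1, q1] at k1
      rw [Nf_C3 m3, q3] at k3
      rw [Nf_C5 m5, q5] at k5
      rw [h1, h3, three hP1 hP3, three hQ1 hQ3, k1, k3, k5]

end LC465
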