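import Pool.Agent.Lib.LC465.Spec

/-!
# LC465: local form of `NN`, general case (`S_LocG`)
-/

set_option autoImplicit false

open Metric Set Filter Topology

namespace LC465

namespace LocGAux

/-- fibres of `psi` are finite -/
private lemma fib_finite (c : ℂ) : {u : ℂ | psi u = c}.Finite := by
  classical
  let p : Polynomial ℂ := Polynomial.C 3 * Polynomial.X ^ 5 - Polynomial.C 10 * Polynomial.X ^ 3
    + Polynomial.C 15 * Polynomial.X + Polynomial.C (8 * c)
  have hp : p ≠ 0 := by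
    intro h
    have h1 : p.coeff 5 = 0 := by rw [h, Polynomial.coeff_zero]
    have h2 : p.coeff 5 = 3 := by
      simp only [p, Polynomial.coeff_add, Polynomial.coeff_sub, Polynomial.coeff_C_mul,
        Polynomial.coeff_X_pow, Polynomial.coeff_X, Polynomial.coeff_C]
      norm_num
    rw [h2] at h1
    norm_num at h1
  refine (p.roots.toFinset.finite_toSet).subset ?_
  intro u hu
  have hu' : psi u = c := hu
  simp only [Finset.mem_coe, Multiset.mem_toFinset]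
  rw [Polynomial.mem_roots hp, Polynomial.IsRoot.def]
  simp only [p, Polynomial.eval_add, Polynomial.eval_sub, Polynomial.eval_mul, Polynomial.eval_C,
    Polynomial.eval_pow, Polynomial.eval_X]
  rw [← hu']
  unfold psi
  ring

private lemma strict (u : ℂ) : HasStrictDerivAt psi (-(15 / 8) * (u ^ 2 - 1) ^ 2) u := by
  have h : ContDiff ℂ 1 psi := by
    unfold psi
    fun_prop
  exact h.contDiffAt.hasStrictDerivAt' (hasDerivAt_psi u) (by norm_num)

/-- local data at a point over `c0` -/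
private lemma key (hNl : S_Nl) (a A X0 : ℝ) (r : ℂ) (hr : r.im < 0) (hX : a + A * r.re ≠ X0) :
    ∃ (n s : ℂ → ℂ) (V : Set ℂ) (ε : ℝ), ContDiff ℝ 1 n ∧ IsOpen V ∧ r ∈ V ∧ 0 < ε ∧
      (∀ u ∈ V, s (psi u) = u) ∧ (∀ u ∈ V, Nf u = n (psi u)) ∧
      (∀ u ∈ V, ∀ X : ℝ, |X - X0| < ε → (a + A * u.re < X ↔ a + A * r.re < X0)) ∧
      ContinuousAt s (psi r) ∧ s (psi r) = r ∧ ∀ᶠ c in 𝓝 (psi r), psi (s c) = c := by
  obtain ⟨n, hn, hn'⟩ := hNl r hr
  have hs := (strict r).hasStrictFDerivAt_equiv (dpsi_ne hr)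
  have h1 := hs.eventually_left_inverse
  have h2 := hs.eventually_right_inverse
  have h3 := hs.localInverse_continuousAt
  have h4 := hs.localInverse_apply_image
  have h5 : ∀ᶠ p : ℂ × ℝ in 𝓝 (r, X0), (a + A * p.1.re < p.2 ↔ a + A * r.re < X0) := by
    have hc : Continuous (fun p : ℂ × ℝ => p.2 - (a + A * p.1.re)) := by fun_prop
    rcases lt_or_gt_of_ne hX with h | h
    · have h6 : ∀ᶠ p : ℂ × ℝ in 𝓝 (r, X0), 0 < p.2 - (a + A * p.1.re) :=
        hc.continuousAt.eventually (lt_mem_nhds (by simpa using h))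
      filter_upwards [h6] with p hp
      exact ⟨fun _ => h, fun _ => by linarith⟩
    · have h6 : ∀ᶠ p : ℂ × ℝ in 𝓝 (r, X0), p.2 - (a + A * p.1.re) < 0 :=
        hc.continuousAt.eventually (gt_mem_nhds (by simpa using h))
      filter_upwards [h6] with p hp
      exact ⟨fun h' => by linarith, fun h' => by linarith⟩
  rw [nhds_prod_eq, Filter.eventually_prod_iff] at h5
  obtain ⟨pa, hpa, pb, hpb, hpp⟩ := h5
  obtain ⟨ε, hε, hpb'⟩ := Metric.eventually_nhds_iff.1 hpb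
  have h7 := (h1.and (hn'.and hpa))
  obtain ⟨V, hV, hVo, hrV⟩ := _root_.eventually_nhds_iff.1 h7
  refine ⟨n, hs.localInverse psi _ r, V, ε, hn, hVo, hrV, hε, fun u hu => (hV u hu).1,
    fun u hu => (hV u hu).2.1, ?_, h3, h4, h2⟩
  intro u hu X hXX
  exact hpp (hV u hu).2.2 (hpb' (by rw [Real.dist_eq]; exact hXX))

end LocGAux

open LocGAux in
theorem tLocG : S_Nl → S_Nk → S_LocG := by
  classical
  intro hNl hNk a A c0 X0 hSN
  obtain ⟨hcomp, him, -⟩ := hNk
  have hfin : {u : ℂ | u ∈ SN ∧ psi u = c0}.Finite := (fib_finite c0).subset (fun u hu => hu.2)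
  have hk : ∀ r : ℂ, ∃ (n s : ℂ → ℂ) (V : Set ℂ) (ε : ℝ), (r ∈ SN ∧ psi r = c0) →
      ContDiff ℝ 1 n ∧ IsOpen V ∧ r ∈ V ∧ 0 < ε ∧
      (∀ u ∈ V, s (psi u) = u) ∧ (∀ u ∈ V, Nf u = n (psi u)) ∧
      (∀ u ∈ V, ∀ X : ℝ, |X - X0| < ε → (a + A * u.re < X ↔ a + A * r.re < X0)) ∧
      ContinuousAt s c0 ∧ s c0 = r ∧ ∀ᶠ c in 𝓝 c0, psi (s c) = c := by
    intro r
    by_cases hr : r ∈ SN ∧ psi r = c0
    · obtain ⟨n, s, V, ε, h⟩ := key hNl a A X0 r (him r hr.1).1 (hSN r hr.1 hr.2)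
      rw [hr.2] at h
      exact ⟨n, s, V, ε, fun _ => h⟩
    · exact ⟨0, 0, ∅, 0, fun h => absurd h hr⟩
  choose n s V ε hk using hk
  obtain ⟨W, hW, hWd⟩ := hfin.t2_separation
  set S0 : Finset ℂ := hfin.toFinset with hS0
  have hmem : ∀ r, r ∈ S0 ↔ (r ∈ SN ∧ psi r = c0) := by
    intro r
    rw [hS0, Set.Finite.mem_toFinset]
    rfl
  set T : Finset ℂ := S0.filter (fun r => a + A * r.re < X0) with hT
  -- the claim
  have hclaim : ∀ᶠ c in 𝓝 c0, ∀ u, psi u = c → Nf u ≠ 0 → ∃ r ∈ S0, u ∈ V r ∩ W r := by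
    have hU : IsOpen (⋃ r ∈ S0, (V r ∩ W r)) := by
      refine isOpen_biUnion fun r hr => ?_
      exact (hk r ((hmem r).1 hr)).2.1.inter (hW r).2
    have hK : IsCompact (SN \ ⋃ r ∈ S0, (V r ∩ W r)) := hcomp.diff hU
    have hcl : IsClosed (psi '' (SN \ ⋃ r ∈ S0, (V r ∩ W r))) :=
      (hK.image continuous_psi).isClosed
    have hc0 : c0 ∈ (psi '' (SN \ ⋃ r ∈ S0, (V r ∩ W r)))ᶜ := by
      rintro ⟨w, ⟨hw1, hw2⟩, hw3⟩
      apply hw2
      have hw : w ∈ S0 := (hmem w).2 ⟨hw1, hw3⟩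
      exact Set.mem_biUnion hw ⟨(hk w ⟨hw1, hw3⟩).2.2.1, (hW w).1⟩
    filter_upwards [hcl.isOpen_compl.mem_nhds hc0] with c hc u hu hNu
    by_contra hcon
    push Not at hcon
    apply hc
    refine ⟨u, ⟨subset_closure hNu, ?_⟩, hu⟩
    intro hu2
    obtain ⟨r, hr, hur⟩ := Set.mem_iUnion₂.1 hu2
    exact hcon r hr hur
  -- the local inverses
  have hloc : ∀ᶠ c in 𝓝 c0, ∀ r ∈ S0, s r c ∈ V r ∩ W r ∧ psi (s r c) = c := by
    rw [Filter.eventually_all_finset]
    intro r hr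
    obtain ⟨-, hVo, hrV, -, -, -, -, hcont, hsr, hri⟩ := hk r ((hmem r).1 hr)
    have h1 : V r ∩ W r ∈ 𝓝 (s r c0) := by
      rw [hsr]
      exact (hVo.inter (hW r).2).mem_nhds ⟨hrV, (hW r).1⟩
    exact (hcont.eventually h1).and hri
  -- the values of `X`
  have hXX : ∀ᶠ X : ℝ in 𝓝 X0, ∀ r ∈ S0, |X - X0| < ε r := by
    rw [Filter.eventually_all_finset]
    intro r hr
    have h1 := (hk r ((hmem r).1 hr)).2.2.2.1
    filter_upwards [Metric.ball_mem_nhds X0 h1] with X hX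
    rwa [Metric.mem_ball, Real.dist_eq] at hX
  refine ⟨fun c => ∑ r ∈ T, n r c, ?_, ?_⟩
  · refine ContDiff.sum fun r hr => ?_
    exact (hk r ((hmem r).1 (Finset.mem_of_mem_filter r hr))).1
  · rw [nhds_prod_eq, Filter.eventually_prod_iff]
    refine ⟨_, hclaim.and hloc, _, hXX, ?_⟩
    rintro c ⟨hc1, hc2⟩ X hX
    change NN a A c X = ∑ r ∈ T, n r c
    have h1 : NN a A c X = ∑ᶠ u ∈ {u : ℂ | psi u = c ∧ a + A * u.re < X}, Nf u := rfl
    rw [h1, finsum_mem_eq_sum_of_inter_support_eq Nf (t := T.image (fun r => s r c)) ?_]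
    · rw [Finset.sum_image]
      · refine Finset.sum_congr rfl fun r hr => ?_
        have hr0 : r ∈ S0 := Finset.mem_of_mem_filter r hr
        obtain ⟨h2, h3⟩ := hc2 r hr0
        rw [(hk r ((hmem r).1 hr0)).2.2.2.2.2.1 _ h2.1, h3]
      · intro r hr r' hr' he
        have hr0 : r ∈ S0 := Finset.mem_of_mem_filter r hr
        have hr0' : r' ∈ S0 := Finset.mem_of_mem_filter r' hr'
        by_contra hne
        have h2 := hWd ((hmem r).1 hr0) ((hmem r').1 hr0') hne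
        have h3 := (hc2 r hr0).1.2
        have h4 := (hc2 r' hr0').1.2
        have he' : s r c = s r' c := he
        rw [← he'] at h4
        exact Set.disjoint_left.1 h2 h3 h4
    · ext u
      simp only [Set.mem_inter_iff, Set.mem_ofPred_eq, Function.mem_support, Finset.coe_image,
        Set.mem_image, Finset.mem_coe]
      constructor
      · rintro ⟨⟨h2, h3⟩, h4⟩
        refine ⟨?_, h4⟩
        obtain ⟨r, hr, hur⟩ := hc1 u h2 h4
        have hkr := hk r ((hmem r).1 hr)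
        have h5 : s r c = u := by
          rw [← h2]
          exact hkr.2.2.2.2.1 u hur.1
        refine ⟨r, ?_, h5⟩
        rw [hT, Finset.mem_filter]
        exact ⟨hr, (hkr.2.2.2.2.2.2.1 u hur.1 X (hX r hr)).1 h3⟩
      · rintro ⟨⟨r, hr, h5⟩, h4⟩
        rw [hT, Finset.mem_filter] at hr
        obtain ⟨h6, h7⟩ := hc2 r hr.1
        rw [h5] at h6 h7
        have hkr := hk r ((hmem r).1 hr.1)
        exact ⟨⟨h7, (hkr.2.2.2.2.2.2.1 u h6.1 X (hX r hr.1)).2 hr.2⟩, h4⟩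

end LC465
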