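import Pool.Agent.Lib.LC465.Spec2

/-!
# LC465, Mx: maximum principle on the annulus
-/

set_option autoImplicit false

open Metric Set Filter Topology

namespace LC465

open Pool.Agent.Lib.MP_465591_an

namespace MxAux

/-- The open annulus. -/
def U (a b : ℝ) : Set ℂ := {x | a < ‖x‖ ∧ ‖x‖ < b}

theorem isOpen_U (a b : ℝ) : IsOpen (U a b) :=
  (isOpen_lt continuous_const continuous_norm).inter (isOpen_lt continuous_norm continuous_const)

theorem closure_U (a b : ℝ) : closure (U a b) ⊆ {x | a ≤ ‖x‖ ∧ ‖x‖ ≤ b} := by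
  apply closure_minimal
  · intro x hx
    exact ⟨hx.1.le, hx.2.le⟩
  · exact (isClosed_le continuous_const continuous_norm).inter
      (isClosed_le continuous_norm continuous_const)

theorem frontier_U (a b : ℝ) (x : ℂ) (hx : x ∈ frontier (U a b)) : ‖x‖ = a ∨ ‖x‖ = b := by
  rw [frontier, (isOpen_U a b).interior_eq] at hx
  obtain ⟨h1, h2⟩ := closure_U a b hx.1
  by_contra hcon
  have h3 : ‖x‖ ≠ a := fun h => hcon (Or.inl h)
  have h4 : ‖x‖ ≠ b := fun h => hcon (Or.inr h)
  exact hx.2 ⟨lt_of_le_of_ne h1 (Ne.symm h3), lt_of_le_of_ne h2 h4⟩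

theorem bounded_U (a b : ℝ) : Bornology.IsBounded (U a b) := by
  refine (isBounded_ball (x := (0 : ℂ)) (r := b)).subset ?_
  intro x hx
  rw [mem_ball_zero_iff]
  exact hx.2

end MxAux

open MxAux in
theorem tMx (h1 : S_Inv) : S_Mx := by
  intro a b ρ γ f ha hab hρ hγ hf hinj hbd himg x hx hx'
  obtain ⟨hopen, g, hg, hgf⟩ := h1 2 f (ball 0 1) isOpen_ball hf hinj
  have hdiff : DifferentiableOn ℂ (fun x : ℂ => g (γ x)) (closure (U a b)) := by
    refine hg.comp (t := f '' ball 0 1) ?_ ?_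
    · refine hγ.mono fun y hy => ?_
      have h3 := (closure_U a b hy).1
      intro hy0
      rw [hy0, norm_zero] at h3
      linarith
    · intro y hy
      exact himg y (closure_U a b hy).1 (closure_U a b hy).2
  have hdc : DiffContOnCl ℂ (fun x : ℂ => g (γ x)) (U a b) := hdiff.diffContOnCl
  have hbdry : ∀ y : ℂ, ‖y‖ = a ∨ ‖y‖ = b → ‖g (γ y)‖ ≤ ρ := by
    intro y hy
    obtain ⟨z, hzρ, hzy⟩ := hbd y hy
    have hz1 : z ∈ ball (0 : Cn 2) 1 := by
      rw [mem_ball_zero_iff]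
      linarith
    rw [← hzy, hgf z hz1]
    exact hzρ
  have hall : ‖g (γ x)‖ ≤ ρ := by
    by_cases hxa : ‖x‖ = a ∨ ‖x‖ = b
    · exact hbdry x hxa
    · have h3 : x ∈ U a b := by
        refine ⟨lt_of_le_of_ne hx fun h => hxa (Or.inl h.symm), lt_of_le_of_ne hx' fun h =>
          hxa (Or.inr h)⟩
      exact Complex.norm_le_of_forall_mem_frontier_norm_le (bounded_U a b) hdc
        (fun y hy => hbdry y (frontier_U a b y hy)) (subset_closure h3)
  obtain ⟨z, hz, hzx⟩ := himg x hx hx'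
  refine ⟨g (γ x), hall, ?_⟩
  rw [← hzx, hgf z hz]

end LC465
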