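import Pool.Agent.Lib.LC465.Spec

set_option autoImplicit false

open Metric Set Filter Topology

namespace LC465

open Pool.Agent.Lib.MP_465591_an

namespace N1Aux

theorem nsq (p q : ℝ) : ‖(⟨p, q⟩ : ℂ)‖ ^ 2 = p ^ 2 + q ^ 2 := by
  rw [Complex.sq_norm, Complex.normSq_mk]; ring

theorem sq5 (h v k : ℝ) (hh : v ≠ 0 → h ^ 2 * (15 / 8) ≤ k) (h0 : 0 ≤ v) (h1 : v ≤ 15 / 8) :
    (h * v) ^ 2 ≤ k * v := by
  by_cases hv : v = 0
  · rw [hv]; simp
  · have := hh hv
    have h2 : h ^ 2 * v ≤ k := le_trans (mul_le_mul_of_nonneg_left h1 (sq_nonneg h)) this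
    calc (h * v) ^ 2 = (h ^ 2 * v) * v := by ring
      _ ≤ k * v := mul_le_mul_of_nonneg_right h2 h0

theorem mul_bd {p q : ℝ} (hp : 0 ≤ p) (hp1 : p ≤ 15 / 8) (hq : 0 ≤ q) (hq1 : q ≤ 1) :
    0 ≤ p * q ∧ p * q ≤ 15 / 8 :=
  ⟨mul_nonneg hp hq, by nlinarith⟩

/-- real-variable inequality for the field `nR` -/
theorem ineqR (hB : S_Bmp) (x y : ℝ) (hy : y ≤ 4) :
    (Hb x * bet (y + 5 / 2) * Bt x * (1 - Bt (x - 5 / 2))) ^ 2 +
      (Bt (y + 5 / 2) * (Vr y * bet (x - 5 / 2) - Vm y * bet x)) ^ 2 ≤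
    300 * (bet (y + 5 / 2) * Bt x * (1 - Bt (x - 5 / 2)) / 60
      + Hb x * bet (y + 5 / 2) * (bet x * (1 - Bt (x - 5 / 2)) - Bt x * bet (x - 5 / 2))
      + bet (y + 5 / 2) * (Vr y * bet (x - 5 / 2) - Vm y * bet x)
      + Bt (y + 5 / 2) * (bet (x - 5 / 2) + bet x) / 60) := by
  obtain ⟨-, -, -, hb, hb0, hB0, hB1, -⟩ := hB
  obtain ⟨hx1, hx2, hx3, hx4, -, -⟩ := hb x
  obtain ⟨hq1, hq2, hq3, hq4, -, -⟩ := hb (y + 5 / 2)
  obtain ⟨hz1, hz2, hz3, hz4, -, -⟩ := hb (x - 5 / 2)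
  have hq : bet (y + 5 / 2) ≠ 0 → -3 < y ∧ y < -2 := by
    intro h
    have h1 : |y + 5 / 2| < 1 / 2 := by
      by_contra hc
      exact h (hb0 _ (not_lt.1 hc))
    obtain ⟨h2, h3⟩ := abs_lt.1 h1
    constructor <;> linarith
  have hT : Bt (y + 5 / 2) ≠ 0 → -3 < y := by
    intro h
    by_contra hc
    exact h (hB0 _ (by linarith [not_lt.1 hc]))
  by_cases hP : bet x = 0
  · by_cases hQ : bet (x - 5 / 2) = 0
    · rw [hP, hQ]
      have hv := mul_bd (mul_bd hq1 hq2 hx3 hx4).1 (mul_bd hq1 hq2 hx3 hx4).2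
        (sub_nonneg.2 hz4) (by linarith : 1 - Bt (x - 5 / 2) ≤ 1)
      have h1 := sq5 (Hb x) (bet (y + 5 / 2) * Bt x * (1 - Bt (x - 5 / 2))) 5 ?_ hv.1 hv.2
      · nlinarith [h1]
      · intro hne
        have h2 : Bt x ≠ 0 := fun h => hne (by rw [h]; ring)
        have h3 : 1 - Bt (x - 5 / 2) ≠ 0 := fun h => hne (by rw [h]; ring)
        have h4 : -(1 / 2) < x := by
          by_contra hc
          exact h2 (hB0 _ (not_lt.1 hc))
        have h5 : x - 5 / 2 < 1 / 2 := by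
          by_contra hc
          exact h3 (by rw [hB1 _ (not_lt.1 hc)]; ring)
        unfold Hb
        nlinarith
    · have h1 : |x - 5 / 2| < 1 / 2 := by
        by_contra hc
        exact hQ (hb0 _ (not_lt.1 hc))
      obtain ⟨h2, h3⟩ := abs_lt.1 h1
      have h4 : Bt x = 1 := hB1 _ (by linarith)
      rw [hP, h4]
      have hv := mul_bd hq1 hq2 (sub_nonneg.2 hz4) (by linarith : 1 - Bt (x - 5 / 2) ≤ 1)
      have hw := mul_bd hz1 hz2 hq3 hq4
      have e1 := sq5 (Hb x) (bet (y + 5 / 2) * (1 - Bt (x - 5 / 2))) 5 ?_ hv.1 hv.2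
      · have e2 := sq5 (Vr y) (bet (x - 5 / 2) * Bt (y + 5 / 2)) 5 ?_ hw.1 hw.2
        · have e3 : 0 ≤ bet (y + 5 / 2) * bet (x - 5 / 2) * (Vr y - Hb x) := by
            by_cases h5 : bet (y + 5 / 2) = 0
            · rw [h5]; simp
            · obtain ⟨h6, h7⟩ := hq h5
              refine mul_nonneg (mul_nonneg hq1 hz1) ?_
              unfold Vr Hb
              linarith
          nlinarith [e1, e2, e3]
        · intro hne
          have h5 : -3 < y := hT fun h => hne (by rw [h]; ring)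
          unfold Vr
          nlinarith
      · intro _
        unfold Hb
        nlinarith
  · have h1 : |x| < 1 / 2 := by
      by_contra hc
      exact hP (hb0 _ (not_lt.1 hc))
    obtain ⟨h2, h3⟩ := abs_lt.1 h1
    have h4 : Bt (x - 5 / 2) = 0 := hB0 _ (by linarith)
    have h5 : bet (x - 5 / 2) = 0 := hb0 _ (by rw [le_abs]; right; linarith)
    rw [h4, h5]
    have hv := mul_bd hq1 hq2 hx3 hx4
    have hw := mul_bd hx1 hx2 hq3 hq4
    have e1 := sq5 (Hb x) (bet (y + 5 / 2) * Bt x) 5 ?_ hv.1 hv.2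
    · have e2 := sq5 (Vm y) (bet x * Bt (y + 5 / 2)) 5 ?_ hw.1 hw.2
      · have e3 : 0 ≤ bet (y + 5 / 2) * bet x * (Hb x - Vm y) := by
          by_cases h5 : bet (y + 5 / 2) = 0
          · rw [h5]; simp
          · obtain ⟨h6, h7⟩ := hq h5
            refine mul_nonneg (mul_nonneg hq1 hx1) ?_
            unfold Vm Hb
            linarith
        nlinarith [e1, e2, e3]
      · intro hne
        have h5 : -3 < y := hT fun h => hne (by rw [h]; ring)
        unfold Vm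
        nlinarith
    · intro _
      unfold Hb
      nlinarith

/-- real-variable inequality for the field `nB` -/
theorem ineqB (hB : S_Bmp) (x y : ℝ) (hy : -4 ≤ y) :
    (-(Ht x * bet (y - 5 / 2) * Bt x * (1 - Bt (x - 5 / 2)))) ^ 2 +
      ((1 - Bt (y - 5 / 2)) * (Vr y * bet (x - 5 / 2) - 2 * Vm y * bet x)) ^ 2 ≤
    300 * (bet (y - 5 / 2) * Bt x * (1 - Bt (x - 5 / 2)) / 60
      - Ht x * bet (y - 5 / 2) * (bet x * (1 - Bt (x - 5 / 2)) - Bt x * bet (x - 5 / 2))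
      - bet (y - 5 / 2) * (Vr y * bet (x - 5 / 2) - 2 * Vm y * bet x)
      + (1 - Bt (y - 5 / 2)) * (bet (x - 5 / 2) + 2 * bet x) / 60) := by
  obtain ⟨-, -, -, hb, hb0, hB0, hB1, -⟩ := hB
  obtain ⟨hx1, hx2, hx3, hx4, -, -⟩ := hb x
  obtain ⟨hq1, hq2, hq3, hq4, -, -⟩ := hb (y - 5 / 2)
  obtain ⟨hz1, hz2, hz3, hz4, -, -⟩ := hb (x - 5 / 2)
  have hq : bet (y - 5 / 2) ≠ 0 → 2 < y ∧ y < 3 := by
    intro h
    have h1 : |y - 5 / 2| < 1 / 2 := by
      by_contra hc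
      exact h (hb0 _ (not_lt.1 hc))
    obtain ⟨h2, h3⟩ := abs_lt.1 h1
    constructor <;> linarith
  have hT : 1 - Bt (y - 5 / 2) ≠ 0 → y < 3 := by
    intro h
    by_contra hc
    exact h (by rw [hB1 _ (by linarith [not_lt.1 hc])]; ring)
  have hT1 : 0 ≤ 1 - Bt (y - 5 / 2) := by linarith
  have hT2 : 1 - Bt (y - 5 / 2) ≤ 1 := by linarith
  by_cases hP : bet x = 0
  · by_cases hQ : bet (x - 5 / 2) = 0
    · rw [hP, hQ]
      have hv := mul_bd (mul_bd hq1 hq2 hx3 hx4).1 (mul_bd hq1 hq2 hx3 hx4).2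
        (sub_nonneg.2 hz4) (by linarith : 1 - Bt (x - 5 / 2) ≤ 1)
      have h1 := sq5 (Ht x) (bet (y - 5 / 2) * Bt x * (1 - Bt (x - 5 / 2))) 5 ?_ hv.1 hv.2
      · nlinarith [h1]
      · intro hne
        have h2 : Bt x ≠ 0 := fun h => hne (by rw [h]; ring)
        have h3 : 1 - Bt (x - 5 / 2) ≠ 0 := fun h => hne (by rw [h]; ring)
        have h4 : -(1 / 2) < x := by
          by_contra hc
          exact h2 (hB0 _ (not_lt.1 hc))
        have h5 : x - 5 / 2 < 1 / 2 := by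
          by_contra hc
          exact h3 (by rw [hB1 _ (not_lt.1 hc)]; ring)
        unfold Ht
        nlinarith
    · have h1 : |x - 5 / 2| < 1 / 2 := by
        by_contra hc
        exact hQ (hb0 _ (not_lt.1 hc))
      obtain ⟨h2, h3⟩ := abs_lt.1 h1
      have h4 : Bt x = 1 := hB1 _ (by linarith)
      rw [hP, h4]
      have hv := mul_bd hq1 hq2 (sub_nonneg.2 hz4) (by linarith : 1 - Bt (x - 5 / 2) ≤ 1)
      have hw := mul_bd hz1 hz2 hT1 hT2
      have e1 := sq5 (Ht x) (bet (y - 5 / 2) * (1 - Bt (x - 5 / 2))) 5 ?_ hv.1 hv.2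
      · have e2 := sq5 (Vr y) (bet (x - 5 / 2) * (1 - Bt (y - 5 / 2))) 5 ?_ hw.1 hw.2
        · have e3 : 0 ≤ bet (y - 5 / 2) * bet (x - 5 / 2) * (Ht x - Vr y) := by
            by_cases h5 : bet (y - 5 / 2) = 0
            · rw [h5]; simp
            · obtain ⟨h6, h7⟩ := hq h5
              refine mul_nonneg (mul_nonneg hq1 hz1) ?_
              unfold Vr Ht
              linarith
          nlinarith [e1, e2, e3]
        · intro hne
          have h5 : y < 3 := hT fun h => hne (by rw [h]; ring)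
          unfold Vr
          nlinarith
      · intro _
        unfold Ht
        nlinarith
  · have h1 : |x| < 1 / 2 := by
      by_contra hc
      exact hP (hb0 _ (not_lt.1 hc))
    obtain ⟨h2, h3⟩ := abs_lt.1 h1
    have h4 : Bt (x - 5 / 2) = 0 := hB0 _ (by linarith)
    have h5 : bet (x - 5 / 2) = 0 := hb0 _ (by rw [le_abs]; right; linarith)
    rw [h4, h5]
    have hv := mul_bd hq1 hq2 hx3 hx4
    have hw := mul_bd hx1 hx2 hT1 hT2
    have e1 := sq5 (Ht x) (bet (y - 5 / 2) * Bt x) 5 ?_ hv.1 hv.2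
    · have e2 := sq5 (2 * Vm y) (bet x * (1 - Bt (y - 5 / 2))) 10 ?_ hw.1 hw.2
      · have e3 : 0 ≤ bet (y - 5 / 2) * bet x * (2 * Vm y - Ht x) := by
          by_cases h5 : bet (y - 5 / 2) = 0
          · rw [h5]; simp
          · obtain ⟨h6, h7⟩ := hq h5
            refine mul_nonneg (mul_nonneg hq1 hx1) ?_
            unfold Vm Ht
            linarith
        nlinarith [e1, e2, e3]
      · intro hne
        have h5 : y < 3 := hT fun h => hne (by rw [h]; ring)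
        unfold Vm
        nlinarith
    · intro _
      unfold Ht
      nlinarith

theorem dv_add {m n : ℂ → ℂ} (hm : ContDiff ℝ 1 m) (hn : ContDiff ℝ 1 n) (c : ℂ) :
    dv (fun z => m z + n z) c = dv m c + dv n c := by
  have h : fderiv ℝ (fun z => m z + n z) c = fderiv ℝ m c + fderiv ℝ n c :=
    fderiv_fun_add (hm.differentiable one_ne_zero c) (hn.differentiable one_ne_zero c)
  unfold dv
  rw [h]
  simp only [_root_.add_apply, Complex.add_re, Complex.add_im]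
  ring

theorem nR_bd (hB : S_Bmp) (hD : S_Dv) {c : ℂ} (hc : c.im ≤ 4) : ‖nR c‖ ^ 2 ≤ 300 * dv nR c := by
  rw [hD.2.2.2.1 c]
  unfold nR
  rw [nsq]
  exact ineqR hB c.re c.im hc

theorem nB_bd (hB : S_Bmp) (hD : S_Dv) {c : ℂ} (hc : -4 ≤ c.im) : ‖nB c‖ ^ 2 ≤ 300 * dv nB c := by
  rw [hD.2.2.2.2 c]
  unfold nB
  rw [nsq]
  exact ineqB hB c.re c.im hc

theorem norm_mir (n : ℂ → ℂ) (c : ℂ) : ‖mir n c‖ = ‖n (-(starRingEnd ℂ c))‖ := by
  unfold mir
  rw [norm_neg, RCLike.norm_conj]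

theorem im_mir (c : ℂ) : (-(starRingEnd ℂ c)).im = c.im := by simp

end N1Aux

open N1Aux in
theorem tN1 (hB : S_Bmp) (hD : S_Dv) : S_N1 := by
  have hR := hD.1
  have hBB := hD.2.1
  have hmR := hD.2.2.1 nR hR
  have hmB := hD.2.2.1 nB hBB
  refine ⟨hR.add hmR.1, hmB.1, hBB, ?_, ?_, ?_⟩
  · intro c hc
    have e : dv nL c = dv nR c + dv (mir nR) c := dv_add hR hmR.1 c
    have h1 := nR_bd hB hD hc
    have h2 : ‖mir nR c‖ ^ 2 ≤ 300 * dv (mir nR) c := by
      rw [norm_mir, hmR.2 c]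
      exact nR_bd hB hD (by rw [im_mir]; exact hc)
    have h3 : ‖nL c‖ ≤ ‖nR c‖ + ‖mir nR c‖ := norm_add_le _ _
    have h4 : ‖nL c‖ ^ 2 ≤ 2 * ‖nR c‖ ^ 2 + 2 * ‖mir nR c‖ ^ 2 := by
      nlinarith [norm_nonneg (nL c), norm_nonneg (nR c), norm_nonneg (mir nR c),
        sq_nonneg (‖nR c‖ - ‖mir nR c‖)]
    rw [e]
    nlinarith [sq_nonneg ‖nR c‖, sq_nonneg ‖mir nR c‖]
  · intro c hc
    have h1 := nB_bd hB hD hc
    have h2 : ‖nA c‖ ^ 2 ≤ 300 * dv nA c := by
      show ‖mir nB c‖ ^ 2 ≤ 300 * dv (mir nB) c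
      rw [norm_mir, hmB.2 c]
      exact nB_bd hB hD (by rw [im_mir]; exact hc)
    constructor
    · nlinarith [sq_nonneg ‖nA c‖]
    · nlinarith [sq_nonneg ‖nB c‖]
  · intro c hc
    have hre : |c.re| < 1 / 8 := by
      have := (Complex.abs_re_le_norm (c - c00)).trans_lt hc
      simpa [c00] using this
    have him : |c.im + 1 / 2| < 1 / 8 := by
      have := (Complex.abs_im_le_norm (c - c00)).trans_lt hc
      simpa [c00] using this
    obtain ⟨h1, h2⟩ := abs_lt.1 hre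
    obtain ⟨h3, h4⟩ := abs_lt.1 him
    obtain ⟨-, -, -, hb, hb0, hB0, hB1, hb8⟩ := hB
    have k1 : bet (c.im + 5 / 2) = 0 := hb0 _ (by rw [le_abs]; left; linarith)
    have k2 : Bt (c.im + 5 / 2) = 1 := hB1 _ (by linarith)
    have k3 : bet (c.re - 5 / 2) = 0 := hb0 _ (by rw [le_abs]; right; linarith)
    have k4 : bet (-c.re - 5 / 2) = 0 := hb0 _ (by rw [le_abs]; right; linarith)
    have k5 : 3 / 2 ≤ bet c.re := hb8 _ hre.le
    have k6 : bet (-c.re) = bet c.re := (hb c.re).2.2.2.2.1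
    constructor
    · have e : dv nL c = dv nR c + dv (mir nR) c := dv_add hR hmR.1 c
      rw [e, hmR.2 c, hD.2.2.2.1 c, hD.2.2.2.1 (-(starRingEnd ℂ c)), im_mir]
      have er : (-(starRingEnd ℂ c)).re = -c.re := by simp
      rw [er, k1, k2, k3, k4, k6]
      linarith
    · have e : nL c = ⟨0, -(2 * Vm c.im * bet c.re)⟩ := by
        have er : (-(starRingEnd ℂ c)).re = -c.re := by simp
        unfold nL mir nR
        rw [im_mir, er, k1, k2, k3, k4, k6]
        apply Complex.ext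
        · simp
        · simp
          ring
      rw [e]
      have h5 : |(⟨0, -(2 * Vm c.im * bet c.re)⟩ : ℂ).im| ≤ ‖(⟨0, -(2 * Vm c.im * bet c.re)⟩ : ℂ)‖ :=
        Complex.abs_im_le_norm _
      refine le_trans ?_ h5
      show 1 ≤ |-(2 * Vm c.im * bet c.re)|
      rw [abs_neg]
      refine le_trans ?_ (le_abs_self _)
      have h6 : 1 ≤ Vm c.im := by
        unfold Vm; linarith
      nlinarith

end LC465
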