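import Pool.Agent.Lib.LC465.Spec

/-!
# LC465, module N2: values of the fields near the real axis, supports
-/

set_option autoImplicit false

open Metric Set Filter Topology

namespace LC465

namespace N2Aux

theorem mir_re (n : ℂ → ℂ) (c : ℂ) : (mir n c).re = -(n (-(starRingEnd ℂ c))).re := by
  simp [mir]

theorem mir_im (n : ℂ → ℂ) (c : ℂ) : (mir n c).im = (n (-(starRingEnd ℂ c))).im := by
  simp [mir]

theorem nc_re (c : ℂ) : (-(starRingEnd ℂ c)).re = -c.re := by simp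

theorem nc_im (c : ℂ) : (-(starRingEnd ℂ c)).im = c.im := by simp

theorem nR_re (c : ℂ) : (nR c).re =
    Hb c.re * bet (c.im + 5 / 2) * Bt c.re * (1 - Bt (c.re - 5 / 2)) := rfl

theorem nR_im (c : ℂ) : (nR c).im =
    Bt (c.im + 5 / 2) * (Vr c.im * bet (c.re - 5 / 2) - Vm c.im * bet c.re) := rfl

theorem nB_re (c : ℂ) : (nB c).re =
    -(Ht c.re * bet (c.im - 5 / 2) * Bt c.re * (1 - Bt (c.re - 5 / 2))) := rfl

theorem nB_im (c : ℂ) : (nB c).im =
    (1 - Bt (c.im - 5 / 2)) * (Vr c.im * bet (c.re - 5 / 2) - 2 * Vm c.im * bet c.re) := rfl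

theorem nL_re (c : ℂ) : (nL c).re = (nR c).re - (nR (-(starRingEnd ℂ c))).re := by
  unfold nL
  rw [Complex.add_re, mir_re]
  ring

theorem nL_im (c : ℂ) : (nL c).im = (nR c).im + (nR (-(starRingEnd ℂ c))).im := by
  unfold nL
  rw [Complex.add_im, mir_im]

/-- the values of `nL` near the real axis -/
theorem nL_eq (hB : S_Bmp) {c : ℂ} (hc : |c.im| < 2) :
    nL c = ⟨0, Vr c.im * (bet (c.re - 5 / 2) + bet (c.re + 5 / 2)) - 2 * Vm c.im * bet c.re⟩ := by
  obtain ⟨-, -, -, h4, h5, -, h7, -⟩ := hB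
  obtain ⟨hc1, hc2⟩ := abs_lt.1 hc
  have e1 : bet (c.im + 5 / 2) = 0 := h5 _ (by rw [abs_of_pos (by linarith)]; linarith)
  have e2 : Bt (c.im + 5 / 2) = 1 := h7 _ (by linarith)
  have e3 : bet (-c.re - 5 / 2) = bet (c.re + 5 / 2) := by
    rw [← (h4 (c.re + 5 / 2)).2.2.2.2.1]
    congr 1
    ring
  have e4 : bet (-c.re) = bet c.re := (h4 c.re).2.2.2.2.1
  apply Complex.ext
  · rw [nL_re, nR_re, nR_re, nc_re, nc_im, e1]
    simp
  · rw [nL_im, nR_im, nR_im, nc_re, nc_im, e2, e3, e4]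
    simp only
    ring

theorem nB_eq (hB : S_Bmp) {c : ℂ} (hc : |c.im| < 2) :
    nB c = ⟨0, Vr c.im * bet (c.re - 5 / 2) - 2 * Vm c.im * bet c.re⟩ := by
  obtain ⟨-, -, -, h4, h5, h6, h7, -⟩ := hB
  obtain ⟨hc1, hc2⟩ := abs_lt.1 hc
  have e1 : bet (c.im - 5 / 2) = 0 := h5 _ (by rw [abs_of_neg (by linarith)]; linarith)
  have e2 : Bt (c.im - 5 / 2) = 0 := h6 _ (by linarith)
  apply Complex.ext
  · rw [nB_re, e1]
    simp
  · rw [nB_im, e2]
    simp only
    ring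

theorem nA_eq (hB : S_Bmp) {c : ℂ} (hc : |c.im| < 2) :
    nA c = ⟨0, Vr c.im * bet (c.re + 5 / 2) - 2 * Vm c.im * bet c.re⟩ := by
  have h := nB_eq hB (c := -(starRingEnd ℂ c)) (by rw [nc_im]; exact hc)
  obtain ⟨-, -, -, h4, -⟩ := hB
  have e3 : bet (-c.re - 5 / 2) = bet (c.re + 5 / 2) := by
    rw [← (h4 (c.re + 5 / 2)).2.2.2.2.1]
    congr 1
    ring
  have e4 : bet (-c.re) = bet c.re := (h4 c.re).2.2.2.2.1
  unfold nA
  apply Complex.ext
  · rw [mir_re, h]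
    simp
  · rw [mir_im, h, nc_re, nc_im, e3, e4]

theorem nR_zero_of_re (hB : S_Bmp) {c : ℂ} (hc : 3 ≤ |c.re|) : nR c = 0 := by
  obtain ⟨-, -, -, h4, h5, h6, h7, -⟩ := hB
  have e1 : bet c.re = 0 := h5 _ (by linarith)
  have e2 : bet (c.re - 5 / 2) = 0 := by
    apply h5
    rcases le_abs.1 hc with h | h
    · rw [abs_of_pos (by linarith)]; linarith
    · rw [abs_of_neg (by linarith)]; linarith
  have e3 : Bt c.re * (1 - Bt (c.re - 5 / 2)) = 0 := by
    rcases le_abs.1 hc with h | h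
    · rw [h7 (c.re - 5 / 2) (by linarith)]; ring
    · rw [h6 c.re (by linarith)]; ring
  apply Complex.ext
  · rw [nR_re, mul_assoc, e3]
    simp
  · rw [nR_im, e1, e2]
    simp

theorem nB_zero_of_re (hB : S_Bmp) {c : ℂ} (hc : 3 ≤ |c.re|) : nB c = 0 := by
  obtain ⟨-, -, -, h4, h5, h6, h7, -⟩ := hB
  have e1 : bet c.re = 0 := h5 _ (by linarith)
  have e2 : bet (c.re - 5 / 2) = 0 := by
    apply h5
    rcases le_abs.1 hc with h | h
    · rw [abs_of_pos (by linarith)]; linarith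
    · rw [abs_of_neg (by linarith)]; linarith
  have e3 : Bt c.re * (1 - Bt (c.re - 5 / 2)) = 0 := by
    rcases le_abs.1 hc with h | h
    · rw [h7 (c.re - 5 / 2) (by linarith)]; ring
    · rw [h6 c.re (by linarith)]; ring
  apply Complex.ext
  · rw [nB_re, mul_assoc, e3]
    simp
  · rw [nB_im, e1, e2]
    simp

theorem nR_zero_of_im (hB : S_Bmp) {c : ℂ} (hc : c.im ≤ -3) : nR c = 0 := by
  obtain ⟨-, -, -, h4, h5, h6, h7, -⟩ := hB
  have e1 : bet (c.im + 5 / 2) = 0 := h5 _ (by rw [abs_of_neg (by linarith)]; linarith)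
  have e2 : Bt (c.im + 5 / 2) = 0 := h6 _ (by linarith)
  apply Complex.ext
  · rw [nR_re, e1]
    simp
  · rw [nR_im, e2]
    simp

theorem nB_zero_of_im (hB : S_Bmp) {c : ℂ} (hc : 3 ≤ c.im) : nB c = 0 := by
  obtain ⟨-, -, -, h4, h5, h6, h7, -⟩ := hB
  have e1 : bet (c.im - 5 / 2) = 0 := h5 _ (by rw [abs_of_pos (by linarith)]; linarith)
  have e2 : Bt (c.im - 5 / 2) = 1 := h7 _ (by linarith)
  apply Complex.ext
  · rw [nB_re, e1]
    simp
  · rw [nB_im, e2]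
    simp

theorem norm_lt {c : ℂ} (h1 : |c.re| < 3) (h2 : |c.im| < 3) : ‖c‖ < 5 := by
  have h3 : ‖c‖ ^ 2 < 5 ^ 2 := by
    rw [← Complex.normSq_eq_norm_sq, Complex.normSq_apply]
    obtain ⟨a1, a2⟩ := abs_lt.1 h1
    obtain ⟨b1, b2⟩ := abs_lt.1 h2
    nlinarith
  exact lt_of_pow_lt_pow_left₀ 2 (by norm_num) h3

theorem nL_zero_of_re (hB : S_Bmp) {c : ℂ} (hc : 3 ≤ |c.re|) : nL c = 0 := by
  have h1 := nR_zero_of_re hB hc
  have h2 := nR_zero_of_re hB (c := -(starRingEnd ℂ c)) (by rw [nc_re, abs_neg]; exact hc)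
  unfold nL mir
  rw [h1, h2]
  simp

theorem nL_zero_of_im (hB : S_Bmp) {c : ℂ} (hc : c.im ≤ -3) : nL c = 0 := by
  have h1 := nR_zero_of_im hB hc
  have h2 := nR_zero_of_im hB (c := -(starRingEnd ℂ c)) (by rw [nc_im]; exact hc)
  unfold nL mir
  rw [h1, h2]
  simp

theorem nA_zero_of_re (hB : S_Bmp) {c : ℂ} (hc : 3 ≤ |c.re|) : nA c = 0 := by
  have h2 := nB_zero_of_re hB (c := -(starRingEnd ℂ c)) (by rw [nc_re, abs_neg]; exact hc)
  unfold nA mir
  rw [h2]
  simp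

theorem nA_zero_of_im (hB : S_Bmp) {c : ℂ} (hc : 3 ≤ c.im) : nA c = 0 := by
  have h2 := nB_zero_of_im hB (c := -(starRingEnd ℂ c)) (by rw [nc_im]; exact hc)
  unfold nA mir
  rw [h2]
  simp

end N2Aux

open N2Aux in
/-- **N2**: values of the fields near the real axis, supports -/
theorem tN2 : S_Bmp → S_N2 := by
  intro hB
  have h5 : ∀ t, 1 / 2 ≤ |t| → bet t = 0 := hB.2.2.2.2.1
  refine ⟨?_, ?_, ?_, ?_, ?_, ?_, ?_⟩
  · intro c hc hx
    have e : bet (c.re - 5 / 2) = 0 := h5 _ (by rw [abs_of_neg (by linarith)]; linarith)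
    rw [nA_eq hB hc, nL_eq hB hc, e, zero_add]
  · intro c hc hx
    have e : bet (c.re + 5 / 2) = 0 := h5 _ (by rw [abs_of_pos (by linarith)]; linarith)
    rw [nB_eq hB hc, nL_eq hB hc, e, add_zero]
  · intro c hc hx
    have e : bet (c.re + 5 / 2) = 0 := h5 _ (by rw [abs_of_pos (by linarith)]; linarith)
    have e1 : bet c.re = 0 := h5 _ (by rw [abs_of_pos (by linarith)]; linarith)
    rw [nA_eq hB hc, e, e1, mul_zero, mul_zero, sub_zero]
    rfl
  · intro c hc hx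
    have e : bet (c.re - 5 / 2) = 0 := h5 _ (by rw [abs_of_neg (by linarith)]; linarith)
    have e1 : bet c.re = 0 := h5 _ (by rw [abs_of_neg (by linarith)]; linarith)
    rw [nB_eq hB hc, e, e1, mul_zero, mul_zero, sub_zero]
    rfl
  · intro c hc hx hx2
    obtain ⟨b1, b2⟩ := abs_le.1 hx2
    have e : bet (c.re - 5 / 2) = 0 := h5 _ (by rw [abs_of_neg (by linarith)]; linarith)
    have e2 : bet (c.re + 5 / 2) = 0 := h5 _ (by rw [abs_of_pos (by linarith)]; linarith)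
    have e1 : bet c.re = 0 := h5 _ hx
    refine ⟨?_, ?_, ?_⟩
    · rw [nL_eq hB hc, e, e1, e2, add_zero, mul_zero, mul_zero, sub_zero]
      rfl
    · rw [nA_eq hB hc, e1, e2, mul_zero, mul_zero, sub_zero]
      rfl
    · rw [nB_eq hB hc, e, e1, mul_zero, mul_zero, sub_zero]
      rfl
  · intro c hc hn
    refine norm_lt ?_ ?_
    · by_contra h
      exact hn (nL_zero_of_re hB (not_lt.1 h))
    · rw [abs_lt]
      refine ⟨?_, by linarith⟩
      by_contra h
      exact hn (nL_zero_of_im hB (not_lt.1 h))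
  · intro c hc hn
    refine norm_lt ?_ ?_
    · by_contra h
      rcases hn with h1 | h1
      · exact h1 (nA_zero_of_re hB (not_lt.1 h))
      · exact h1 (nB_zero_of_re hB (not_lt.1 h))
    · rw [abs_lt]
      refine ⟨by linarith, ?_⟩
      by_contra h
      rcases hn with h1 | h1
      · exact h1 (nA_zero_of_im hB (not_lt.1 h))
      · exact h1 (nB_zero_of_im hB (not_lt.1 h))

end LC465
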