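import Pool.Agent.Lib.LC465.Spec

set_option autoImplicit false

namespace LC465

open Pool.Agent.Lib.MP_465591_an
open Metric Set Filter Topology

private theorem Nk_supp (h2 : S_N2) {u : ℂ} (h : Nf u ≠ 0) : u.im < 0 ∧ ‖psi u‖ < 5 := by
  obtain ⟨-, -, -, -, -, hL, hAB⟩ := h2
  unfold Nf at h
  by_cases h0 : u.im < 0
  · refine ⟨h0, ?_⟩
    rw [if_pos h0] at h
    by_cases h1 : (psi u).im ≤ 0
    · rw [if_pos h1] at h
      refine hL _ h1 ?_
      split_ifs at h with h3
      · exact h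
      · exact fun h4 => h (by rw [h4, neg_zero])
    · rw [if_neg h1] at h
      refine hAB _ (not_le.1 h1).le ?_
      split_ifs at h with h3 h4
      · by_contra hcon
        rw [not_or, not_ne_iff, not_ne_iff] at hcon
        exact h (by rw [hcon.1, hcon.2, sub_zero])
      · exact Or.inl h
      · exact Or.inr fun h5 => h (by rw [h5, neg_zero])
  · rw [if_neg h0] at h
    exact absurd rfl h

private theorem Nk_norm {u : ℂ} (h : ‖psi u‖ ≤ 5) : ‖u‖ ≤ 3 := by
  by_contra hcon
  rw [not_le] at hcon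
  have e1 : 3 * u ^ 5 = -(8 * psi u) + 10 * u ^ 3 + -(15 * u) := by
    unfold psi
    ring
  have e2 : ‖3 * u ^ 5‖ ≤ 8 * ‖psi u‖ + 10 * ‖u‖ ^ 3 + 15 * ‖u‖ := by
    rw [e1]
    refine (norm_add_le _ _).trans ?_
    refine add_le_add ((norm_add_le _ _).trans (add_le_add ?_ ?_)) ?_
    · rw [norm_neg, norm_mul]
      norm_num
    · rw [norm_mul, norm_pow]
      norm_num
    · rw [norm_neg, norm_mul]
      norm_num
  rw [norm_mul, norm_pow] at e2
  have e3 : ‖(3 : ℂ)‖ = 3 := by norm_num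
  rw [e3] at e2
  set r := ‖u‖ with hr
  have e4 : 9 < r ^ 2 := by nlinarith
  have e5 : 27 * r ^ 3 ≤ 3 * r ^ 5 := by
    have : 0 ≤ r ^ 3 := by positivity
    nlinarith
  have e6 : 9 * r ≤ r ^ 3 := by nlinarith
  nlinarith

private theorem Nk_pos {u : ℂ} (h : u.im < 0) (h' : 0 < (u.re ^ 2 - 1 - u.im ^ 2) ^ 2
    - (4 / 3) * u.im ^ 2 - (4 / 5) * (u.im ^ 2) ^ 2) : ¬(psi u).im ≤ 0 := by
  rw [psi_im]
  nlinarith [mul_pos (neg_pos.2 h) h']

private theorem Nk_real (h2 : S_N2) (x : ℂ) (hx : x.im = 0) : ∀ᶠ u in 𝓝 x, Nf u = 0 := by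
  obtain ⟨hA, hB, hA0, hB0, h0, -, -⟩ := h2
  have cre : ContinuousAt (fun u : ℂ => (psi u).re) x :=
    (Complex.continuous_re.comp continuous_psi).continuousAt
  have cim : ContinuousAt (fun u : ℂ => |(psi u).im|) x :=
    ((Complex.continuous_im.comp continuous_psi).abs).continuousAt
  have c1 : ContinuousAt (fun u : ℂ => u.re ^ 2 - 1 - u.im ^ 2) x :=
    (((Complex.continuous_re.pow 2).sub continuous_const).sub
      (Complex.continuous_im.pow 2)).continuousAt
  have c2 : ContinuousAt (fun u : ℂ => (u.re ^ 2 - 1 - u.im ^ 2) ^ 2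
      - (4 / 3) * u.im ^ 2 - (4 / 5) * (u.im ^ 2) ^ 2) x := by
    have ci : Continuous (fun u : ℂ => u.im ^ 2) := Complex.continuous_im.pow 2
    have cr : Continuous (fun u : ℂ => u.re ^ 2) := Complex.continuous_re.pow 2
    exact ((((cr.sub continuous_const).sub ci).pow 2).sub (continuous_const.mul ci)).sub
      (continuous_const.mul (ci.pow 2)) |>.continuousAt
  have c3 : ContinuousAt (fun u : ℂ => u.re) x := Complex.continuous_re.continuousAt
  have him0 : (psi x).im = 0 := by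
    rw [psi_im, hx]
    ring
  have hre0 : (psi x).re = -(x.re / 8) * (3 * (x.re ^ 2) ^ 2 - 10 * x.re ^ 2 + 15) := by
    rw [psi_re, hx]
    ring
  have ev_im : ∀ᶠ u in 𝓝 x, |(psi u).im| < 2 := by
    refine cim.eventually (gt_mem_nhds ?_)
    change |(psi x).im| < 2
    rw [him0, abs_zero]
    norm_num
  rcases lt_trichotomy (x.re ^ 2) 1 with hc | hc | hc
  · -- between the critical points
    have hlt : -1 < x.re ∧ x.re < 1 := by
      constructor <;> nlinarith
    have r1 : (psi x).re < 1 := by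
      have e : 1 - (psi x).re = (1 / 8) * ((x.re + 1) ^ 3 * (3 * x.re ^ 2 - 9 * x.re + 8)) := by
        rw [hre0]
        ring
      have p1 : 0 < (x.re + 1) ^ 3 := pow_pos (by linarith) 3
      have p2 : 0 < 3 * x.re ^ 2 - 9 * x.re + 8 := by nlinarith [sq_nonneg (x.re - 3 / 2)]
      have p3 := mul_pos p1 p2
      linarith
    have r2 : -1 < (psi x).re := by
      have e : (psi x).re + 1 = (1 / 8) * ((1 - x.re) ^ 3 * (3 * x.re ^ 2 + 9 * x.re + 8)) := by
        rw [hre0]
        ring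
      have p1 : 0 < (1 - x.re) ^ 3 := pow_pos (by linarith) 3
      have p2 : 0 < 3 * x.re ^ 2 + 9 * x.re + 8 := by nlinarith [sq_nonneg (x.re + 3 / 2)]
      have p3 := mul_pos p1 p2
      linarith
    have ev1 : ∀ᶠ u in 𝓝 x, u.re ^ 2 - 1 - u.im ^ 2 < 0 := by
      refine c1.eventually (gt_mem_nhds ?_)
      change x.re ^ 2 - 1 - x.im ^ 2 < 0
      rw [hx]
      linarith
    have ev2 : ∀ᶠ u in 𝓝 x, 0 < (u.re ^ 2 - 1 - u.im ^ 2) ^ 2
        - (4 / 3) * u.im ^ 2 - (4 / 5) * (u.im ^ 2) ^ 2 := by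
      refine c2.eventually (lt_mem_nhds ?_)
      change 0 < (x.re ^ 2 - 1 - x.im ^ 2) ^ 2
        - (4 / 3) * x.im ^ 2 - (4 / 5) * (x.im ^ 2) ^ 2
      rw [hx]
      have : 0 < (1 - x.re ^ 2) ^ 2 := pow_pos (by linarith) 2
      nlinarith
    have ev3 := cre.eventually (gt_mem_nhds r1)
    have ev4 := cre.eventually (lt_mem_nhds r2)
    filter_upwards [ev_im, ev1, ev2, ev3, ev4] with u a1 a2 a3 a4 a5
    by_cases b1 : u.im < 0
    · have b2 := Nk_pos b1 a3
      have b3 : u.re ^ 2 < 1 + u.im ^ 2 := by linarith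
      unfold Nf
      rw [if_pos b1, if_neg b2, if_pos b3, hA _ a1 a4, hB _ a1 a5, sub_self]
    · exact if_neg b1
  · -- the critical points
    have hval : (psi x).re = 1 ∨ (psi x).re = -1 := by
      have h3 : (x.re - 1) * (x.re + 1) = 0 := by linarith
      rcases mul_eq_zero.1 h3 with h4 | h4
      · right
        rw [hre0, sub_eq_zero.1 h4]
        norm_num
      · left
        rw [hre0, eq_neg_of_add_eq_zero_left h4]
        norm_num
    have habs : |(psi x).re| = 1 := by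
      rcases hval with h3 | h3 <;> rw [h3] <;> norm_num
    have ca : ContinuousAt (fun u : ℂ => |(psi u).re|) x := cre.abs
    have ev1 := ca.eventually (lt_mem_nhds (show (1 / 2 : ℝ) < |(psi x).re| by
      rw [habs]; norm_num))
    have ev2 := ca.eventually (gt_mem_nhds (show |(psi x).re| < (2 : ℝ) by
      rw [habs]; norm_num))
    filter_upwards [ev_im, ev1, ev2] with u a1 a2 a3
    obtain ⟨b1, b2, b3⟩ := h0 (psi u) a1 a2.le a3.le
    unfold Nf
    rw [b1, b2, b3]
    simp
  · -- outside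
    have ev1 : ∀ᶠ u in 𝓝 x, 0 < u.re ^ 2 - 1 - u.im ^ 2 := by
      refine c1.eventually (lt_mem_nhds ?_)
      change 0 < x.re ^ 2 - 1 - x.im ^ 2
      rw [hx]
      linarith
    have ev2 : ∀ᶠ u in 𝓝 x, 0 < (u.re ^ 2 - 1 - u.im ^ 2) ^ 2
        - (4 / 3) * u.im ^ 2 - (4 / 5) * (u.im ^ 2) ^ 2 := by
      refine c2.eventually (lt_mem_nhds ?_)
      change 0 < (x.re ^ 2 - 1 - x.im ^ 2) ^ 2
        - (4 / 3) * x.im ^ 2 - (4 / 5) * (x.im ^ 2) ^ 2
      rw [hx]
      have : 0 < (x.re ^ 2 - 1) ^ 2 := pow_pos (by linarith) 2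
      nlinarith
    rcases lt_trichotomy x.re 0 with hs | hs | hs
    · have hlt : x.re < -1 := by nlinarith
      have r1 : 1 / 2 < (psi x).re := by
        have e : (psi x).re - 1 = (1 / 8) * ((-(x.re + 1)) ^ 3 *
            (3 * x.re ^ 2 - 9 * x.re + 8)) := by
          rw [hre0]
          ring
        have p1 : 0 < (-(x.re + 1)) ^ 3 := pow_pos (by linarith) 3
        have p2 : 0 < 3 * x.re ^ 2 - 9 * x.re + 8 := by nlinarith [sq_nonneg (x.re - 3 / 2)]
        have p3 := mul_pos p1 p2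
        linarith
      have ev3 := cre.eventually (lt_mem_nhds r1)
      have ev4 := c3.eventually (gt_mem_nhds hs)
      filter_upwards [ev_im, ev1, ev2, ev3, ev4] with u a1 a2 a3 a4 a5
      by_cases b1 : u.im < 0
      · have b2 := Nk_pos b1 a3
        have b3 : ¬u.re ^ 2 < 1 + u.im ^ 2 := by linarith
        unfold Nf
        rw [if_pos b1, if_neg b2, if_neg b3, if_pos a5, hA0 _ a1 a4.le]
      · exact if_neg b1
    · rw [hs] at hc
      norm_num at hc
    · have hlt : 1 < x.re := by nlinarith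
      have r1 : (psi x).re < -(1 / 2) := by
        have e : (psi x).re + 1 = -((1 / 8) * ((x.re - 1) ^ 3 *
            (3 * x.re ^ 2 + 9 * x.re + 8))) := by
          rw [hre0]
          ring
        have p1 : 0 < (x.re - 1) ^ 3 := pow_pos (by linarith) 3
        have p2 : 0 < 3 * x.re ^ 2 + 9 * x.re + 8 := by nlinarith [sq_nonneg (x.re + 3 / 2)]
        have p3 := mul_pos p1 p2
        linarith
      have ev3 := cre.eventually (gt_mem_nhds r1)
      have ev4 := c3.eventually (lt_mem_nhds hs)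
      filter_upwards [ev_im, ev1, ev2, ev3, ev4] with u a1 a2 a3 a4 a5
      by_cases b1 : u.im < 0
      · have b2 := Nk_pos b1 a3
        have b3 : ¬u.re ^ 2 < 1 + u.im ^ 2 := by linarith
        unfold Nf
        rw [if_pos b1, if_neg b2, if_neg b3, if_neg (not_lt.2 a5.le), hB0 _ a1 a4.le, neg_zero]
      · exact if_neg b1

theorem tNk : S_N2 → S_Nk := by
  intro h2
  have k1 : {u | Nf u ≠ 0} ⊆ closedBall (0 : ℂ) 3 := by
    intro u hu
    rw [mem_closedBall_zero_iff]
    exact Nk_norm (Nk_supp h2 hu).2.le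
  have k2 : SN ⊆ closedBall (0 : ℂ) 3 := closure_minimal k1 isClosed_closedBall
  have k3 : ∀ u ∈ SN, ‖psi u‖ ≤ 5 := by
    have hc : IsClosed {u : ℂ | ‖psi u‖ ≤ 5} := isClosed_le continuous_psi.norm continuous_const
    exact closure_minimal (fun u hu => (Nk_supp h2 hu).2.le) hc
  have k4 : ∀ u ∈ SN, u.im ≤ 0 := by
    have hc : IsClosed {u : ℂ | u.im ≤ 0} := isClosed_le Complex.continuous_im continuous_const
    exact closure_minimal (fun u hu => (Nk_supp h2 hu).1.le) hc
  refine ⟨(isCompact_closedBall (0 : ℂ) 3).of_isClosed_subset isClosed_closure k2,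
    fun u hu => ⟨lt_of_le_of_ne (k4 u hu) fun h0 => ?_, k3 u hu⟩, fun u hu => ?_⟩
  · have h1 := Nk_real h2 u h0
    have h3 := mem_closure_iff_frequently.1 hu
    obtain ⟨v, hv1, hv2⟩ := (h3.and_eventually h1).exists
    exact hv1 hv2
  · by_contra h
    exact absurd (Nk_supp h2 h).2 (not_lt.2 hu.le)

end LC465
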