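import Pool.Agent.Lib.LC465.Spec

/-!
# LC465: the function `Nf` is locally a `C¹` function of `ψ(u)` (statement `S_Nl`)
-/

set_option autoImplicit false

open Metric Set Filter Topology

namespace LC465

open Pool.Agent.Lib.MP_465591_an

namespace NlAux

theorem cont_im : Continuous fun u : ℂ => u.im := Complex.continuous_im

theorem cont_re : Continuous fun u : ℂ => u.re := Complex.continuous_re

theorem cont_pim : Continuous fun u : ℂ => (psi u).im := Complex.continuous_im.comp continuous_psi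

theorem cont_pre : Continuous fun u : ℂ => (psi u).re := Complex.continuous_re.comp continuous_psi

theorem ev_im {u0 : ℂ} (h : u0.im < 0) : ∀ᶠ u in 𝓝 u0, u.im < 0 :=
  cont_im.continuousAt.eventually_lt continuousAt_const h

theorem ev_re_neg {u0 : ℂ} (h : u0.re < 0) : ∀ᶠ u in 𝓝 u0, u.re < 0 :=
  cont_re.continuousAt.eventually_lt continuousAt_const h

theorem ev_re_pos {u0 : ℂ} (h : 0 < u0.re) : ∀ᶠ u in 𝓝 u0, 0 < u.re :=
  continuousAt_const.eventually_lt cont_re.continuousAt h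

theorem ev_lt {u0 : ℂ} (h : u0.re ^ 2 < 1 + u0.im ^ 2) : ∀ᶠ u in 𝓝 u0, u.re ^ 2 < 1 + u.im ^ 2 :=
  ContinuousAt.eventually_lt (f := fun u : ℂ => u.re ^ 2) (g := fun u : ℂ => 1 + u.im ^ 2)
    (cont_re.pow 2).continuousAt (continuous_const.add (cont_im.pow 2)).continuousAt h

theorem ev_gt {u0 : ℂ} (h : 1 + u0.im ^ 2 < u0.re ^ 2) : ∀ᶠ u in 𝓝 u0, 1 + u.im ^ 2 < u.re ^ 2 :=
  ContinuousAt.eventually_lt (f := fun u : ℂ => 1 + u.im ^ 2) (g := fun u : ℂ => u.re ^ 2)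
    (continuous_const.add (cont_im.pow 2)).continuousAt (cont_re.pow 2).continuousAt h

theorem ev_pim_pos {u0 : ℂ} (h : 0 < (psi u0).im) : ∀ᶠ u in 𝓝 u0, 0 < (psi u).im :=
  continuousAt_const.eventually_lt cont_pim.continuousAt h

theorem ev_pim_neg {u0 : ℂ} (h : (psi u0).im < 0) : ∀ᶠ u in 𝓝 u0, (psi u).im < 0 :=
  cont_pim.continuousAt.eventually_lt continuousAt_const h

theorem ev_pim_small {u0 : ℂ} (h : (psi u0).im = 0) : ∀ᶠ u in 𝓝 u0, |(psi u).im| < 2 := by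
  have h0 : |(psi u0).im| < 2 := by rw [h]; norm_num
  exact ContinuousAt.eventually_lt (f := fun u : ℂ => |(psi u).im|) (g := fun _ => (2 : ℝ))
    cont_pim.abs.continuousAt continuousAt_const h0

theorem ev_pre_lt {u0 : ℂ} {r : ℝ} (h : (psi u0).re < r) : ∀ᶠ u in 𝓝 u0, (psi u).re < r :=
  cont_pre.continuousAt.eventually_lt continuousAt_const h

theorem ev_pre_gt {u0 : ℂ} {r : ℝ} (h : r < (psi u0).re) : ∀ᶠ u in 𝓝 u0, r < (psi u).re :=
  continuousAt_const.eventually_lt cont_pre.continuousAt h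

theorem ev_C1 {u0 : ℂ} (h : u0 ∈ C1) : ∀ᶠ u in 𝓝 u0, u ∈ C1 := by
  obtain ⟨h1, h2, h3, h4⟩ := h
  filter_upwards [ev_im h1, ev_pim_pos h2, ev_gt h3, ev_re_neg h4] with u g1 g2 g3 g4
  exact ⟨g1, g2, g3, g4⟩

theorem ev_C2 {u0 : ℂ} (h : u0 ∈ C2) : ∀ᶠ u in 𝓝 u0, u ∈ C2 := by
  obtain ⟨h1, h2, h3⟩ := h
  filter_upwards [ev_im h1, ev_pim_neg h2, ev_re_neg h3] with u g1 g2 g3
  exact ⟨g1, g2, g3⟩

theorem ev_C3 {u0 : ℂ} (h : u0 ∈ C3) : ∀ᶠ u in 𝓝 u0, u ∈ C3 := by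
  obtain ⟨h1, h2, h3⟩ := h
  filter_upwards [ev_im h1, ev_pim_pos h2, ev_lt h3] with u g1 g2 g3
  exact ⟨g1, g2, g3⟩

theorem ev_C4 {u0 : ℂ} (h : u0 ∈ C4) : ∀ᶠ u in 𝓝 u0, u ∈ C4 := by
  obtain ⟨h1, h2, h3⟩ := h
  filter_upwards [ev_im h1, ev_pim_neg h2, ev_re_pos h3] with u g1 g2 g3
  exact ⟨g1, g2, g3⟩

theorem ev_C5 {u0 : ℂ} (h : u0 ∈ C5) : ∀ᶠ u in 𝓝 u0, u ∈ C5 := by
  obtain ⟨h1, h2, h3, h4⟩ := h
  filter_upwards [ev_im h1, ev_pim_pos h2, ev_gt h3, ev_re_pos h4] with u g1 g2 g3 g4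
  exact ⟨g1, g2, g3, g4⟩

end NlAux

open NlAux in
theorem tNl : S_N1 → S_N2 → S_Sgn → S_Nl := by
  intro hN1 hN2 hSgn u0 hu0
  obtain ⟨cL, cA, cB, -⟩ := hN1
  obtain ⟨n1, n2, n3, n4, -⟩ := hN2
  by_cases him : (psi u0).im = 0
  · -- over the real axis
    obtain ⟨s1, s2, s3, s4⟩ := hSgn u0 hu0 him
    have hre : u0.re ≠ 0 := fun h => by
      have := im_pos_of_re hu0 h
      rw [him] at this
      exact lt_irrefl _ this
    have hX : u0.re ^ 2 ≠ 1 + u0.im ^ 2 := fun h => by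
      have := im_neg_of_eq hu0 h
      rw [him] at this
      exact lt_irrefl _ this
    rcases lt_or_gt_of_ne hre with hr | hr
    · rcases lt_or_gt_of_ne hX with hx | hx
      · -- `x < 0`, `X < 1 + Y`
        refine ⟨nL, cL, ?_⟩
        filter_upwards [ev_im hu0, ev_re_neg hr, ev_lt hx, ev_pim_small him,
          ev_pre_gt (s2 hr hx)] with u g1 g2 g3 g4 g5
        by_cases hp : (psi u).im ≤ 0
        · simp [Nf, g1, hp, g2]
        · have e1 : nA (psi u) = 0 := n3 _ g4 (by linarith)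
          have e2 : nB (psi u) = nL (psi u) := n2 _ g4 (by linarith)
          simp [Nf, g1, hp, g3, e1, e2]
      · -- `x < 0`, `X > 1 + Y`
        refine ⟨nL, cL, ?_⟩
        filter_upwards [ev_im hu0, ev_re_neg hr, ev_gt hx, ev_pim_small him,
          ev_pre_lt (s1 hr hx)] with u g1 g2 g3 g4 g5
        by_cases hp : (psi u).im ≤ 0
        · simp [Nf, g1, hp, g2]
        · have e1 : nA (psi u) = nL (psi u) := n1 _ g4 g5
          simp [Nf, g1, hp, not_lt.2 g3.le, g2, e1]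
    · rcases lt_or_gt_of_ne hX with hx | hx
      · -- `x > 0`, `X < 1 + Y`
        refine ⟨fun c => -nL c, cL.neg, ?_⟩
        filter_upwards [ev_im hu0, ev_re_pos hr, ev_lt hx, ev_pim_small him,
          ev_pre_lt (s4 hr hx)] with u g1 g2 g3 g4 g5
        by_cases hp : (psi u).im ≤ 0
        · simp [Nf, g1, hp, not_lt.2 g2.le]
        · have e1 : nB (psi u) = 0 := n4 _ g4 (by linarith)
          have e2 : nA (psi u) = nL (psi u) := n1 _ g4 (by linarith)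
          simp [Nf, g1, hp, g3, e1, e2]
      · -- `x > 0`, `X > 1 + Y`
        refine ⟨fun c => -nL c, cL.neg, ?_⟩
        filter_upwards [ev_im hu0, ev_re_pos hr, ev_gt hx, ev_pim_small him,
          ev_pre_gt (s3 hr hx)] with u g1 g2 g3 g4 g5
        by_cases hp : (psi u).im ≤ 0
        · simp [Nf, g1, hp, not_lt.2 g2.le]
        · have e1 : nB (psi u) = nL (psi u) := n2 _ g4 g5
          simp [Nf, g1, hp, not_lt.2 g3.le, not_lt.2 g2.le, e1]
  · rcases cells_cover hu0 him with h | h | h | h | h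
    · exact ⟨nA, cA, (ev_C1 h).mono fun u hu => Nf_C1 hu⟩
    · exact ⟨nL, cL, (ev_C2 h).mono fun u hu => Nf_C2 hu⟩
    · exact ⟨fun c => nB c - nA c, cB.sub cA, (ev_C3 h).mono fun u hu => Nf_C3 hu⟩
    · exact ⟨fun c => -nL c, cL.neg, (ev_C4 h).mono fun u hu => Nf_C4 hu⟩
    · exact ⟨fun c => -nB c, cB.neg, (ev_C5 h).mono fun u hu => Nf_C5 hu⟩

end LC465
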