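import Pool.Agent.Lib.LC465.Spec

/-!
# LC465/Nv: values of `NN` over non real points
-/

set_option autoImplicit false

open Metric Set Filter Topology

namespace LC465

namespace NvAux

theorem NN_sum (a A : ℝ) (c : ℂ) (X : ℝ) (R : Finset ℂ) (h1 : ∀ u : ℂ, u.im < 0 → psi u = c → u ∈ R)
    (h2 : ∀ u ∈ R, psi u = c) :
    NN a A c X = ∑ u ∈ R, if a + A * u.re < X then Nf u else 0 := by
  classical
  have e : NN a A c X = ∑ᶠ u ∈ {u : ℂ | psi u = c ∧ a + A * u.re < X}, Nf u := rfl
  rw [e, finsum_mem_eq_sum_of_inter_support_eq (t := R.filter fun u => a + A * u.re < X),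
    Finset.sum_filter]
  ext u
  simp only [Set.mem_inter_iff, Set.mem_setOf_eq, Function.mem_support, Finset.coe_filter]
  constructor
  · rintro ⟨⟨h3, h4⟩, h5⟩
    have h6 : u.im < 0 := by
      by_contra h7
      exact h5 (by simp [Nf, h7])
    exact ⟨⟨h1 u h6 h3, h4⟩, h5⟩
  · rintro ⟨⟨h3, h4⟩, h5⟩
    exact ⟨⟨h2 u h3, h4⟩, h5⟩

end NvAux

open NvAux in
/-- values of `NN` over non real points -/
theorem tNv : S_Cnt → S_Ord → S_Nv := by
  intro hC hO a A hA
  refine ⟨?_, ?_⟩
  · intro u1 m1 u3 m3 u5 m5 e3 e5 X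
    have o1 : u1.re < u3.re := (hO u3 m3).2 u1 m1 e3.symm
    have o2 : u3.re < u5.re := (hO u3 m3).1 u5 m5 (e5.trans e3.symm)
    have n13 : u1 ≠ u3 := fun h => by rw [h] at o1; exact lt_irrefl _ o1
    have n35 : u3 ≠ u5 := fun h => by rw [h] at o2; exact lt_irrefl _ o2
    have n15 : u1 ≠ u5 := fun h => by rw [h] at o1; exact lt_irrefl _ (o1.trans o2)
    have p1 : A * u1.re < A * u3.re := mul_lt_mul_of_pos_left o1 hA
    have p2 : A * u3.re < A * u5.re := mul_lt_mul_of_pos_left o2 hA
    rw [NN_sum a A (psi u1) X ({u1, u3, u5} : Finset ℂ)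
      (fun u hu hp => by
        have := hC.1 u1 m1 u3 m3 u5 m5 e3 e5 u hu hp
        simp only [Finset.mem_insert, Finset.mem_singleton]
        exact this)
      (fun u hu => by
        simp only [Finset.mem_insert, Finset.mem_singleton] at hu
        rcases hu with rfl | rfl | rfl
        · rfl
        · exact e3
        · exact e5)]
    rw [Finset.sum_insert (by simp [n13, n15]), Finset.sum_insert (by simp [n35]), Finset.sum_singleton,
      Nf_C1 m1, Nf_C3 m3, Nf_C5 m5, e3, e5]
    by_cases c1 : X ≤ a + A * u1.re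
    · rw [if_pos c1, if_neg (by linarith), if_neg (by linarith), if_neg (by linarith)]
      simp
    · rw [if_neg c1, if_pos (by linarith)]
      by_cases c3 : X ≤ a + A * u3.re
      · rw [if_pos c3, if_neg (by linarith), if_neg (by linarith)]
        simp
      · rw [if_neg c3, if_pos (by linarith)]
        by_cases c5 : X ≤ a + A * u5.re
        · rw [if_pos c5, if_neg (by linarith)]
          ring
        · rw [if_neg c5, if_pos (by linarith)]
          ring
  · intro u2 m2 u4 m4 e4 X
    have o : u2.re < u4.re := m2.2.2.trans m4.2.2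
    have n24 : u2 ≠ u4 := fun h => by rw [h] at o; exact lt_irrefl _ o
    have p : A * u2.re < A * u4.re := mul_lt_mul_of_pos_left o hA
    rw [NN_sum a A (psi u2) X ({u2, u4} : Finset ℂ)
      (fun u hu hp => by
        have := hC.2 u2 m2 u4 m4 e4 u hu hp
        simp only [Finset.mem_insert, Finset.mem_singleton]
        exact this)
      (fun u hu => by
        simp only [Finset.mem_insert, Finset.mem_singleton] at hu
        rcases hu with rfl | rfl
        · rfl
        · exact e4)]
    rw [Finset.sum_insert (by simp [n24]), Finset.sum_singleton, Nf_C2 m2, Nf_C4 m4, e4]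
    by_cases c2 : X ≤ a + A * u2.re
    · rw [if_pos c2, if_neg (by linarith), if_neg (by linarith)]
      simp
    · rw [if_neg c2, if_pos (by linarith)]
      by_cases c4 : X ≤ a + A * u4.re
      · rw [if_pos c4, if_neg (by linarith)]
        simp
      · rw [if_neg c4, if_pos (by linarith)]
        ring

end LC465
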