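import Pool.Agent.Lib.LC465.Spec
import Pool.Agent.Lib.LC465.Cnt

/-!
# LC465: the order of the roots over the upper half plane
-/

set_option autoImplicit false

namespace LC465

/-- (Q3), the order of the real parts. -/
private theorem ord35 (hQ1 : S_Q1) (hEx : S_Ex) {u v : ℂ} (hu : u ∈ C3) (hv : v ∈ C5) (h : psi u = psi v) : u.re < v.re := by
  have hs : IsPreconnected {c : ℂ | 0 < c.im} := by
    apply Convex.isPreconnected
    exact convex_halfSpace_im_gt 0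
  obtain ⟨U, hU⟩ : ∃ U : Set ℂ, U = ⋃ m : ℝ, (psi '' (C3 ∩ {u | u.re < m})) ∩
    (psi '' (C5 ∩ {u | m < u.re})) := ⟨_, rfl⟩
  obtain ⟨V, hV⟩ : ∃ V : Set ℂ, V = ⋃ m : ℝ, (psi '' (C3 ∩ {u | m < u.re})) ∩
    (psi '' (C5 ∩ {u | u.re < m})) := ⟨_, rfl⟩
  have hUo : IsOpen U := by
    rw [hU]
    exact isOpen_iUnion fun m => (ExAux.openMap _ (ExAux.C3_open.inter (isOpen_lt (by fun_prop)
      (by fun_prop)))).inter (ExAux.openMap _ (ExAux.C5_open.inter (isOpen_lt (by fun_prop)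
      (by fun_prop))))
  have hVo : IsOpen V := by
    rw [hV]
    exact isOpen_iUnion fun m => (ExAux.openMap _ (ExAux.C3_open.inter (isOpen_lt (by fun_prop)
      (by fun_prop)))).inter (ExAux.openMap _ (ExAux.C5_open.inter (isOpen_lt (by fun_prop)
      (by fun_prop))))
  have memU : ∀ {u v : ℂ}, u ∈ C3 → v ∈ C5 → psi u = psi v → u.re < v.re → psi v ∈ U := by
    intro u v hu hv h h1
    obtain ⟨m, hm1, hm2⟩ := exists_between h1
    rw [hU]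
    exact Set.mem_iUnion.2 ⟨m, ⟨u, ⟨hu, hm1⟩, h⟩, ⟨v, ⟨hv, hm2⟩, rfl⟩⟩
  have hcov : {c : ℂ | 0 < c.im} ⊆ U ∪ V := by
    intro c hc
    obtain ⟨u, hu, h1⟩ := (hEx.1 c hc).2.1
    obtain ⟨v, hv, h2⟩ := (hEx.1 c hc).2.2
    have hne : u ≠ v := fun h3 => by
      have h4 := hu.2.2
      rw [h3] at h4
      exact absurd hv.2.2.1 h4.not_gt
    rcases lt_trichotomy u.re v.re with h3 | h3 | h3
    · refine Or.inl ?_
      rw [← h2]
      exact memU hu hv (h1.trans h2.symm) h3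
    · exact absurd (hQ1 u v hu.1 hv.1 h3 (h1.trans h2.symm)) hne
    · refine Or.inr ?_
      obtain ⟨m, hm1, hm2⟩ := exists_between h3
      rw [hV]
      exact Set.mem_iUnion.2 ⟨m, ⟨u, ⟨hu, hm2⟩, h1⟩, ⟨v, ⟨hv, hm1⟩, h2⟩⟩
  have hdis : {c : ℂ | 0 < c.im} ∩ (U ∩ V) = ∅ := by
    rw [Set.eq_empty_iff_forall_notMem]
    rintro c ⟨-, h1, h2⟩
    rw [hU] at h1
    rw [hV] at h2
    obtain ⟨m, ⟨u, ⟨hu, hu1⟩, hu2⟩, ⟨v, ⟨hv, hv1⟩, hv2⟩⟩ := Set.mem_iUnion.1 h1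
    obtain ⟨m', ⟨u', ⟨hu', hu1'⟩, hu2'⟩, ⟨v', ⟨hv', hv1'⟩, hv2'⟩⟩ := Set.mem_iUnion.1 h2
    have e1 : u = u' := CntAux.inj3 hEx hu hu' (hu2.trans hu2'.symm)
    have e2 : v = v' := CntAux.inj5 hEx hv hv' (hv2.trans hv2'.symm)
    subst e1 e2
    have h3 : u.re < v.re := lt_trans hu1 hv1
    have h4 : v.re < u.re := lt_trans hv1' hu1'
    exact lt_asymm h3 h4
  have hsub : {c : ℂ | 0 < c.im} ⊆ U := by
    rcases isPreconnected_iff_subset_of_disjoint.1 hs U V hUo hVo hcov hdis with h1 | h1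
    · exact h1
    · exfalso
      have hi : (⟨0, -1⟩ : ℂ) ∈ C3 := by
        refine ⟨?_, ?_, ?_⟩
        · norm_num
        · rw [psi_im]
          norm_num
        · norm_num
      obtain ⟨v, hv, h2⟩ := (hEx.1 _ hi.2.1).2.2
      have h3 : psi v ∈ U := memU hi hv h2.symm hv.2.2.2
      have h4 : psi v ∈ V := h1 hv.2.1
      have h5 : psi v ∈ {c : ℂ | 0 < c.im} ∩ (U ∩ V) := ⟨hv.2.1, h3, h4⟩
      rw [hdis] at h5
      exact h5
  have h1 := hsub hv.2.1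
  rw [hU] at h1
  obtain ⟨m, ⟨u', ⟨hu', hu1⟩, hu2⟩, ⟨v', ⟨hv', hv1⟩, hv2⟩⟩ := Set.mem_iUnion.1 h1
  rw [CntAux.inj3 hEx hu hu' (h.trans hu2.symm), CntAux.inj5 hEx hv hv' hv2.symm]
  exact lt_trans hu1 hv1

/-- The reflection `u ↦ - conj u`. -/
private noncomputable def rfc (u : ℂ) : ℂ := -(starRingEnd ℂ) u

private lemma rfc_re (u : ℂ) : (rfc u).re = -u.re := by
  rw [rfc, Complex.neg_re, Complex.conj_re]

private lemma rfc_im (u : ℂ) : (rfc u).im = u.im := by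
  rw [rfc, Complex.neg_im, Complex.conj_im, neg_neg]

private lemma rfc_psi (u : ℂ) : psi (rfc u) = rfc (psi u) := by
  rw [rfc, rfc, psi_neg, psi_conj]

private theorem ord13 (hQ1 : S_Q1) (hEx : S_Ex) {u v : ℂ} (hu : u ∈ C1) (hv : v ∈ C3) (h : psi u = psi v) : u.re < v.re := by
  have h1 : rfc u ∈ C5 := by
    refine ⟨?_, ?_, ?_, ?_⟩
    · rw [rfc_im]
      exact hu.1
    · rw [rfc_psi, rfc_im]
      exact hu.2.1
    · rw [rfc_im, rfc_re, neg_sq]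
      exact hu.2.2.1
    · rw [rfc_re]
      linarith [hu.2.2.2]
  have h2 : rfc v ∈ C3 := by
    refine ⟨?_, ?_, ?_⟩
    · rw [rfc_im]
      exact hv.1
    · rw [rfc_psi, rfc_im]
      exact hv.2.1
    · rw [rfc_im, rfc_re, neg_sq]
      exact hv.2.2
  have h3 := ord35 hQ1 hEx h2 h1 (by rw [rfc_psi, rfc_psi, h])
  rw [rfc_re, rfc_re] at h3
  linarith

theorem tOrd (hQ1 : S_Q1) (hEx : S_Ex) (_ : S_Cnt) : S_Ord :=
  fun _ h3 => ⟨fun _ h5 h => ord35 hQ1 hEx h3 h5 h.symm, fun _ h1 h => ord13 hQ1 hEx h1 h3 h⟩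

end LC465
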