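import Pool.Agent.Lib.LC465.Spec

/-!
# LC465: the parameters
-/

set_option autoImplicit false

open Metric Set Filter Topology

namespace LC465

namespace ParAux

private theorem bnd (S : Set ℂ) (hS : IsCompact S) (h : ∀ u ∈ S, u.im < 0) :
    ∃ μ B : ℝ, 0 < μ ∧ ∀ u ∈ S, u.im ≤ -μ ∧ ‖u‖ ≤ B := by
  obtain ⟨B, hB⟩ := hS.isBounded.exists_norm_le
  rcases S.eq_empty_or_nonempty with h0 | h0
  · exact ⟨1, B, one_pos, fun u hu => absurd hu (by rw [h0]; exact notMem_empty u)⟩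
  · obtain ⟨v, hv, hm⟩ := hS.exists_isMaxOn h0 Complex.continuous_im.continuousOn
    exact ⟨-v.im, B, neg_pos.2 (h v hv), fun u hu => ⟨by rw [neg_neg]; exact hm hu, hB u hu⟩⟩

private theorem nrm (R μ B : ℝ) (u : ℂ) (hR : 0 < R) (h1 : B ^ 2 ≤ R * μ) (h3 : μ ≤ R)
    (hu : u.im ≤ -μ) (hB : ‖u‖ ≤ B) : ‖u - uz R‖ ≤ R - μ / 2 := by
  have hn : ‖u‖ ^ 2 = u.re * u.re + u.im * u.im := by
    rw [Complex.sq_norm, Complex.normSq_apply]
  have h2 : ‖u - uz R‖ ^ 2 = u.re * u.re + (u.im + R) * (u.im + R) := by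
    rw [Complex.sq_norm, Complex.normSq_apply]
    have e1 : (u - uz R).re = u.re := by simp [uz]
    have e2 : (u - uz R).im = u.im + R := by simp [uz]
    rw [e1, e2]
  have h4 : ‖u‖ ^ 2 ≤ B ^ 2 := pow_le_pow_left₀ (norm_nonneg u) hB 2
  refine le_of_sq_le_sq ?_ (by linarith)
  rw [h2]
  nlinarith [mul_le_mul_of_nonneg_left hu hR.le, sq_nonneg μ]

end ParAux

theorem tPar : S_Par := by
  intro S R1 hS hI
  obtain ⟨μ, B, hμ, hb⟩ := ParAux.bnd S hS hI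
  obtain ⟨R, hR⟩ : ∃ R : ℝ, R = max R1 1 + μ + B ^ 2 / μ := ⟨_, rfl⟩
  have hq : 0 ≤ B ^ 2 / μ := div_nonneg (sq_nonneg B) hμ.le
  have hm1 : R1 ≤ max R1 1 := le_max_left _ _
  have hm2 : 1 ≤ max R1 1 := le_max_right _ _
  have hR1 : R1 ≤ R := by rw [hR]; linarith
  have hR2 : 1 ≤ R := by rw [hR]; linarith
  have hR3 : μ ≤ R := by rw [hR]; linarith
  have hR0 : 0 < R := by linarith
  have hR4 : B ^ 2 ≤ R * μ := by
    have h : B ^ 2 / μ ≤ R := by rw [hR]; linarith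
    exact (div_le_iff₀ hμ).1 h
  have hk : 0 < R - μ / 4 := by linarith
  have hs0 : 0 < (R - μ / 2) / (R - μ / 4) := div_pos (by linarith) hk
  have hr0 : 0 < (R - μ / 8) / (R - μ / 4) := div_pos (by linarith) hk
  refine ⟨2 * (R - μ / 4), R, Real.sqrt ((R - μ / 2) / (R - μ / 4)),
    Real.sqrt ((R - μ / 8) / (R - μ / 4)), hR1, hR2, by linarith, by linarith,
    Real.sqrt_pos.2 hs0, ?_, ?_, ?_, ?_⟩
  · rw [Real.sqrt_lt' one_pos, one_pow, div_lt_one hk]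
    linarith
  · rw [Real.lt_sqrt zero_le_one, one_pow, one_lt_div hk]
    linarith
  · rw [Real.sq_sqrt hr0.le]
    have h : 2 * (R - μ / 4) * ((R - μ / 8) / (R - μ / 4)) / 2 = R - μ / 8 := by
      rw [mul_assoc, mul_div_cancel₀ _ hk.ne']
      ring
    rw [h]
    linarith
  · intro u hu
    rw [Real.sq_sqrt hs0.le]
    have h : 2 * (R - μ / 4) * ((R - μ / 2) / (R - μ / 4)) / 2 = R - μ / 2 := by
      rw [mul_assoc, mul_div_cancel₀ _ hk.ne']
      ring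
    rw [h]
    exact ParAux.nrm R μ B u hR0 hR4 hR3 (hb u hu).1 (hb u hu).2

end LC465
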