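import Pool.Agent.Lib.LC465.Spec

/-!
# LC465: two points of the lower half plane with the same value and the same real part
-/

set_option autoImplicit false

namespace LC465


theorem tQ1 : S_Q1 := by
  intro u v hu hv h hp
  by_contra huv
  have h1 := congrArg Complex.re hp
  have h2 := congrArg Complex.im hp
  rw [psi_re, psi_re] at h1
  rw [psi_im, psi_im] at h2
  have hd : u.im ≠ v.im := fun h3 => huv (Complex.ext h h3)
  rw [h] at h1 h2
  generalize v.re = x at h1 h2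
  generalize u.im = y at h1 h2 hd hu
  generalize v.im = z at h1 h2 hd hv
  have hyz : 0 < y * z := mul_pos_of_neg_of_neg hu hv
  have hsum : y + z ≠ 0 := by linarith
  have hdif : y - z ≠ 0 := sub_ne_zero.2 hd
  have e1 : x * (2 + y ^ 2 + z ^ 2 - 2 * x ^ 2) = 0 := by
    have : (y - z) * (y + z) * (x * (2 + y ^ 2 + z ^ 2 - 2 * x ^ 2)) = 0 := by linarith
    rcases mul_eq_zero.1 this with h3 | h3
    · rcases mul_eq_zero.1 h3 with h4 | h4
      · exact absurd h4 hdif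
      · exact absurd h4 hsum
    · exact h3
  have e2 : (x ^ 2 - 1) ^ 2 - (2 * x ^ 2 - 2 / 3) * (y ^ 2 + y * z + z ^ 2) +
      1 / 5 * (y ^ 4 + y ^ 3 * z + y ^ 2 * z ^ 2 + y * z ^ 3 + z ^ 4) = 0 := by
    have : (y - z) * ((x ^ 2 - 1) ^ 2 - (2 * x ^ 2 - 2 / 3) * (y ^ 2 + y * z + z ^ 2) +
      1 / 5 * (y ^ 4 + y ^ 3 * z + y ^ 2 * z ^ 2 + y * z ^ 3 + z ^ 4)) = 0 := by linarith
    exact (mul_eq_zero.1 this).resolve_left hdif
  have hy2 : 0 < y ^ 2 := by nlinarith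
  have hz2 : 0 < z ^ 2 := by nlinarith
  rcases mul_eq_zero.1 e1 with h3 | h3
  · rw [h3] at e2
    have h4 : 0 < y ^ 3 * z := by
      have : y ^ 3 * z = y ^ 2 * (y * z) := by ring
      rw [this]
      positivity
    have h5 : 0 < y * z ^ 3 := by
      have : y * z ^ 3 = z ^ 2 * (y * z) := by ring
      rw [this]
      positivity
    nlinarith [mul_pos hy2 hz2, sq_nonneg (y ^ 2), sq_nonneg (z ^ 2)]
  · have h4 : x ^ 2 = 1 + (y ^ 2 + z ^ 2) / 2 := by linarith
    rw [h4] at e2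
    have h5 : -(11 / 20) * (y ^ 2 + z ^ 2) ^ 2 - 4 / 5 * ((y ^ 2 + z ^ 2) * (y * z)) -
        1 / 5 * (y * z) ^ 2 - 4 / 3 * (y ^ 2 + z ^ 2 + y * z) = 0 := by
      linarith
    have h6 : 0 < (y ^ 2 + z ^ 2) * (y * z) := by positivity
    have h7 : 0 < (y ^ 2 + z ^ 2) ^ 2 := by positivity
    have h8 : 0 ≤ (y * z) ^ 2 := sq_nonneg _
    linarith

end LC465
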