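import Pool.Agent.Lib.LC465.Spec

/-!
# LC465: the base point is covered once
-/

set_option autoImplicit false

namespace LC465

private lemma quad (a m : ℝ) (ha : 0 ≤ a) (ha4 : a ≤ 4) (hm1 : 1 ≤ m) (hm : m ^ 2 ≤ a) (t : ℂ)
    (ht : ‖t‖ ≤ 1) : (m - 1) ^ 2 ≤ ‖t ^ 2 + a * t + a‖ := by
  obtain ⟨r, hr⟩ : ∃ r : ℂ, r = ⟨-a / 2, √(a - a ^ 2 / 4)⟩ := ⟨_, rfl⟩
  have hs : 0 ≤ a - a ^ 2 / 4 := by nlinarith
  have h1 : r + (starRingEnd ℂ) r = -a := by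
    rw [Complex.add_conj, hr]
    push_cast
    ring
  have h2 : Complex.normSq r = a := by
    rw [hr, Complex.normSq_mk, Real.mul_self_sqrt hs]
    ring
  have h3 : r * (starRingEnd ℂ) r = a := by
    rw [Complex.mul_conj, h2]
  have h4 : m ≤ ‖r‖ := by
    refine abs_le_of_sq_le_sq' ?_ (norm_nonneg r) |>.2
    rw [← Complex.normSq_eq_norm_sq, h2]
    exact hm
  have h5 : t ^ 2 + a * t + a = (t - r) * (t - (starRingEnd ℂ) r) := by
    have : (t - r) * (t - (starRingEnd ℂ) r) =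
        t ^ 2 - (r + (starRingEnd ℂ) r) * t + r * (starRingEnd ℂ) r := by ring
    rw [this, h1, h3]
    ring
  rw [h5, norm_mul, sq]
  have h6 : m - 1 ≤ ‖t - r‖ := by
    have := norm_sub_norm_le r t
    rw [norm_sub_rev] at this
    linarith
  have h7 : m - 1 ≤ ‖t - (starRingEnd ℂ) r‖ := by
    have := norm_sub_norm_le ((starRingEnd ℂ) r) t
    rw [norm_sub_rev, RCLike.norm_conj] at this
    linarith
  exact mul_le_mul h6 h7 (by linarith) (norm_nonneg _)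

private theorem main {R : ℝ} (hR : 31 ≤ R) {u : ℂ} (h : psi u = psi (-(R * Complex.I))) (hu : u ≠ -(R * Complex.I)) :
    R < ‖u + R * Complex.I‖ := by
  by_contra hcon
  rw [not_lt] at hcon
  have hR0 : (R : ℂ) ≠ 0 := by
    rw [Complex.ofReal_ne_zero]
    linarith
  obtain ⟨v, hv⟩ : ∃ v : ℂ, v = -(R * Complex.I) := ⟨_, rfl⟩
  have hv0 : v ≠ 0 := by
    rw [hv]
    exact neg_ne_zero.2 (mul_ne_zero hR0 Complex.I_ne_zero)
  have hvn : ‖v‖ = R := by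
    rw [hv, norm_neg, norm_mul, Complex.norm_I, mul_one, Complex.norm_real, Real.norm_eq_abs,
      abs_of_nonneg (by linarith)]
  rw [← hv] at h hu
  have hcon' : ‖u - v‖ ≤ R := by
    rw [hv, sub_neg_eq_add]
    exact hcon
  obtain ⟨t, ht⟩ : ∃ t : ℂ, t = (u - v) / v := ⟨_, rfl⟩
  have hut : u = v * (1 + t) := by
    rw [ht]
    field_simp
    ring
  have ht0 : t ≠ 0 := by
    intro h0
    rw [h0, add_zero, mul_one] at hut
    exact hu hut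
  have htn : ‖t‖ ≤ 1 := by
    rw [ht, norm_div, hvn]
    exact div_le_one_of_le₀ hcon' (by linarith)
  have hp : 3 * v ^ 4 * (5 + 10 * t + 10 * t ^ 2 + 5 * t ^ 3 + t ^ 4) =
      10 * v ^ 2 * (3 + 3 * t + t ^ 2) - 15 := by
    have h1 : v * t * (3 * v ^ 4 * (5 + 10 * t + 10 * t ^ 2 + 5 * t ^ 3 + t ^ 4) -
        (10 * v ^ 2 * (3 + 3 * t + t ^ 2) - 15)) = 0 := by
      have h2 : psi u - psi v = 0 := sub_eq_zero.2 h
      rw [hut, psi, psi] at h2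
      linear_combination (-8) * h2
    exact sub_eq_zero.1 ((mul_eq_zero.1 h1).resolve_left (mul_ne_zero hv0 ht0))
  obtain ⟨a, ha⟩ : ∃ a : ℝ, a = (5 - √5) / 2 := ⟨_, rfl⟩
  obtain ⟨b, hb⟩ : ∃ b : ℝ, b = (5 + √5) / 2 := ⟨_, rfl⟩
  have h5 : √5 ^ 2 = 5 := Real.sq_sqrt (by norm_num)
  have h5p : 0 ≤ √5 := Real.sqrt_nonneg 5
  have h5l : (2.236 : ℝ) ≤ √5 := by
    apply Real.le_sqrt_of_sq_le
    norm_num
  have h5u : √5 ≤ (2.2361 : ℝ) := by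
    rw [Real.sqrt_le_left (by norm_num)]
    norm_num
  have hab : a + b = 5 := by rw [ha, hb]; ring
  have hab2 : a * b = 5 := by
    rw [ha, hb]
    nlinarith
  have hfac : (5 + 10 * t + 10 * t ^ 2 + 5 * t ^ 3 + t ^ 4) =
      (t ^ 2 + a * t + a) * (t ^ 2 + b * t + b) := by
    have e1 : (a : ℂ) + b = 5 := by
      rw [← Complex.ofReal_add, hab]
      norm_num
    have e2 : (a : ℂ) * b = 5 := by
      rw [← Complex.ofReal_mul, hab2]
      norm_num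
    have e3 : (t ^ 2 + a * t + a) * (t ^ 2 + b * t + b) =
      t ^ 4 + ((a : ℂ) + b) * t ^ 3 + (((a : ℂ) + b) + (a : ℂ) * b) * t ^ 2 +
        2 * ((a : ℂ) * b) * t + (a : ℂ) * b := by ring
    rw [e3, e1, e2]
    ring
  have hq1 := quad a 1.1755 (by rw [ha]; linarith) (by rw [ha]; linarith) (by norm_num)
    (by rw [ha]; norm_num; linarith) t htn
  have hq2 := quad b 1.902 (by rw [hb]; linarith) (by rw [hb]; linarith) (by norm_num)
    (by rw [hb]; norm_num; linarith) t htn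
  have hq : (0.025 : ℝ) ≤ ‖(5 + 10 * t + 10 * t ^ 2 + 5 * t ^ 3 + t ^ 4 : ℂ)‖ := by
    rw [hfac, norm_mul]
    calc (0.025 : ℝ) ≤ (1.1755 - 1) ^ 2 * (1.902 - 1) ^ 2 := by norm_num
      _ ≤ _ := mul_le_mul hq1 hq2 (by positivity) (norm_nonneg _)
  have hn := congrArg (fun z : ℂ => ‖z‖) hp
  have hl : ‖3 * v ^ 4 * (5 + 10 * t + 10 * t ^ 2 + 5 * t ^ 3 + t ^ 4)‖ =
      3 * R ^ 4 * ‖(5 + 10 * t + 10 * t ^ 2 + 5 * t ^ 3 + t ^ 4 : ℂ)‖ := by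
    rw [norm_mul, norm_mul, norm_pow, hvn]
    norm_num
  have hr : ‖10 * v ^ 2 * (3 + 3 * t + t ^ 2) - 15‖ ≤ 70 * R ^ 2 + 15 := by
    have e1 : ‖3 + 3 * t + t ^ 2‖ ≤ 7 := by
      calc ‖3 + 3 * t + t ^ 2‖ ≤ ‖3 + 3 * t‖ + ‖t ^ 2‖ := norm_add_le _ _
        _ ≤ (‖(3 : ℂ)‖ + ‖3 * t‖) + ‖t ^ 2‖ := by gcongr; exact norm_add_le _ _
        _ ≤ (3 + 3 * 1) + 1 := by
          rw [norm_mul, norm_pow]
          have : ‖(3 : ℂ)‖ = 3 := by norm_num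
          rw [this]
          have h9 : ‖t‖ ^ 2 ≤ 1 := pow_le_one₀ (norm_nonneg t) htn
          linarith
        _ = 7 := by norm_num
    calc ‖10 * v ^ 2 * (3 + 3 * t + t ^ 2) - 15‖
        ≤ ‖10 * v ^ 2 * (3 + 3 * t + t ^ 2)‖ + ‖(15 : ℂ)‖ := norm_sub_le _ _
      _ = 10 * R ^ 2 * ‖3 + 3 * t + t ^ 2‖ + 15 := by
        rw [norm_mul, norm_mul, norm_pow, hvn]
        norm_num
      _ ≤ 10 * R ^ 2 * 7 + 15 := by gcongr
      _ = 70 * R ^ 2 + 15 := by ring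
  rw [hl] at hn
  have h6 : 3 * R ^ 4 * 0.025 ≤ 70 * R ^ 2 + 15 := by
    calc 3 * R ^ 4 * 0.025 ≤ 3 * R ^ 4 *
        ‖(5 + 10 * t + 10 * t ^ 2 + 5 * t ^ 3 + t ^ 4 : ℂ)‖ := by gcongr
      _ ≤ _ := by rw [hn]; exact hr
  have h7 : 961 ≤ R ^ 2 := by nlinarith
  nlinarith [h7, h6, sq_nonneg (R ^ 2)]

theorem tQ4 : S_Q4 := by
  refine ⟨31, by norm_num, fun R u hR h hu => ?_⟩
  by_contra hne
  have e : uz R = -(R * Complex.I) := by
    rw [uz, mul_comm]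
  rw [e] at h hu hne
  have h1 := main hR h hne
  rw [sub_neg_eq_add] at hu
  exact absurd hu h1.not_ge

end LC465
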