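import Pool.Agent.Lib.LC465.Spec

/-!
# LC465, module Sgn: values of `ψ` on the curves between the cells

With `s = |Re u|`, `Y = (Im u)²`, `q = s² - 1` the curve `Im ψ = 0` is `Y² - (10 q + 20/3) Y + 5 q² = 0`,
on it `2 (|Re ψ| - 1) = δ := A Y - N`, `A = 5 s (6 s² - 1)`, `N = (s - 1)² (18 s³ + 36 s² + 19 s + 2)`, and
`δ (A (10 q + 20/3) - A Y - N) = - (s - 1)³ R(s)`, `R > 0`.
-/

set_option autoImplicit false

namespace LC465

namespace SgnAux

/-- `δ W = -(s - 1)³ R`, and `2 (r - 1) = δ`. -/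
private lemma ids (s Y r : ℝ) (hG : (s ^ 2 - 1 - Y) ^ 2 = (4 / 3) * Y + (4 / 5) * Y ^ 2)
    (hr : r = s / 8 * (3 * (s ^ 2) ^ 2 - 30 * s ^ 2 * Y + 15 * Y ^ 2 - 10 * s ^ 2 + 30 * Y + 15)) :
    2 * (r - 1) = 5 * s * (6 * s ^ 2 - 1) * Y - (s - 1) ^ 2 * (18 * s ^ 3 + 36 * s ^ 2 + 19 * s + 2) ∧
    (5 * s * (6 * s ^ 2 - 1) * Y - (s - 1) ^ 2 * (18 * s ^ 3 + 36 * s ^ 2 + 19 * s + 2)) *
      (5 * s * (6 * s ^ 2 - 1) * (10 * (s ^ 2 - 1) + 20 / 3) - 5 * s * (6 * s ^ 2 - 1) * Y -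
        (s - 1) ^ 2 * (18 * s ^ 3 + 36 * s ^ 2 + 19 * s + 2)) =
      -(s - 1) ^ 3 * (4 + 116 / 3 * s + 204 * s ^ 2 + 660 * s ^ 3 + 1440 * s ^ 4 + 2016 * s ^ 5 +
        1728 * s ^ 6 + 576 * s ^ 7) := by
  constructor
  · rw [hr]
    linear_combination (75 / 4) * s * hG
  · linear_combination -(5 * s * (6 * s ^ 2 - 1)) ^ 2 * 5 * hG

private lemma core (s Y r : ℝ) (hs : 0 < s) (hY : 0 < Y)
    (hG : (s ^ 2 - 1 - Y) ^ 2 = (4 / 3) * Y + (4 / 5) * Y ^ 2)
    (hr : r = s / 8 * (3 * (s ^ 2) ^ 2 - 30 * s ^ 2 * Y + 15 * Y ^ 2 - 10 * s ^ 2 + 30 * Y + 15)) :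
    (1 + Y < s ^ 2 → r < 1) ∧ (s ^ 2 < 1 + Y → 1 < r) := by
  obtain ⟨h1, h2⟩ := ids s Y r hG hr
  set A : ℝ := 5 * s * (6 * s ^ 2 - 1) with hA
  set N : ℝ := (s - 1) ^ 2 * (18 * s ^ 3 + 36 * s ^ 2 + 19 * s + 2) with hN
  set R : ℝ := 4 + 116 / 3 * s + 204 * s ^ 2 + 660 * s ^ 3 + 1440 * s ^ 4 + 2016 * s ^ 5 +
        1728 * s ^ 6 + 576 * s ^ 7 with hR
  have hRp : 0 < R := by rw [hR]; positivity
  constructor
  · intro h
    have hs1 : 1 < s := by nlinarith
    have hAp : 0 < A := by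
      rw [hA]
      have : 0 < 6 * s ^ 2 - 1 := by nlinarith
      positivity
    have hc : 0 < A * (10 * (s ^ 2 - 1) + 20 / 3 - 2 * Y) := mul_pos hAp (by nlinarith)
    have hneg : (A * Y - N) * (A * (10 * (s ^ 2 - 1) + 20 / 3) - A * Y - N) < 0 := by
      rw [h2]
      have h3 : 0 < (s - 1) ^ 3 := pow_pos (sub_pos.2 hs1) 3
      have h4 := mul_pos h3 hRp
      linarith
    have hd : A * Y - N < 0 := by
      by_contra hcon
      have hd0 : 0 ≤ A * Y - N := not_lt.1 hcon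
      have hW : 0 ≤ A * (10 * (s ^ 2 - 1) + 20 / 3) - A * Y - N := by nlinarith
      exact absurd (mul_nonneg hd0 hW) (not_le.2 hneg)
    linarith
  · intro h
    have hX : 1 / 2 < s ^ 2 := by
      by_contra hcon
      have h0 : s ^ 2 ≤ 1 / 2 := not_lt.1 hcon
      have h3 : (1 / 2 + Y) ^ 2 ≤ (s ^ 2 - 1 - Y) ^ 2 := by nlinarith
      nlinarith [sq_nonneg (Y - 5 / 6)]
    have hAp : 0 < A := by
      rw [hA]
      have : 0 < 6 * s ^ 2 - 1 := by nlinarith
      positivity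
    have hd : 0 < A * Y - N := by
      rcases lt_trichotomy s 1 with hs1 | hs1 | hs1
      · -- `s < 1`
        have hpos : 0 < (A * Y - N) * (A * (10 * (s ^ 2 - 1) + 20 / 3) - A * Y - N) := by
          rw [h2]
          have h3 : 0 < (1 - s) ^ 3 := pow_pos (sub_pos.2 hs1) 3
          have h4 := mul_pos h3 hRp
          have h5 : -(s - 1) ^ 3 * R = (1 - s) ^ 3 * R := by ring
          rw [h5]
          exact h4
        by_contra hcon
        have hd0 : A * Y - N ≤ 0 := not_lt.1 hcon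
        have hW : A * (10 * (s ^ 2 - 1) + 20 / 3) - A * Y - N < 0 := by
          by_contra hW
          exact absurd (mul_nonpos_of_nonpos_of_nonneg hd0 (not_lt.1 hW)) (not_le.2 hpos)
        have hsum : A * (10 * (s ^ 2 - 1) + 20 / 3) - 2 * N < 0 := by linarith
        have hs7 : 0 < s - 7 / 10 := by
          by_contra h7
          have : s ≤ 7 / 10 := by linarith [not_lt.1 h7]
          nlinarith
        obtain ⟨t, ht⟩ : ∃ t, t = s - 7 / 10 := ⟨_, rfl⟩
        have hst : s = t + 7 / 10 := by rw [ht]; ring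
        have ht0 : 0 < t := by rw [ht]; exact hs7
        have hid : A * (10 * (s ^ 2 - 1) + 20 / 3) - 2 * N =
            2 * (132 * t ^ 5 + 462 * t ^ 4 + 3034 / 5 * t ^ 3 + 9219 / 25 * t ^ 2 +
              139499 / 1500 * t + 134893 / 75000) := by
          rw [hA, hN, hst]
          ring
        rw [hid] at hsum
        have : 0 < 2 * (132 * t ^ 5 + 462 * t ^ 4 + 3034 / 5 * t ^ 3 + 9219 / 25 * t ^ 2 +
              139499 / 1500 * t + 134893 / 75000) := by positivity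
        exact absurd hsum (not_lt.2 this.le)
      · -- `s = 1`
        rw [hA, hN, hs1]
        linarith
      · -- `s > 1`
        have hq : 0 < s ^ 2 - 1 := by nlinarith
        have hneg : (A * Y - N) * (A * (10 * (s ^ 2 - 1) + 20 / 3) - A * Y - N) < 0 := by
          rw [h2]
          have h3 : 0 < (s - 1) ^ 3 := pow_pos (sub_pos.2 hs1) 3
          have h4 := mul_pos h3 hRp
          linarith
        have hprod : 0 < (Y - (s ^ 2 - 1)) * (Y + (s ^ 2 - 1) - (10 * (s ^ 2 - 1) + 20 / 3)) := by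
          have h5 : (Y - (s ^ 2 - 1)) * (Y + (s ^ 2 - 1) - (10 * (s ^ 2 - 1) + 20 / 3)) =
              4 * (s ^ 2 - 1) * (s ^ 2 - 1 + 5 / 3) := by
            linear_combination 5 * hG
          rw [h5]
          have : 0 < s ^ 2 - 1 + 5 / 3 := by linarith
          positivity
        have hYq : 0 < Y - (s ^ 2 - 1) := by linarith
        have hY2 : 0 < Y + (s ^ 2 - 1) - (10 * (s ^ 2 - 1) + 20 / 3) :=
          (mul_pos_iff_of_pos_left hYq).1 hprod
        have hc : A * (10 * (s ^ 2 - 1) + 20 / 3 - 2 * Y) < 0 :=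
          mul_neg_of_pos_of_neg hAp (by linarith)
        by_contra hcon
        have hd0 : A * Y - N ≤ 0 := not_lt.1 hcon
        have hW : A * (10 * (s ^ 2 - 1) + 20 / 3) - A * Y - N ≤ 0 := by nlinarith
        exact absurd (mul_nonneg_of_nonpos_of_nonpos hd0 hW) (not_le.2 hneg)
    linarith

end SgnAux

theorem tSgn : S_Sgn := by
  intro u hu h0
  have hY : 0 < u.im ^ 2 := by
    have := mul_pos_of_neg_of_neg hu hu
    nlinarith
  have hG : (u.re ^ 2 - 1 - u.im ^ 2) ^ 2 = (4 / 3) * u.im ^ 2 + (4 / 5) * (u.im ^ 2) ^ 2 := by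
    rw [psi_im] at h0
    have h1 : -(15 / 8) * u.im ≠ 0 := mul_ne_zero (by norm_num) hu.ne
    have h2 := (mul_eq_zero.1 h0).resolve_left h1
    linarith
  have hr := psi_re u
  refine ⟨fun h1 h2 => ?_, fun h1 h2 => ?_, fun h1 h2 => ?_, fun h1 h2 => ?_⟩
  · exact (SgnAux.core (-u.re) (u.im ^ 2) (psi u).re (by linarith) hY (by rw [neg_sq]; exact hG)
      (by rw [hr]; ring)).1 (by rw [neg_sq]; exact h2)
  · exact (SgnAux.core (-u.re) (u.im ^ 2) (psi u).re (by linarith) hY (by rw [neg_sq]; exact hG)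
      (by rw [hr]; ring)).2 (by rw [neg_sq]; exact h2)
  · have h := (SgnAux.core u.re (u.im ^ 2) (-(psi u).re) h1 hY hG (by rw [hr]; ring)).1 h2
    linarith
  · have h := (SgnAux.core u.re (u.im ^ 2) (-(psi u).re) h1 hY hG (by rw [hr]; ring)).2 h2
    linarith

end LC465
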