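import Pool.Agent.Lib.LC465.Defs

/-!
# LC465: the statements of the modules, with complete proofs

THEOREM (S04540).  There is an entire map `F` of `ℂ²`, injective on a ball of radius `r > 1`,
`F 0 = 0`, `DF(0) = I`, whose restriction to the unit ball is not the initial element of a normalized
Loewner chain.  Paper proof: note 4177.

Every statement `S_X` is proved in `X.lean` as `theorem tX : S_X`, or
`theorem tX (h1 : S_Y) (h2 : S_Z) … : S_X` if the docstring says `uses S_Y, S_Z, …` (in this order; the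
hypotheses are statements, do not import their modules).  Unused hypotheses may be dropped, further
statements of this file or of `Pool.Agent.Lib.MP_465591_an.Spec` may be added as hypotheses (say so in
the note of the task).  Auxiliary lemmas private or in a namespace `XAux`.
-/

set_option autoImplicit false

open Metric Set Filter Topology

namespace LC465

open Pool.Agent.Lib.MP_465591_an

/-! ## Part P: the quintic -/

/-- **Q1** (50 lines).  Two points of the lower half plane with the same value of `ψ` and the same real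
part are equal.

PROOF.  `psi_sub`: `u = v` or `dd u v = 0`.  Write `u = m + i d`, `v = m - i d`, `m = x + i e`,
`x = Re u = Re v`, `e = (Im u + Im v)/2 < 0`, `d = (Im u - Im v)/2` (real; if `d = 0` then `u = v`).  By
`ring`: `dd u v = -(15/8) (m⁴ - 2 m² (1 + d²) + 1 + (2/3) d² + d⁴/5)`.  So if it is `0` then
`(m² - 1 - d²)² = (4/3) d² + (4/5) d⁴ =: D > 0` (real).  A complex number whose square is a positive real
number is real (if `w² = D > 0`, `2 Re w Im w = 0`, `(Re w)² - (Im w)² > 0`), so `Im (m²) = 2 x e = 0`,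
`x = 0`, `m² = -e²`, `(1 + d² + e²)² = D < (1 + d²)²`, contradiction. -/
def S_Q1 : Prop := ∀ u v : ℂ, u.im < 0 → v.im < 0 → u.re = v.re → psi u = psi v → u = v

/-- **Ex** (130 lines).  Each cell is mapped onto its half plane.

PROOF.  Let `C` be one of the cells (an open set, conditions with continuous functions), `P` its half
plane.  `E = psi '' C` is open: `psi` has a nonzero derivative on `C` (`hasDerivAt_psi`, `dpsi_ne`; strict
derivative since `psi` is a polynomial / analytic; `HasStrictDerivAt.map_nhds_eq` or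
`AnalyticOnNhd.is_constant_or_isOpen`).  `E` is closed in `P`: let `c ∈ P`, `u_k ∈ C`, `psi u_k → c`.  The
sequence `u_k` is bounded (for `‖u‖ ≥ 3`: `‖psi u‖ ≥ (3‖u‖⁵ - 10‖u‖³ - 15‖u‖)/8 ≥ ‖u‖`), so a subsequence
converges to `u`, `psi u = c`, `u.im ≤ 0`; `u.im = 0` would give `(psi u).im = 0` (`psi_im`), so `u.im < 0`.
`(psi u).im = c.im` has the right sign.  The other conditions hold as weak inequalities; equality is
impossible by `im_neg_of_eq` (for `X = 1 + Y`, cells 1, 3, 5) and `im_pos_of_re` (for `x = 0`, cells 2, 4),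
and in cells 1, 5 `x = 0` contradicts `X ≥ 1 + Y`.  `E` is not empty: `-3 - i ∈ C1`, `-1 - i/2 ∈ C2`,
`-i ∈ C3`, `1 - i/2 ∈ C4`, `3 - i ∈ C5` (`psi_im`).  `P` is convex, so preconnected: `E = P`. -/
def S_Ex : Prop :=
  (∀ c : ℂ, 0 < c.im → (∃ u ∈ C1, psi u = c) ∧ (∃ u ∈ C3, psi u = c) ∧ ∃ u ∈ C5, psi u = c) ∧
  ∀ c : ℂ, c.im < 0 → (∃ u ∈ C2, psi u = c) ∧ ∃ u ∈ C4, psi u = c

/-- **Cnt** (90 lines; uses `S_Ex`).  There are no other roots in the lower half plane, and the root in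
each cell is unique.

PROOF.  `psi u = c` is a polynomial equation of degree `5` in `u` (`3u⁵ - 10u³ + 15u + 8c = 0`), so a finset
of its solutions has at most `5` elements (`Polynomial.card_roots'`).  Let `Im c > 0` and `u1, u3, u5` as in
the statement.  By `S_Ex` for `conj c` there are `w2 ∈ C2`, `w4 ∈ C4` with `psi w = conj c`, so
`psi (conj w) = c` (`psi_conj`), and `conj w2`, `conj w4` have positive imaginary part.  The five points
`u1, u3, u5, conj w2, conj w4` are different (the cells are disjoint).  So they are all the solutions, and a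
solution `u` with `u.im < 0` is one of the first three.  Similarly for `Im c < 0` (three conjugate roots). -/
def S_Cnt : Prop :=
  (∀ u1 ∈ C1, ∀ u3 ∈ C3, ∀ u5 ∈ C5, psi u3 = psi u1 → psi u5 = psi u1 →
    ∀ u : ℂ, u.im < 0 → psi u = psi u1 → u = u1 ∨ u = u3 ∨ u = u5) ∧
  ∀ u2 ∈ C2, ∀ u4 ∈ C4, psi u4 = psi u2 → ∀ u : ℂ, u.im < 0 → psi u = psi u2 → u = u2 ∨ u = u4

/-- **Ord** (110 lines; uses `S_Q1`, `S_Ex`, `S_Cnt`).  The order of the roots over the upper half plane.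

PROOF.  Let `E` be the set of all `c` with `0 < c.im` for which there are `u3 ∈ C3`, `u5 ∈ C5` with
`psi u3 = c = psi u5`, `u3.re < u5.re`.  `E` is open: `psi` maps neighbourhoods of `u3` in `C3` and of `u5` in
`C5` onto neighbourhoods of `c` (see `S_Ex`).  `E` is closed in the upper half plane: take limits of
subsequences as in the proof of `S_Ex`; in the limit `u3.re ≤ u5.re`, and equality is impossible by `S_Q1`
(`u3 ≠ u5` as the cells are disjoint).  `E` is not empty: `u3 = -i`, `c = psi (-i)`, `u5` from `S_Ex`,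
`u3.re = 0 < u5.re`.  So `E` is the upper half plane; by uniqueness (`S_Cnt`: a point of `C3` over `c` is `u3`,
a point of `C5` over `c` is `u5`; use also `S_Ex` for `C1`) the first claim holds for all `u3, u5`.  The
second claim follows from the first one with the symmetry `u ↦ -conj u` (`psi_mir`), which exchanges `C1`
and `C5` and maps `C3` to itself. -/
def S_Ord : Prop :=
  ∀ u3 ∈ C3, (∀ u5 ∈ C5, psi u5 = psi u3 → u3.re < u5.re) ∧ ∀ u1 ∈ C1, psi u1 = psi u3 → u1.re < u3.re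

/-- **Q4** (90 lines).  The base point is covered once.

PROOF.  `a = uz R = -iR ≠ 0`, `t = (u - a)/a`, `‖t‖ ≤ 1`, `u = a (1 + t)`.  `a² = -R²`, so by `ring`
(`a⁴ = R⁴`) `psi u - psi a = -(a t/8) (3 R⁴ p5(t) + 10 R² p3(t) + 15)`, `p5 = 5 + 10t + 10t² + 5t³ + t⁴`,
`p3 = 3 + 3t + t²`.  Claim: `p5(t) ≠ 0` for `‖t‖ ≤ 1`.  `p5(0) = 5`; `t ≠ 0`: `w = 1 + t`,
`t p5(t) = w⁵ - 1`; if it is `0` then `‖w‖ = 1`, `conj w = w⁻¹`, and `w⁴ + w³ + w² + w + 1 = 0` divided by `w²`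
gives with `s = w + w⁻¹ = 2 Re w`: `s² + s - 1 = 0`, so `s < 1` (if `s ≥ 1` then `s² + s - 1 ≥ 1`), and
`‖t‖² = ‖w - 1‖² = 2 - s > 1`.  By compactness of the closed disc `‖p5(t)‖ ≥ μ > 0` there.
`‖p3(t)‖ ≤ 7`.  Choose `R1` with `3 μ R⁴ > 70 R² + 15` for `R ≥ R1`.  Then `t = 0`. -/
def S_Q4 : Prop :=
  ∃ R1 : ℝ, 0 < R1 ∧ ∀ (R : ℝ) (u : ℂ), R1 ≤ R → psi u = psi (uz R) → ‖u - uz R‖ ≤ R → u = uz R

/-! ## Part B: bump functions and fields -/

/-- **Bmp** (130 lines).  The bump and its primitive.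

PROOF.  `bet`: the function `s ↦ (max 0 s)²` has derivative `2 max 0 s` (three cases; at `0` it is
`O(s²)`), which is continuous, so it is `C¹` (`contDiff_one_iff_deriv`).  `Bt`: for `t < -1/2` it is
constant `0` (`1/2 + 30 (-1/32 + 1/48 - 1/160) = 0`), for `t > 1/2` constant `1`, for `|t| < 1/2` it is a
polynomial with derivative `30 (1/16 - t²/2 + t⁴) = 30 (1/4 - t²)²`; at `t = ± 1/2` the one sided
derivatives are `0` (`HasDerivWithinAt.union` or: `Bt t = ∫ s in (-1/2)..t, bet s` by comparing the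
polynomial primitive, and FTC `intervalIntegral.integral_hasDerivAt_right`; another way:
`Bt = q ∘ clp`-free formula with `max`).  `deriv Bt = bet` is continuous, so `Bt` is `C¹`.  The values are
elementary (`Bt` is monotone as its derivative is `≥ 0`, so it is between `0` and `1`; `Bt (-t) = 1 - Bt t` as
`clp` is odd); `30 (1/4 - 1/64)² = 1.64… ≥ 3/2`. -/
def S_Bmp : Prop :=
  ContDiff ℝ 1 bet ∧ ContDiff ℝ 1 Bt ∧ (∀ t, HasDerivAt Bt (bet t) t) ∧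
  (∀ t, 0 ≤ bet t ∧ bet t ≤ 15 / 8 ∧ 0 ≤ Bt t ∧ Bt t ≤ 1 ∧ bet (-t) = bet t ∧ Bt (-t) = 1 - Bt t) ∧
  (∀ t, 1 / 2 ≤ |t| → bet t = 0) ∧ (∀ t, t ≤ -(1 / 2) → Bt t = 0) ∧ (∀ t, 1 / 2 ≤ t → Bt t = 1) ∧
  ∀ t, |t| ≤ 1 / 8 → 3 / 2 ≤ bet t

/-- **Dv** (130 lines; uses `S_Bmp`).  Smoothness and divergences of `nR` and `nB`; mirror images.

PROOF.  A map `c ↦ ⟨f c, g c⟩ : ℂ → ℂ` is `c ↦ (f c : ℂ) + (g c) I`; it is `C¹` (real) if `f`, `g` are, and its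
divergence is `∂f/∂x + ∂g/∂y` (derivative of `f` in direction `1`, of `g` in direction `I`).  The functions
`Re`, `Im` are real linear.  Product rule with `HasDerivAt Bt (bet t) t`; the terms with derivatives of
`bet` do not occur since `f` contains `bet` only of `y` and `g` contains `bet` only of `x`.
`mir n = -conj ∘ n ∘ (-conj)`: `fderiv ℝ (mir n) c v = -conj (fderiv ℝ n (-conj c) (-conj v))`, for `v = 1`:
`-conj 1 = -1`, real part `(fderiv n 1).re`; `v = I`: `-conj I = I`, imaginary part `(fderiv n I).im`. -/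
def S_Dv : Prop :=
  ContDiff ℝ 1 nR ∧ ContDiff ℝ 1 nB ∧
  (∀ n : ℂ → ℂ, ContDiff ℝ 1 n → ContDiff ℝ 1 (mir n) ∧ ∀ c, dv (mir n) c = dv n (-(starRingEnd ℂ c))) ∧
  (∀ c : ℂ, dv nR c = bet (c.im + 5 / 2) * Bt c.re * (1 - Bt (c.re - 5 / 2)) / 60
    + Hb c.re * bet (c.im + 5 / 2) * (bet c.re * (1 - Bt (c.re - 5 / 2)) - Bt c.re * bet (c.re - 5 / 2))
    + bet (c.im + 5 / 2) * (Vr c.im * bet (c.re - 5 / 2) - Vm c.im * bet c.re)
    + Bt (c.im + 5 / 2) * (bet (c.re - 5 / 2) + bet c.re) / 60) ∧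
  ∀ c : ℂ, dv nB c = bet (c.im - 5 / 2) * Bt c.re * (1 - Bt (c.re - 5 / 2)) / 60
    - Ht c.re * bet (c.im - 5 / 2) * (bet c.re * (1 - Bt (c.re - 5 / 2)) - Bt c.re * bet (c.re - 5 / 2))
    - bet (c.im - 5 / 2) * (Vr c.im * bet (c.re - 5 / 2) - 2 * Vm c.im * bet c.re)
    + (1 - Bt (c.im - 5 / 2)) * (bet (c.re - 5 / 2) + 2 * bet c.re) / 60

/-- **N1** (130 lines; uses `S_Bmp`, `S_Dv`).  The fields satisfy `|n|² ≤ 2000 div n`.

PROOF.  `x = Re c`, `y = Im c`.  `bet x ≠ 0` implies `|x| < 1/2`, so `Bt (x - 5/2) = 0`; `bet (x - 5/2) ≠ 0`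
implies `2 < x < 3`, so `Bt x = 1`, `bet x = 0`.  So (cases on whether `bet x = 0`, `bet (x - 5/2) = 0`)
`dv nR = qb Bt(x) (1 - Bt(x-5/2))/60 + bet(x) qb (Hb x - Vm y) + bet(x-5/2) qb (Vr y - Hb x)
 + Qb (bet(x-5/2) + bet x)/60`, `qb = bet (y+5/2)`, `Qb = Bt (y+5/2)`.  `qb ≠ 0` implies `-3 < y < -2`, so
`Vm y ≤ 1.05`, `Vr y ≥ 1.25`; `|x| < 1/2`: `Hb x ≥ 1.09`; `2 < x < 3`: `Hb x ≤ 1.15`: all terms are `≥ 0`.
For `y ≤ 4`: `|Vr y| ≤ 1.37` and `|Vm y| ≤ 1.05` if `y ≥ -3` (if `y < -3` then `qb = Qb = 0`),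
`|Hb x| ≤ 1.15` if `-1/2 ≤ x ≤ 3` (otherwise `Bt x (1 - Bt (x-5/2)) = 0`), and `bet ≤ 15/8`, `0 ≤ Bt ≤ 1`, so
`|nR|² ≤ 300 dv nR` (square of each term `≤ 300` times the corresponding term `/60` of `dv nR`; the two
terms of the second component are not both nonzero).  `nL = nR + mir nR`, `|a+b|² ≤ 2|a|² + 2|b|²`, and the
value and the divergence of `mir nR` at `c` are (up to conjugation) those of `nR` at `-conj c` (same
imaginary part).  `nB`: the same, with `qt = bet (y-5/2) ≠ 0` implies `2 < y < 3`: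
`dv nB = qt Bt(x)(1 - Bt(x-5/2))/60 + bet(x) qt (2 Vm y - Ht x) + bet(x-5/2) qt (Ht x - Vr y)
 + (1 - Qt)(bet(x-5/2) + 2 bet x)/60`, `2 Vm y ≥ 1.9`, `Vr y ≤ 1.35`, `1.55 ≤ Ht x ≤ 1.61` for
`-1/2 ≤ x ≤ 3`.  `-4 ≤ y ≤ 3` (for `y > 3` both components are `0`): `|2 Vm y| ≤ 2.14`, `|Vr y| ≤ 1.37`.
Near `c00 = -i/2`: `|x| < 1/8`, `-5/8 < y < -3/8`: `qb = 0`, `Qb = 1`, `bet (x ± 5/2) = 0`,
`nL = -2 Vm y bet x · i`, `dv nL = bet x/30 ≥ 1/20`, `|nL| ≥ 3`. -/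
def S_N1 : Prop :=
  ContDiff ℝ 1 nL ∧ ContDiff ℝ 1 nA ∧ ContDiff ℝ 1 nB ∧
  (∀ c : ℂ, c.im ≤ 4 → ‖nL c‖ ^ 2 ≤ 2000 * dv nL c) ∧
  (∀ c : ℂ, -4 ≤ c.im → ‖nA c‖ ^ 2 ≤ 2000 * dv nA c ∧ ‖nB c‖ ^ 2 ≤ 2000 * dv nB c) ∧
  ∀ c : ℂ, ‖c - c00‖ < 1 / 8 → 1 / 20 ≤ dv nL c ∧ 1 ≤ ‖nL c‖

/-- **N2** (110 lines; uses `S_Bmp`).  Values of the fields near the real axis, supports.

PROOF.  For `|y| < 2`: `bet (y ± 5/2) = 0`, `Bt (y + 5/2) = 1`, `Bt (y - 5/2) = 0`, so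
`nL = (Vr y (bet(x-5/2) + bet(x+5/2)) - 2 Vm y bet x) i`, `nB = (Vr y bet(x-5/2) - 2 Vm y bet x) i`,
`nA = (Vr y bet(x+5/2) - 2 Vm y bet x) i` (`bet` is even, mirror image).  `bet(x-5/2) = 0` for `x ≤ 2`,
`bet(x+5/2) = 0` for `x ≥ -2`, `bet x = 0` for `|x| ≥ 1/2`.  Supports: if `|x| ≥ 3` then
`Bt x (1 - Bt(x-5/2)) = 0`, all `bet` of `x`, `x ± 5/2` vanish; for `y ≤ 0`, `nL ≠ 0` needs `y ≥ -3`; for
`y ≥ 0`, `nA, nB ≠ 0` need `y ≤ 3` (`bet (y-5/2) = 0`, `1 - Bt (y-5/2) = 0` for `y ≥ 3`); `√18 < 5`. -/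
def S_N2 : Prop :=
  (∀ c : ℂ, |c.im| < 2 → c.re < 1 → nA c = nL c) ∧ (∀ c : ℂ, |c.im| < 2 → -1 < c.re → nB c = nL c) ∧
  (∀ c : ℂ, |c.im| < 2 → 1 / 2 ≤ c.re → nA c = 0) ∧
  (∀ c : ℂ, |c.im| < 2 → c.re ≤ -(1 / 2) → nB c = 0) ∧
  (∀ c : ℂ, |c.im| < 2 → 1 / 2 ≤ |c.re| → |c.re| ≤ 2 → nL c = 0 ∧ nA c = 0 ∧ nB c = 0) ∧
  (∀ c : ℂ, c.im ≤ 0 → nL c ≠ 0 → ‖c‖ < 5) ∧ ∀ c : ℂ, 0 ≤ c.im → nA c ≠ 0 ∨ nB c ≠ 0 → ‖c‖ < 5

/-! ## Part N: the jumps -/

/-- **Sgn** (120 lines).  Values of `ψ` on the curves between the cells.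

PROOF.  By the symmetry `u ↦ -conj u` (`psi_mir`) it is enough to treat `u.re < 0`.
`psi u - 1 = -(1/8) (u+1)³ (3u² - 9u + 8)` (`ring`); the zeros of the second factor have real part `3/2`
(`3u² - 9u + 8 = 0` gives `(u - 3/2)² = -5/12`), so `psi u ≠ 1` for `u.im < 0`, `u.re < 0`.  Let
`X = u.re²`, `Y = u.im² > 0`.  By `psi_im`, `(psi u).im = 0` means `(X - 1 - Y)² = (4/3)Y + (4/5)Y² =: D(Y)`,
so `X = 1 + Y + √D` (first case) or `X = 1 + Y - √D` (second case; positive since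
`(1+Y)² - D = 1 + (2/3)Y + Y²/5 > 0`).  The curve `γ(Y) = -√(1 + Y ± √D(Y)) - i √Y`, `Y ∈ (0, ∞)`, is
continuous, `psi ∘ γ` is real and `≠ 1`, so `(psi (γ Y)).re - 1` has constant sign (intermediate value
theorem / `isPreconnected_Ioi`).  At `Y = 5/12`: `√D = 5/6`.  Sign `+`: `X = 9/4`, `x = -3/2`, by `psi_re`
`psi = -1 < 1`.  Sign `-`: `X = 7/12`, by `psi_re` `(psi u).re = (√(7/12)/8) 18 > 1`. -/
def S_Sgn : Prop :=
  ∀ u : ℂ, u.im < 0 → (psi u).im = 0 →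
    (u.re < 0 → 1 + u.im ^ 2 < u.re ^ 2 → (psi u).re < 1) ∧
    (u.re < 0 → u.re ^ 2 < 1 + u.im ^ 2 → 1 < (psi u).re) ∧
    (0 < u.re → 1 + u.im ^ 2 < u.re ^ 2 → -1 < (psi u).re) ∧
    (0 < u.re → u.re ^ 2 < 1 + u.im ^ 2 → (psi u).re < -1)

/-- **Nl** (120 lines; uses `S_N1`, `S_N2`, `S_Sgn`).  `Nf` is locally a `C¹` function of `ψ(u)`.

PROOF.  `(psi u0).im ≠ 0`: `u0` is in a cell (`cells_cover`), the cells are open, `Nf_C1`, …, `Nf_C5`.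
`(psi u0).im = 0`: `u0.re ≠ 0` (`im_pos_of_re`), `X ≠ 1 + Y` (`im_neg_of_eq`); near `u0` the signs of `u.re` and
of `X - 1 - Y` are constant.  `c0 = psi u0` is real, near it `|Im c| < 2`.  Four cases, with `S_Sgn` and
`S_N2`: (x < 0, X > 1 + Y): near `u0` `Nf u` is `nL (psi u)` or `nA (psi u)`, and `Re (psi u) < 1`, so both are
`nL (psi u)`.  (x < 0, X < 1 + Y): `nL (psi u)` or `nB - nA` with `Re (psi u) > 1`: `nA = 0`, `nB = nL`.
(x > 0, X < 1 + Y): `-nL` or `nB - nA` with `Re < -1`: `nB = 0`, `nA = nL`.  (x > 0, X > 1 + Y): `-nL` or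
`-nB` with `Re > -1`: `nB = nL`.  So `n = nL` or `n = -nL`. -/
def S_Nl : Prop :=
  ∀ u0 : ℂ, u0.im < 0 → ∃ n : ℂ → ℂ, ContDiff ℝ 1 n ∧ ∀ᶠ u in 𝓝 u0, Nf u = n (psi u)

/-- **Nk** (120 lines; uses `S_N2`).  The support of `Nf` is a compact subset of the lower half plane.

PROOF.  `Nf u ≠ 0` implies `‖psi u‖ < 5` (`S_N2`, case by case: `Nf u` is a combination of `nL (psi u)` with
`(psi u).im ≤ 0`, or of `nA`, `nB` at `psi u` with `(psi u).im > 0`), so `‖u‖ < 3` (for `‖u‖ ≥ 3`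
`‖psi u‖ ≥ (3‖u‖⁵ - 10‖u‖³ - 15‖u‖)/8 ≥ 17`).  So `SN` is closed and bounded, `‖psi u‖ ≤ 5` on it, `u.im ≤ 0`.
It remains to show: every real `x` has a neighbourhood on which `Nf = 0`.  `x = ± 1`: `psi x = ∓ 1`, near it
`nL = nA = nB = 0` (`S_N2`, fifth statement), so `Nf = 0`.  `|x| > 1`: for `u` near `x` with `u.im < 0`:
`X > 1 + Y` and `(X - 1 - Y)² > (4/3)Y + (4/5)Y²`, so `(psi u).im > 0` (`psi_im`) and `Nf u` is `nA (psi u)`
(`x < -1`) or `-nB (psi u)` (`x > 1`).  `x < -1`: `psi x = 1 - (x+1)³(3x² - 9x + 8)/8 > 1`, so near it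
`nA = 0`; `x > 1`: `psi x < -1`, `nB = 0` near it.  `|x| < 1`: `X < 1 + Y` and again `(psi u).im > 0`, so
`Nf u = nB - nA` at `psi u`, `psi x` is real and in `(-1, 1)` (`psi x < 1` by the formula, and symmetry), so
near it `nA = nL = nB` (`S_N2`, first two statements). -/
def S_Nk : Prop :=
  IsCompact SN ∧ (∀ u ∈ SN, u.im < 0 ∧ ‖psi u‖ ≤ 5) ∧ ∀ u, 5 < ‖psi u‖ → Nf u = 0

/-! ## Part S: the sum of the jumps -/

/-- **Nv** (120 lines; uses `S_Cnt`, `S_Ord`).  Values of `NN` over non real points.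

PROOF.  `Nf u = 0` if `u.im ≥ 0`, and the roots with `u.im < 0` are `u2, u4` resp. `u1, u3, u5` (`S_Cnt`), which
are different.  So the finsum is the sum over those of the two (three) roots with `a + A u.re < X`
(`finsum_mem_eq_of_inter_support_eq`-type lemmas, or `finsum_mem_inter_support` and
`finsum_mem_insert`); their order is `u2.re < 0 < u4.re`, resp. `u1.re < u3.re < u5.re` (`S_Ord`), and
`A > 0`; the values are `Nf_C1` … `Nf_C5`: partial sums `nA`, `nA + (nB - nA) = nB`, `nB - nB = 0`, resp. `nL`,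
`nL - nL = 0`. -/
def S_Nv : Prop :=
  ∀ a A : ℝ, 0 < A →
  (∀ u1 ∈ C1, ∀ u3 ∈ C3, ∀ u5 ∈ C5, psi u3 = psi u1 → psi u5 = psi u1 → ∀ X : ℝ,
    NN a A (psi u1) X = if X ≤ a + A * u1.re then 0 else if X ≤ a + A * u3.re then nA (psi u1)
      else if X ≤ a + A * u5.re then nB (psi u1) else 0) ∧
  ∀ u2 ∈ C2, ∀ u4 ∈ C4, psi u4 = psi u2 → ∀ X : ℝ,
    NN a A (psi u2) X = if X ≤ a + A * u2.re then 0 else if X ≤ a + A * u4.re then nL (psi u2) else 0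

/-- **LocC** (140 lines; uses `S_Ex`, `S_Ord`, `S_Nv`).  Local form of `NN` over non real points.

PROOF.  Case `c0.im < 0` (the other case is similar, with three roots).  `u2 ∈ C2`, `u4 ∈ C4` over `c0`
(`S_Ex`).  For `u2` let `s2` be a local inverse of `psi` (nonzero derivative; `HasStrictDerivAt.localInverse`
or `toOpenPartialHomeomorph`): continuous at `c0`, `s2 c0 = u2`, `psi (s2 c) = c`, `s2 c ∈ C2` for `c` near `c0`;
the same for `u4`.  By `S_Nv` for `c` near `c0` and all `X`: `NN a A c X` is given by the if-formula with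
`s2 c`, `s4 c` in the place of `u2, u4`.  If `u2 ∈ SN` then `a + A u2.re ≠ X0`, so the condition
`X ≤ a + A (s2 c).re` is constant near `(c0, X0)`.  If `u2 ∉ SN` then `Nf = 0` near `u2`, so
`nL c = Nf (s2 c) = 0` for `c` near `c0`, and then `NN = 0` near `(c0, X0)` in any case.  The same for `u4`
(`nL c = -Nf (s4 c)`).  For three roots: if `u1 ∉ SN` then `nA = 0` near `c0` and the first condition may be
replaced by its value at `(c0, X0)` (if `X ≤ a + A (s1 c).re` then also `X ≤ a + A (s3 c).re`, and both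
values are `0`; careful with the last cases: `u1.re < u3.re < u5.re`); if `u3 ∉ SN` then `nA = nB` near `c0`;
if `u5 ∉ SN` then `nB = 0` near `c0`. -/
def S_LocC : Prop :=
  ∀ (a A : ℝ), 0 < A → ∀ (c0 : ℂ) (X0 : ℝ), c0.im ≠ 0 → (∀ u ∈ SN, psi u = c0 → a + A * u.re ≠ X0) →
    ∃ n : ℂ → ℂ, (c0.im < 0 ∧ (n = 0 ∨ n = nL) ∨ 0 < c0.im ∧ (n = 0 ∨ n = nA ∨ n = nB)) ∧
      ∀ᶠ p in 𝓝 (c0, X0), NN a A p.1 p.2 = n p.1

/-- **LocG** (160 lines; uses `S_Nl`, `S_Nk`).  Local form of `NN`, general case.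

PROOF.  `S0 = {u ∈ SN | psi u = c0}` is finite (roots of a polynomial).  For `r ∈ S0`: `r.im < 0`, a local
inverse `s_r` of `psi` at `r`, i.e. an open set `V_r ∋ r`, the `V_r` (`r ∈ S0`) pairwise disjoint, with `psi`
injective on `V_r`, and `s_r c ∈ V_r`, `psi (s_r c) = c` for `c` near `c0`, `s_r` continuous at `c0`;
`n_r` from `S_Nl`: `Nf (s_r c) = n_r c` for `c` near `c0`.  Claim: there is a neighbourhood `W` of `c0` such that for
`c ∈ W` all `u` with `psi u = c`, `Nf u ≠ 0` are among the `s_r c`: otherwise there are `c_k → c0`,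
`w_k ∈ SN`, `psi w_k = c_k`, `w_k ∉ ⋃ V_r` (an element of `V_r` over `c_k` is `s_r c_k`); a subsequence
converges to `w ∈ SN`, `psi w = c0`, so `w ∈ S0`, `w ∈ V_w` open, contradiction.  (Or: `SN \ ⋃ V_r` is compact,
its image under `psi` is closed and does not contain `c0`.)  So for `(c, X)` near `(c0, X0)`:
`NN a A c X = Σ_{r ∈ S0} (if a + A (s_r c).re < X then Nf (s_r c) else 0)`, and since `a + A r.re ≠ X0` the
conditions are constant near `(c0, X0)`: `n = Σ_{r ∈ S0, a + A r.re < X0} n_r`. -/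
def S_LocG : Prop :=
  ∀ (a A : ℝ) (c0 : ℂ) (X0 : ℝ), (∀ u ∈ SN, psi u = c0 → a + A * u.re ≠ X0) →
    ∃ n : ℂ → ℂ, ContDiff ℝ 1 n ∧ ∀ᶠ p in 𝓝 (c0, X0), NN a A p.1 p.2 = n p.1

/-- **Inq** (100 lines; uses `S_N1`, `S_Nk`, `S_LocC`, `S_LocG`).  The inequality for `NN`.

PROOF.  `n` from `S_LocG`.  The set of all `(psi u, a + A u.re)`, `u ∈ SN`, is compact (`S_Nk`), so closed; hence
for `c` near `c0` the point `(c, X0)` also satisfies the hypothesis.  For such `c` with `c.im ≠ 0`,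
(`S_N1` needs `c.im ≤ 4` for `nL`, true for `c.im < 0`, and `-4 ≤ c.im` for `nA, nB`, true for
`c.im > 0`) `S_LocC` gives `n'` with `NN a A p.1 p.2 = n' p.1` near `(c, X0)`, so `n = n'` near `c` (both
are `NN a A · X0`), so `dv n c = dv n' c` and `‖n c‖² ≤ 2000 dv n c`.  (For `n' = 0` both sides are `0`.)  The
non real points are dense near `c0`, both sides are continuous in `c` (`ContDiff ℝ 1 n`), so the inequality
holds at `c0`. -/
def S_Inq : Prop :=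
  ∀ (a A : ℝ), 0 < A → ∀ (c0 : ℂ) (X0 : ℝ), (∀ u ∈ SN, psi u = c0 → a + A * u.re ≠ X0) →
    ∃ n : ℂ → ℂ, ContDiff ℝ 1 n ∧ (∀ᶠ p in 𝓝 (c0, X0), NN a A p.1 p.2 = n p.1) ∧
      ‖n c0‖ ^ 2 ≤ 2000 * dv n c0

/-! ## Parts H and C

Lemma H: `Pool/Agent/Lib/MP_465591_an/N/H/Spec.lean` (helper64).  Part C (the chain, `S_Cmain`):
`Pool/Agent/Lib/MP_465591_an/N/C/Spec.lean` (helper43). -/

/-! ## Part F: the example -/

/-- **Fd** (110 lines).  `EF` is entire and normalized; the function `cc`.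

PROOF.  Coordinatewise (`differentiable_euclidean`; compare `Pool/Agent/Lib/MP_465591_an/Hol.lean`).
`dd (uz R) (uz R) = -(15/8) (-R² - 1)² ≠ 0` (`dd_self`).  At `z = 0` the quotient is `1`; the derivative of
`z ↦ z 0 * g z` with `g 0 = 1` at `0` is `dz_0`.  `(EF z) 0 * (EF z) 1 = z0 z1 dd(u, u0)/dd(u0, u0)` with
`u = u0 + κ z0 z1`, so `cc (EF z) = ψ(u0) + κ z0 z1 dd (u, u0) = ψ(u0) + (u - u0) dd (u, u0) = ψ(u)`
(`psi_sub`). -/
def S_Fd : Prop :=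
  ∀ A κ R : ℝ, 0 < R → Differentiable ℂ (EF A κ R) ∧ EF A κ R 0 = 0 ∧
    fderiv ℂ (EF A κ R) 0 = ContinuousLinearMap.id ℂ (Cn 2) ∧
    ∀ z : Cn 2, cc κ R (EF A κ R z) = psi (uz R + κ * (z 0 * z 1))

/-- **Fi** (150 lines; uses `S_Q1`, `S_Q4`, `S_Fd`).  Injectivity for large `A`.

PROOF.  `R1` from `S_Q4`.  `D = closedBall (uz R) (κ r²/2)` is a compact subset of the lower half plane
(`κ r²/2 < R`).  Let `Z = {(u, v) ∈ D × D | dd u v = 0}` (compact).  For `(u, v) ∈ Z`: `u ≠ v` (`dd_self`,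
`dpsi_ne`), `psi u = psi v` (`psi_sub`), so `u.re ≠ v.re` (`S_Q1`) and `u ≠ uz R`, `v ≠ uz R` (`S_Q4`:
`psi v = psi (uz R)`, `‖v - uz R‖ ≤ R` would give `v = uz R`).  So there is `δ > 0` with `|u.re - v.re| ≥ δ`,
`‖u - uz R‖ ≥ δ`, `‖v - uz R‖ ≥ δ` on `Z`.  Choose `A0` with `A0 δ > log (κ r²/δ)`, `A0 > 0`.  Let
`z, z' ∈ ball 0 r`, `EF z = EF z'`, `x = z 0`, `y = z 1`, `u = uz R + κ x y`, similarly `x', y', u'`;
`‖xy‖ ≤ (‖x‖² + ‖y‖²)/2 < r²/2`, so `u, u' ∈ D`.  `psi u = psi u'` by `S_Fd`.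
If `u = u'`: `xy = x'y'`, the exponentials are equal, `x = x'`; `dd u (uz R) ≠ 0` (if it is `0` then `(u, uz R) ∈ Z`,
impossible), so `y = y'`.  If `u ≠ u'`: `dd u u' = 0`, `(u, u') ∈ Z`.  The first components:
`‖x‖ exp (A κ Re (xy)) = ‖x'‖ exp (A κ Re (x'y'))`, `κ Re (xy) = Re u`.  `x, x' ≠ 0` (`u ≠ uz R`) and
`‖x‖ ≥ ‖xy‖/r ≥ δ/(κ r)`, `‖x‖ ≤ r`, the same for `x'`; so `A |Re u - Re u'| = |log (‖x'‖/‖x‖)| ≤ log (κ r²/δ)`,
contradiction. -/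
def S_Fi : Prop :=
  ∃ R1 : ℝ, 0 < R1 ∧ ∀ κ R r : ℝ, R1 ≤ R → 0 < κ → 0 < r → κ * r ^ 2 / 2 < R →
    ∃ A0 : ℝ, 0 < A0 ∧ ∀ A : ℝ, A0 ≤ A → InjOn (EF A κ R) (ball 0 r)

/-- **Fk** (80 lines).  The compact set `K0` is in the image.

PROOF.  `w 0 = z 0 * exp (-(A (u - uz R)))`, `t = (u - uz R)/κ`, `w 1 = t / w 0`; `w 0 w 1 = t`,
`uz R + κ t = u`.  `‖w 0‖ = ‖z 0‖ exp (-A Re u) = s/√2` (`(uz R).re = 0`); `‖w 1‖ = ‖t‖/‖w 0‖ ≤ (s²/2)/(s/√2) =
s/√2`.  So `‖w‖² ≤ s²`.  `(EF w) 0 = w 0 exp (A κ t) = z 0`.  `(EF w) 0 (EF w) 1 = t dd (u, uz R)/dd(uz R, uz R)`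
`= (psi u - psi (uz R))/(κ dd (uz R) (uz R)) = z 0 z 1` (from `cc κ R z = psi u`), so `(EF w) 1 = z 1`. -/
def S_Fk : Prop :=
  ∀ (A κ R s : ℝ) (u : ℂ) (z : Cn 2), 0 < R → 0 < κ → 0 < s → ‖u - uz R‖ ≤ κ * s ^ 2 / 2 → z 0 ≠ 0 →
    cc κ R z = psi u → Real.log ‖z 0‖ = Real.log (s / Real.sqrt 2) + A * u.re →
    ∃ w : Cn 2, ‖w‖ ≤ s ∧ EF A κ R w = z

/-- **Fa** (120 lines; uses `S_Fd`).  The annulus is not in the image of the ball.

PROOF.  Take `x = exp (A u2.re)` (real).  `A0` such that for `A ≥ A0`: `A (u4.re - u2.re) ≥ log (√2/s)` (so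
that `x` is between the two radii; the lower bound holds as `s/√2 < 1`) and
`A (u4.re - u2.re) ≥ log (κ/‖u4 - uz R‖)` (`u4 ≠ uz R` as `psi u4 = c00`, `‖psi (uz R)‖ > 1`;
`psi (uz R) = i (3R⁵ + 10R³ + 15R)/8`).  Suppose `EF w = aa t x`, `‖w‖ < 1`, `u = uz R + κ w0 w1`;
`‖κ w0 w1‖ < κ/2 < R`, so `u.im < 0`; `cc (aa t x) = ψ(u0) + κ dd(u0,u0) t = c00`, so `psi u = c00` (`S_Fd`) and
`u = u2` or `u = u4`.  `exp (A u2.re) = ‖x‖ = ‖w 0‖ exp (A u.re)`.  `u = u2`: `‖w 0‖ = 1`, contradiction.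
`u = u4`: `‖w 0‖ = exp (-A (u4.re - u2.re)) ≤ ‖u4 - uz R‖/κ = ‖w0 w1‖`, so `‖w 1‖ ≥ 1`, contradiction. -/
def S_Fa : Prop :=
  ∀ (κ R s : ℝ) (u2 u4 : ℂ), 0 < R → 0 < κ → κ < 2 * R → 0 < s → s < 1 → 1 ≤ R →
    psi u2 = c00 → psi u4 = c00 → u2.re < u4.re → u4.im < 0 →
    (∀ u : ℂ, u.im < 0 → psi u = c00 → u = u2 ∨ u = u4) →
    ∃ A0 : ℝ, 0 < A0 ∧ ∀ A : ℝ, A0 ≤ A →
      ∃ x : ℂ, Real.exp (Real.log (s / Real.sqrt 2) + A * u2.re) ≤ ‖x‖ ∧
        ‖x‖ ≤ Real.exp (Real.log (s / Real.sqrt 2) + A * u4.re) ∧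
        aa ((c00 - psi (uz R)) / (κ * dd (uz R) (uz R))) x ∉ EF A κ R '' ball 0 1

/-- **Par** (60 lines).  The parameters.

PROOF.  There are `μ > 0` and `B` with `u.im ≤ -μ`, `‖u‖ ≤ B` for `u ∈ S` (compactness).  For `u = x + iy`:
`‖u - uz R‖² = x² + (y + R)² = ‖u‖² + R² + 2Ry ≤ B² + R² - 2Rμ ≤ (R - μ/2)²` if `Rμ ≥ B²`.  Let `R` be large
(also `R ≥ R1`, `R > μ`), `κ = 2 (R - μ/4)`, `s² = (R - μ/2)/(R - μ/4)`, `r² = (R - μ/8)/(R - μ/4)`. -/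
def S_Par : Prop :=
  ∀ (S : Set ℂ) (R1 : ℝ), IsCompact S → (∀ u ∈ S, u.im < 0) → ∃ κ R s r : ℝ, R1 ≤ R ∧ 1 ≤ R ∧ 0 < κ ∧
    κ < 2 * R ∧ 0 < s ∧ s < 1 ∧ 1 < r ∧ κ * r ^ 2 / 2 < R ∧ ∀ u ∈ S, ‖u - uz R‖ ≤ κ * s ^ 2 / 2

/-- **Fin** (250 lines; keeper helper54; uses everything).  The frozen statement. -/
def S_Fin : Prop :=
  ∃ r : ℝ, 1 < r ∧ ∃ F : Cn 2 → Cn 2, Differentiable ℂ F ∧ InjOn F (ball 0 r) ∧ F 0 = 0 ∧
    fderiv ℂ F 0 = ContinuousLinearMap.id ℂ (Cn 2) ∧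
    ¬ ∃ L : ℝ → Cn 2 → Cn 2, Chain 2 L ∧ EqOn (L 0) F (ball 0 1)

end LC465
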