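import Pool.Agent.Lib.LC465.Spec2

/-!
# LC465/Sta: stability of the values
-/

set_option autoImplicit false

open Metric Set Filter Topology

namespace LC465

open Pool.Agent.Lib.MP_465591_an

theorem tSta (hH : S_Hur) : S_Sta := by
  intro F s s' hF hinj hs hss hs1 f hf hU
  have hδ : 0 < s' - s := sub_pos.2 hss
  -- the compact set of the pairs
  have hsub : {p : Cn 2 × Cn 2 | ‖p.1‖ ≤ s ∧ ‖p.2 - p.1‖ = s' - s} ⊆
      closedBall (0 : Cn 2) s ×ˢ closedBall (0 : Cn 2) s' := by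
    rintro ⟨q, z⟩ ⟨h1, h2⟩
    have h1' : ‖q‖ ≤ s := h1
    have h2' : ‖z - q‖ = s' - s := h2
    refine ⟨mem_closedBall_zero_iff.2 h1, mem_closedBall_zero_iff.2 ?_⟩
    have h3 : ‖z‖ ≤ ‖q‖ + ‖z - q‖ := by
      have h4 := norm_add_le q (z - q)
      rwa [add_sub_cancel] at h4
    change ‖z‖ ≤ s'
    linarith
  have hcl : IsClosed {p : Cn 2 × Cn 2 | ‖p.1‖ ≤ s ∧ ‖p.2 - p.1‖ = s' - s} :=
    (isClosed_le continuous_fst.norm continuous_const).inter
      (isClosed_eq (continuous_snd.sub continuous_fst).norm continuous_const)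
  have hK : IsCompact {p : Cn 2 × Cn 2 | ‖p.1‖ ≤ s ∧ ‖p.2 - p.1‖ = s' - s} :=
    ((isCompact_closedBall 0 s).prod (isCompact_closedBall 0 s')).of_isClosed_subset hcl hsub
  have hcont : Continuous fun p : Cn 2 × Cn 2 => ‖F p.2 - F p.1‖ :=
    ((hF.continuous.comp continuous_snd).sub (hF.continuous.comp continuous_fst)).norm
  obtain ⟨m, hm, hmK⟩ := hK.exists_forall_le' (a := (0 : ℝ)) hcont.continuousOn (by
    intro p hp
    obtain ⟨h1, h2⟩ := hsub hp
    rw [norm_pos_iff, sub_ne_zero]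
    intro h3
    have h4 : p.2 = p.1 := hinj (closedBall_subset_ball hs1 h2)
      (closedBall_subset_ball (hss.trans hs1) h1) h3
    have h5 : ‖p.2 - p.1‖ = s' - s := hp.2
    rw [h4, sub_self, norm_zero] at h5
    exact hδ.ne h5)
  filter_upwards [Metric.tendstoUniformlyOn_iff.1 hU (m / 2) (half_pos hm)] with k hk
  rintro _ ⟨q, hq, rfl⟩
  have hq' : ‖q‖ ≤ s := mem_closedBall_zero_iff.1 hq
  have hball : ∀ z : Cn 2, ‖z - q‖ ≤ s' - s → ‖z‖ ≤ s' := by
    intro z hz
    have h4 := norm_add_le q (z - q)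
    rw [add_sub_cancel] at h4
    linarith
  obtain ⟨w, hw, hfw⟩ := hH F (f k) q (s' - s) m hδ hm (by
      intro z hz
      rw [mem_closedBall, dist_eq_norm] at hz
      exact mem_ball_zero_iff.2 ((hball z hz).trans_lt hs1)) (hf k).1 (hf k).2
    (by
      intro z hz
      have h1 := hk z (mem_closedBall_zero_iff.2 (hball z hz))
      rwa [dist_comm, dist_eq_norm] at h1)
    (fun z hz => hmK (q, z) ⟨hq', hz⟩)
  exact ⟨w, mem_closedBall_zero_iff.2 (hball w hw.le), hfw⟩

end LC465
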