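import Pool.Agent.Lib.LC465.Spec

/-!
# LC465: from `S_Fin` to the negation of the statement of the problem
-/

set_option autoImplicit false

open Metric Set Filter Topology

namespace LC465

open Pool.Agent.Lib.MP_465591_an

theorem tTop (h : S_Fin) :
    ¬ (∀ n : ℕ, 2 ≤ n →
      ∀ f : EuclideanSpace ℂ (Fin n) → EuclideanSpace ℂ (Fin n),
        DifferentiableOn ℂ f (Metric.ball 0 1) →
        Set.InjOn f (Metric.ball 0 1) →
        f 0 = 0 →
        fderiv ℂ f 0 = ContinuousLinearMap.id ℂ (EuclideanSpace ℂ (Fin n)) →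
        (∃ r : ℝ, 1 < r ∧ ∃ F : EuclideanSpace ℂ (Fin n) → EuclideanSpace ℂ (Fin n),
            DifferentiableOn ℂ F (Metric.ball 0 r) ∧
            Set.InjOn F (Metric.ball 0 r) ∧
            Set.EqOn F f (Metric.ball 0 1)) →
        ∃ L : ℝ → EuclideanSpace ℂ (Fin n) → EuclideanSpace ℂ (Fin n),
          (∀ t : ℝ, 0 ≤ t →
              DifferentiableOn ℂ (L t) (Metric.ball 0 1) ∧
              Set.InjOn (L t) (Metric.ball 0 1) ∧
              L t 0 = 0 ∧
              fderiv ℂ (L t) 0 =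
                (Complex.ofReal (Real.exp t)) • ContinuousLinearMap.id ℂ (EuclideanSpace ℂ (Fin n))) ∧
          (∀ s t : ℝ, 0 ≤ s → s ≤ t →
              L s '' Metric.ball 0 1 ⊆ L t '' Metric.ball 0 1) ∧
          Set.EqOn (L 0) f (Metric.ball 0 1)) := by
  obtain ⟨r, hr, F, hF, hinj, h0, hd, hno⟩ := h
  intro hall
  obtain ⟨L, hL, hmono, hL0⟩ := hall 2 le_rfl F hF.differentiableOn
    (hinj.mono (ball_subset_ball hr.le)) h0 hd
    ⟨r, hr, F, hF.differentiableOn, hinj, fun _ _ => rfl⟩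
  refine hno ⟨L, ⟨fun t ht => (hL t ht).1, fun t ht => (hL t ht).2.1, fun t ht => (hL t ht).2.2.1,
    fun t ht => (hL t ht).2.2.2, hmono⟩, hL0⟩

end LC465
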